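import Pool.Agent.H9.SF.FDefs

/-! Part F, module FG: the truth lemma. -/

set_option linter.unusedVariables false

open Ordinal
open scoped ZFSet

namespace SF.H3

open SF

theorem val_cons (G τ : V) (v : ℕ → V) :
    (fun i => val G (cons τ v i)) = cons (val G τ) (fun i => val G (v i)) := by
  funext i; cases i <;> rfl

/-- renaming of the arguments: `p, c, r, v` -/
def r1 : ℕ → ℕ
  | 0 => 2
  | 1 => 0
  | i + 2 => i + 3

/-- renaming of the arguments: `τ, p, c, r, v` -/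
def r2 : ℕ → ℕ
  | 0 => 3
  | 1 => 1
  | 2 => 0
  | i + 3 => i + 4

theorem dfb_frc1 (hFC : T_FC) (φ : Fml) :
    Dfb ZFm (fun M u => frc M (u 2) φ (fun i => u (i + 3)) (u 0)) :=
  ((hFC φ).rn r1).congr fun _ _ _ _ => Iff.rfl

theorem dfb_frc2 (hFC : T_FC) (φ : Fml) :
    Dfb ZFm (fun M u => ∃ τ, M τ ∧ frc M (u 2) φ (cons τ (fun i => u (i + 3))) (u 0)) := by
  have h1 : Dfb ZFm (fun M u => frc M (u 3) φ (cons (u 0) fun i => u (i + 4)) (u 1)) := by
    refine ((hFC φ).rn r2).congr fun M _ u _ => ?_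
    have e : (fun i => u (r2 (i + 2))) = cons (u 0) fun i => u (i + 4) := by
      funext i; cases i <;> rfl
    show frc M (u 3) φ (fun i => u (r2 (i + 2))) (u 1) ↔ _
    rw [e]
  exact h1.ex.congr fun M _ u _ => Iff.rfl

theorem mem_c_left {c r p q : V} (h : IsPo c r) (hq : ZFSet.pair q p ∈ r) : q ∈ c := by
  obtain ⟨a, ha, b, hb, e⟩ := h.sub _ hq
  obtain ⟨rfl, rfl⟩ := ZFSet.pair_inj.1 e
  exact ha

theorem fg (hFC : T_FC) (hFD : T_FD) (hFE : T_FE) (hFF : T_FF) : T_FG := by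
  intro M c r G hM hc hr hPo hG φ
  have mono : ∀ (φ : Fml) (v : ℕ → V) (p q : V), frc M r φ v p → ZFSet.pair q p ∈ r →
      frc M r φ v q := fun φ v => (hFD M c r hPo φ v).1
  induction φ with
  | mem i j => intro v hv; exact (hFF M c r G hM hc hr hPo hG _ _ (hv i) (hv j)).2
  | eq i j => intro v hv; exact (hFF M c r G hM hc hr hPo hG _ _ (hv i) (hv j)).1
  | prd i =>
    intro v hv
    constructor
    · intro h; exact False.elim h
    · rintro ⟨p, _, h⟩; exact False.elim h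
  | neg φ ih =>
    intro v hv
    have ih' := ih v hv
    constructor
    · intro h
      have h' : ¬ Sat (Ext M G) φ (fun i => val G (v i)) := h
      have hD : M (c.sep fun p => frc M r φ v p ∨ frc M r (.neg φ) v p) :=
        (Tm.sep (R := fun M u => frc M (u 2) φ (fun i => u (i + 3)) (u 0) ∨
          frc M (u 2) (.neg φ) (fun i => u (i + 3)) (u 0))
          ((dfb_frc1 hFC φ).or (dfb_frc1 hFC (.neg φ))) (Tm.var 0)).1 M hM (cons c (cons r v))
          ((hv.cons hr).cons hc)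
      have hdense : IsDense c r (c.sep fun p => frc M r φ v p ∨ frc M r (.neg φ) v p) := by
        refine ⟨fun x hx => (ZFSet.mem_sep.1 hx).1, fun p hp => ?_⟩
        by_cases hx : ∃ q, ZFSet.pair q p ∈ r ∧ frc M r φ v q
        · obtain ⟨q, hq, hq2⟩ := hx
          exact ⟨q, ZFSet.mem_sep.2 ⟨mem_c_left hPo hq, Or.inl hq2⟩, hq⟩
        · refine ⟨p, ZFSet.mem_sep.2 ⟨hp, Or.inr ?_⟩, hPo.refl p hp⟩
          intro q hq hq2
          exact hx ⟨q, hq, hq2⟩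
      obtain ⟨p, hpG, hpD⟩ := hG.2 _ hD hdense
      rcases (ZFSet.mem_sep.1 hpD).2 with h1 | h1
      · exact absurd (ih'.2 ⟨p, hpG, h1⟩) h'
      · exact ⟨p, hpG, h1⟩
    · rintro ⟨p, hpG, hp⟩
      intro hs
      obtain ⟨q, hqG, hq⟩ := ih'.1 hs
      obtain ⟨s, hsG, hsp, hsq⟩ := hG.1.dir p hpG q hqG
      exact hp s hsp (mono φ v q s hq hsq)
  | and φ ψ ih1 ih2 =>
    intro v hv
    constructor
    · rintro ⟨h1, h2⟩
      obtain ⟨p, hpG, hp⟩ := (ih1 v hv).1 h1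
      obtain ⟨q, hqG, hq⟩ := (ih2 v hv).1 h2
      obtain ⟨s, hsG, hsp, hsq⟩ := hG.1.dir p hpG q hqG
      exact ⟨s, hsG, mono φ v p s hp hsp, mono ψ v q s hq hsq⟩
    · rintro ⟨p, hpG, hp1, hp2⟩
      exact ⟨(ih1 v hv).2 ⟨p, hpG, hp1⟩, (ih2 v hv).2 ⟨p, hpG, hp2⟩⟩
  | ex φ ih =>
    intro v hv
    constructor
    · rintro ⟨x, ⟨τ, hτ, rfl⟩, hs⟩
      rw [← val_cons] at hs
      obtain ⟨p, hpG, hp⟩ := (ih (cons τ v) (hv.cons hτ)).1 hs
      refine ⟨p, hpG, fun q hq => ⟨q, hPo.refl q (mem_c_left hPo hq), τ, hτ, ?_⟩⟩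
      exact mono φ _ p q hp hq
    · rintro ⟨p, hpG, hp⟩
      have hD : M (c.sep fun q => ∃ τ, M τ ∧ frc M r φ (cons τ v) q) :=
        (Tm.sep (R := fun M u => ∃ τ, M τ ∧ frc M (u 2) φ (cons τ (fun i => u (i + 3))) (u 0))
          (dfb_frc2 hFC φ) (Tm.var 0)).1 M hM (cons c (cons r v)) ((hv.cons hr).cons hc)
      obtain ⟨d, hdG, hdD, -⟩ := hFE M c r G _ p hM hc hr hPo hG hD hpG (by
        intro q hq
        obtain ⟨q', hq', τ, hτ, h1⟩ := hp q hq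
        exact ⟨q', ZFSet.mem_sep.2 ⟨mem_c_left hPo hq', τ, hτ, h1⟩, hq'⟩)
      obtain ⟨-, τ, hτ, h1⟩ := ZFSet.mem_sep.1 hdD
      refine ⟨val G τ, ⟨τ, hτ, rfl⟩, ?_⟩
      have h2 := (ih (cons τ v) (hv.cons hτ)).2 ⟨d, hdG, h1⟩
      rw [val_cons] at h2
      exact h2

end SF.H3
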