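import Pool.Agent.H9.SF.FDefs

/-! Part F, module FI: the generic extension is a model of `ZFm` which contains `M` and `G`. -/

set_option linter.unusedVariables false

open Ordinal
open scoped ZFSet

namespace SF.H3.FI

open SF

theorem val_cons (G τ : V) (v : ℕ → V) :
    (fun i => val G (cons τ v i)) = cons (val G τ) (fun i => val G (v i)) := by
  funext i; cases i <;> rfl

/-- substitution: `fst (u 0)`, then `u 3, u 4, ...` are the names; `u 2` is the relation and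
`snd (u 0)` the condition -/
noncomputable def F1 : ℕ → (V → Prop) → (ℕ → V) → V
  | 0 => fun _ u => u 2
  | 1 => fun _ u => snd (u 0)
  | 2 => fun _ u => fst (u 0)
  | i + 3 => fun _ u => u (i + 3)

theorem tm_F1 : ∀ i, Tm ZFm (F1 i)
  | 0 => Tm.var 2
  | 1 => Tm.snd (Tm.var 0)
  | 2 => Tm.fst (Tm.var 0)
  | i + 3 => Tm.var (i + 3)

theorem dfb1 (hFC : T_FC) (φ : Fml) :
    Dfb ZFm (fun M u => frc M (u 2) φ (cons (fst (u 0)) fun i => u (i + 3)) (snd (u 0))) := by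
  refine ((hFC φ).comp F1 tm_F1).congr fun M _ u _ => ?_
  have e : (fun i => F1 (i + 2) M u) = cons (fst (u 0)) fun i => u (i + 3) := by
    funext i; cases i <;> rfl
  show frc M (u 2) φ (fun i => F1 (i + 2) M u) (snd (u 0)) ↔ _
  rw [e]

/-- substitution: the names are `u 0, fst (u 1), u 4, u 5, ...`; `u 3` is the relation and
`snd (u 1)` the condition -/
noncomputable def F2 : ℕ → (V → Prop) → (ℕ → V) → V
  | 0 => fun _ u => u 3
  | 1 => fun _ u => snd (u 1)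
  | 2 => fun _ u => u 0
  | 3 => fun _ u => fst (u 1)
  | i + 4 => fun _ u => u (i + 4)

theorem tm_F2 : ∀ i, Tm ZFm (F2 i)
  | 0 => Tm.var 3
  | 1 => Tm.snd (Tm.var 1)
  | 2 => Tm.var 0
  | 3 => Tm.fst (Tm.var 1)
  | i + 4 => Tm.var (i + 4)

theorem dfb2 (hFC : T_FC) (φ : Fml) :
    Dfb ZFm (fun M u => frc M (u 3) φ (cons (u 0) (cons (fst (u 1)) fun i => u (i + 4)))
      (snd (u 1))) := by
  refine ((hFC φ).comp F2 tm_F2).congr fun M _ u _ => ?_
  have e : (fun i => F2 (i + 2) M u) = cons (u 0) (cons (fst (u 1)) fun i => u (i + 4)) := by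
    funext i
    match i with
    | 0 => rfl
    | 1 => rfl
    | i + 2 => rfl
  show frc M (u 3) φ (fun i => F2 (i + 2) M u) (snd (u 1)) ↔ _
  rw [e]

/-- `0 ↦ 0`, `i + 1 ↦ i + 2` -/
def sh : ℕ → ℕ
  | 0 => 0
  | i + 1 => i + 2

theorem val_prod {c G B y : V} (hs : G ⊆ c) (hn : G.Nonempty) :
    y ∈ val G (ZFSet.prod B c) ↔ ∃ z ∈ B, y = val G z := by
  rw [mem_val]
  constructor
  · rintro ⟨z, p, hp, h, rfl⟩
    exact ⟨z, (ZFSet.pair_mem_prod.1 h).1, rfl⟩
  · rintro ⟨z, hz, rfl⟩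
    obtain ⟨p, hp⟩ := hn
    exact ⟨z, p, hp, ZFSet.pair_mem_prod.2 ⟨hz, hs hp⟩, rfl⟩

theorem fi (hFC : T_FC) (hFG : T_FG) (hFH : T_FH) : T_FI := by
  intro M c r G hM hc hr hPo hG
  obtain ⟨-, hck, hgn, hupn, -, tck, tgn, tupn, -⟩ := hFH
  have hGc : G ⊆ c := hG.1.sub
  have hGn : G.Nonempty := hG.1.ne
  have hbase : ∀ x, M x → Ext M G x := by
    intro x hx
    refine ⟨ck c x, ?_, (hck c G x hGc hGn).symm⟩
    exact tck.1 M hM (cons c (cons x fun _ => c)) (In.cons (In.cons (fun _ => hc) hx) hc)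
  have hGG : Ext M G G := by
    refine ⟨gn c, ?_, (hgn c G hGc hGn).symm⟩
    exact tgn.1 M hM (fun _ => c) (fun _ => hc)
  -- separation
  have hsep : ∀ (φ : Fml) (v : ℕ → V) (a : V), (∀ i, Ext M G (v i)) → Ext M G a →
      Ext M G (a.sep fun z => Sat (Ext M G) φ (cons z v)) := by
    intro φ v a hv ha
    obtain ⟨x, hx, rfl⟩ := ha
    choose w hw hwv using hv
    have hv2 : v = fun i => val G (w i) := funext hwv
    have hb : In M (cons c (cons r (cons x w))) := In.cons (In.cons (In.cons hw hx) hr) hc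
    set ψ : Fml := .and (.mem 0 1) (φ.rn sh) with hψ
    have hs : M ((ZFSet.prod (dm x) c).sep fun q =>
        frc M r ψ (cons (fst q) (cons x w)) (snd q)) := by
      have h1 := (Tm.sep (R := fun M u => frc M (u 2) ψ (cons (fst (u 0)) fun i => u (i + 3))
        (snd (u 0))) (dfb1 hFC ψ) (Tm.prod (Tm.dm (Tm.var 2)) (Tm.var 0))).1 M hM
        (cons c (cons r (cons x w))) hb
      exact h1
    have key : ∀ z, M z → (Sat (Ext M G) ψ (fun i => val G (cons z (cons x w) i)) ↔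
        (val G z ∈ val G x ∧ Sat (Ext M G) φ (cons (val G z) v))) := by
      intro z hz
      rw [hψ]
      refine and_congr Iff.rfl ?_
      refine (satP_rn _ _ φ sh _).trans ?_
      have e : (fun i => (fun i => val G (cons z (cons x w) i)) (sh i)) = cons (val G z) v := by
        rw [hv2]
        funext i; cases i <;> rfl
      rw [e]
      exact Iff.rfl
    refine ⟨_, hs, ?_⟩
    ext y
    rw [ZFSet.mem_sep]
    constructor
    · rintro ⟨hy, hs2⟩
      obtain ⟨z, p0, hp0, hzx, rfl⟩ := mem_val.1 hy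
      have hzM : M z := (hM.of_pair_mem hx hzx).1
      have h1 := (key z hzM).2 ⟨hy, hs2⟩
      obtain ⟨p, hpG, hp⟩ := (hFG M c r G hM hc hr hPo hG ψ (cons z (cons x w))
        ((In.cons hw hx).cons hzM)).1 h1
      refine mem_val.2 ⟨z, p, hpG, ZFSet.mem_sep.2
        ⟨ZFSet.pair_mem_prod.2 ⟨mem_dm.2 ⟨p0, hzx⟩, hGc hpG⟩, ?_⟩, rfl⟩
      rw [fst_pair, snd_pair]
      exact hp
    · intro hy
      obtain ⟨z, p, hpG, hzp, rfl⟩ := mem_val.1 hy
      obtain ⟨h1, h2⟩ := ZFSet.mem_sep.1 hzp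
      rw [fst_pair, snd_pair] at h2
      obtain ⟨p0, hzx⟩ := mem_dm.1 (ZFSet.pair_mem_prod.1 h1).1
      have hzM : M z := (hM.of_pair_mem hx hzx).1
      exact (key z hzM).1 ((hFG M c r G hM hc hr hPo hG ψ (cons z (cons x w))
        ((In.cons hw hx).cons hzM)).2 ⟨p, hpG, h2⟩)
  refine ⟨⟨?_, ?_, ?_, ?_, hsep, ?_⟩, hbase, hGG⟩
  · -- transitive
    rintro _ ⟨x, hx, rfl⟩ y hy
    obtain ⟨z, p, hp, hz, rfl⟩ := mem_val.1 hy
    exact ⟨z, (hM.of_pair_mem hx hz).1, rfl⟩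
  · -- pair
    rintro _ _ ⟨x, hx, rfl⟩ ⟨y, hy, rfl⟩
    refine ⟨upn c x y, ?_, (hupn c G x y hGc hGn).symm⟩
    exact tupn.1 M hM (cons c (cons x fun _ => y)) (In.cons (In.cons (fun _ => hy) hx) hc)
  · -- union
    rintro a ha
    obtain ⟨x, hx, hxa⟩ := id ha
    have hu : M (ZFSet.prod (⋃₀ (imS (dm x) dm) : ZFSet) c) := by
      have h1 := (Tm.prod (Tm.sUnion (Tm.image (g := fun _ u => dm (u 0)) (Tm.dm (Tm.var 1))
        (Tm.dm (Tm.var 0)))) (Tm.var 0)).1 M hM (cons c (fun _ => x)) (In.cons (fun _ => hx) hc)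
      exact h1
    have h2 := hsep (.ex (.and (.mem 0 2) (.mem 1 0))) (fun _ => a) _ (fun _ => ha) ⟨_, hu, rfl⟩
    have e : (⋃₀ a : ZFSet) = (val G (ZFSet.prod (⋃₀ (imS (dm x) dm) : ZFSet) c)).sep
        fun z => Sat (Ext M G) (.ex (.and (.mem 0 2) (.mem 1 0))) (cons z fun _ => a) := by
      ext w
      rw [ZFSet.mem_sUnion, ZFSet.mem_sep]
      constructor
      · rintro ⟨y, hy, hw⟩
        have hy' := hy
        rw [hxa] at hy'
        obtain ⟨y1, p, hp, hy1, rfl⟩ := mem_val.1 hy'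
        refine ⟨?_, val G y1, ⟨y1, (hM.of_pair_mem hx hy1).1, rfl⟩, hy, hw⟩
        obtain ⟨z, p1, hp1, hz, rfl⟩ := mem_val.1 hw
        refine (val_prod hGc hGn).2 ⟨z, ?_, rfl⟩
        refine ZFSet.mem_sUnion.2 ⟨dm y1, mem_imS.2 ⟨y1, mem_dm.2 ⟨p, hy1⟩, rfl⟩, mem_dm.2 ⟨p1, hz⟩⟩
      · rintro ⟨-, y, hyM, hy, hw⟩
        exact ⟨y, hy, hw⟩
    rw [e]
    exact h2
  · exact hbase _ hM.inf
  · -- collection
    intro φ v a hv ha hall
    obtain ⟨x, hx, rfl⟩ := ha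
    choose w hw hwv using hv
    have hv2 : v = fun i => val G (w i) := funext hwv
    have hb : In M (cons c (cons r w)) := In.cons (In.cons hw hr) hc
    have hbx : In M (cons x (cons c (cons r w))) := hb.cons hx
    have hdf := dfb2 hFC φ
    -- the set `A`
    have hA : M ((ZFSet.prod (dm x) c).sep fun q => ∃ τ, M τ ∧
        frc M r φ (cons τ (cons (fst q) w)) (snd q)) := by
      have h1 := (Tm.sep (R := fun M u => ∃ τ, M τ ∧ frc M (u 3) φ
        (cons τ (cons (fst (u 0)) fun i => u (i + 4))) (snd (u 0))) ?_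
        (Tm.prod (Tm.dm (Tm.var 0)) (Tm.var 1))).1 M hM (cons x (cons c (cons r w))) hbx
      · exact h1
      · have h2 : Dfb ZFm (fun M u => frc M (u 4) φ
            (cons (u 0) (cons (fst (u 1)) fun i => u (i + 5))) (snd (u 1))) := by
          refine (hdf.rn (fun i => match i with | 0 => 0 | 1 => 1 | i + 2 => i + 3)).congr
            fun M _ u _ => Iff.rfl
        exact h2.ex.congr fun M _ u _ => Iff.rfl
    obtain ⟨χ, hχ⟩ := hdf
    obtain ⟨B, hB, hB2⟩ := hM.coll χ (cons c (cons r w)) _ hb hA (by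
      intro q hq
      obtain ⟨h1, τ, hτ, h2⟩ := ZFSet.mem_sep.1 hq
      have hqM := hM.trans _ hA q hq
      exact ⟨τ, hτ, (hχ M hM _ ((hb.cons hqM).cons hτ)).2 h2⟩)
    have hBn : M (ZFSet.prod B c) :=
      (Tm.prod (Tm.var 0) (Tm.var 1)).1 M hM (cons B fun _ => c) (In.cons (fun _ => hc) hB)
    refine ⟨_, ⟨_, hBn, rfl⟩, ?_⟩
    intro y hy
    obtain ⟨t, ⟨τ, hτ, rfl⟩, hs⟩ := hall y hy
    obtain ⟨y1, p0, hp0, hy1, rfl⟩ := mem_val.1 hy
    have hy1M : M y1 := (hM.of_pair_mem hx hy1).1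
    have e : ∀ τ : V, (fun i => val G (cons τ (cons y1 w) i)) =
        cons (val G τ) (cons (val G y1) v) := by
      intro τ
      rw [val_cons, val_cons, ← hv2]
    have hs' : Sat (Ext M G) φ (fun i => val G (cons τ (cons y1 w) i)) := by
      rw [e]; exact hs
    obtain ⟨p, hpG, hp⟩ := (hFG M c r G hM hc hr hPo hG φ (cons τ (cons y1 w))
      ((In.cons hw hy1M).cons hτ)).1 hs'
    have hq : ZFSet.pair y1 p ∈ (ZFSet.prod (dm x) c).sep fun q => ∃ τ, M τ ∧
        frc M r φ (cons τ (cons (fst q) w)) (snd q) := by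
      refine ZFSet.mem_sep.2 ⟨ZFSet.pair_mem_prod.2 ⟨mem_dm.2 ⟨p0, hy1⟩, hGc hpG⟩, τ, hτ, ?_⟩
      rw [fst_pair, snd_pair]
      exact hp
    obtain ⟨τ1, hτ1, h1⟩ := hB2 _ hq
    have hqM := hM.trans _ hA _ hq
    have hτ1M := hM.trans _ hB _ hτ1
    have h2 := (hχ M hM _ ((hb.cons hqM).cons hτ1M)).1 h1
    have h3 : frc M r φ (cons τ1 (cons y1 w)) p := by
      have h4 : frc M r φ (cons τ1 (cons (fst (ZFSet.pair y1 p)) w)) (snd (ZFSet.pair y1 p)) := h2
      rw [fst_pair, snd_pair] at h4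
      exact h4
    refine ⟨val G τ1, (val_prod hGc hGn).2 ⟨τ1, hτ1, rfl⟩, ?_⟩
    have h5 := (hFG M c r G hM hc hr hPo hG φ (cons τ1 (cons y1 w))
      ((In.cons hw hy1M).cons hτ1M)).2 ⟨p, hpG, h3⟩
    rw [e] at h5
    exact h5

end SF.H3.FI
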