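import Pool.Agent.H92.SF.PD

/-!
# MP_70ba79_ag, THEOREM S: complements of smooth curves of large degree on surfaces; definitions

`F` is the field of rational functions on the cone over a surface `Y`, `u 0, u 1, u 2` are linear
forms which define a finite projection to the plane, `dd l` are the derivations of `F` with
`dd l (u j) = δ_lj`, `G` is the form which defines the curve `D`, `J` is a form in `u` which absorbs
all denominators.
-/

set_option autoImplicit false

namespace Pool.Agent.H3.SF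

open MvPolynomial SC Pool.Agent.H27.LV
open Pool.Agent.H84.SM (dp cr dt)
open Pool.Agent.H92.SF

/-! ### Integral elements -/

section Int

variable (k : Type) {F ι : Type} [Field k] [Field F] [Algebra k F]

/-- `a` is integral over `k[u]` -/
def Itg (u : ι → F) (a : F) : Prop :=
  ((aeval u : MvPolynomial ι k →ₐ[k] F) : MvPolynomial ι k →+* F).IsIntegralElem a

/-- the field generated by `u` -/
abbrev kF (u : ι → F) : IntermediateField k F := IntermediateField.adjoin k (Set.range u)

/-- the ring of integral elements -/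
noncomputable def Bb (u : ι → F) : Subalgebra k F where
  carrier := {a | Itg k u a}
  mul_mem' := fun ha hb => RingHom.IsIntegralElem.mul _ ha hb
  add_mem' := fun ha hb => RingHom.IsIntegralElem.add _ ha hb
  algebraMap_mem' := fun r => by
    have h := ((aeval u : MvPolynomial ι k →ₐ[k] F) : MvPolynomial ι k →+* F).isIntegralElem_map
      (x := C r)
    simpa [Itg, algebraMap_eq] using h

/-- homogeneous elements of degree `t` for the Euler derivation `E` -/
def Hm (E : Derivation k F F) (t : ℤ) (a : F) : Prop := E a = (t : F) * a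

/-- integral homogeneous elements of degree `t` -/
def BB (u : ι → F) (E : Derivation k F F) (t : ℤ) : Submodule k F where
  carrier := {a | Itg k u a ∧ Hm k E t a}
  add_mem' := fun ha hb => ⟨(Bb k u).add_mem ha.1 hb.1, by
    have h1 := ha.2
    have h2 := hb.2
    unfold Hm at *
    rw [map_add, h1, h2, mul_add]⟩
  zero_mem' := ⟨(Bb k u).zero_mem, by unfold Hm; simp⟩
  smul_mem' := fun c a ha => ⟨(Bb k u).smul_mem ha.1 c, by
    have h1 := ha.2
    unfold Hm at *
    rw [Derivation.map_smul, h1, mul_smul_comm]⟩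

/-- `o` is a valuation ring which contains `k[u]` and in which one of the `u i` is invertible -/
structure NV (u : ι → F) (o : ValuationSubring F) : Prop where
  con : ∀ c : k, algebraMap k F c ∈ o
  mem : ∀ i, u i ∈ o
  unit : ∃ i, u i ≠ 0 ∧ (u i)⁻¹ ∈ o

end Int

/-! ### Surfaces and curves on them -/

section Surf

variable {k F : Type} [Field k] [Field F] [Algebra k F]

/-- Euler derivation -/
noncomputable def eu (u : Fin 3 → F) (dd : Fin 3 → Derivation k F F) : Derivation k F F :=
  ∑ l, u l • dd l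

/-- chain rule for derivations of the field of a curve: `J` is not zero at the curve `φ` -/
def Chr (u : Fin 3 → F) (dd : Fin 3 → Derivation k F F) (J : MvPolynomial (Fin 3) k) : Prop :=
  ∀ (K : Type) [Field K] [Algebra k K] (φ : Bb k u →ₐ[k] K) (D : Derivation k K K)
    (a jj : Bb k u) (b ul : Fin 3 → Bb k u), (jj : F) = aeval u J →
    (∀ l, (b l : F) = aeval u J * dd l a) → (∀ l, (ul l : F) = u l) → φ jj ≠ 0 →
    φ jj * D (φ a) = ∑ l, φ (b l) * D (φ (ul l))

/-- a surface with a finite projection of degree `δ` to the plane; `J` is a form of degree `j0` -/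
structure Sfc (u : Fin 3 → F) (dd : Fin 3 → Derivation k F F) (δ j0 c0 : ℕ)
    (J : MvPolynomial (Fin 3) k) : Prop where
  ind : AlgebraicIndependent k u
  rank : Module.finrank (kF k u) F = δ
  pos : 1 ≤ δ
  du : ∀ l j, dd l (u j) = if l = j then 1 else 0
  comm : ∀ l l' a, dd l (dd l' a) = dd l' (dd l a)
  Jh : J.IsHomogeneous j0
  J0 : J ≠ 0
  Jd : ∀ l a, Itg k u a → Itg k u (aeval u J * dd l a)
  chr : Chr u dd J
  grd : ∀ a, Itg k u a → a ∈ ⨆ t : ℤ, BB k u (eu u dd) t
  neg : ∀ t : ℤ, t < 0 → BB k u (eu u dd) t = ⊥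
  fin : ∀ t : ℤ, Module.Finite k (BB k u (eu u dd) t)
  up : ∀ t : ℕ, 2 * Module.finrank k (BB k u (eu u dd) t) ≤ δ * (t + c0) ^ 2
  lo : ∀ t : ℕ, c0 ≤ t → δ * (t - c0) ^ 2 ≤ 2 * Module.finrank k (BB k u (eu u dd) t)

/-- gradient of `G` -/
noncomputable def grd (dd : Fin 3 → Derivation k F F) (G : F) : Fin 3 → F := fun l => dd l G

/-- second derivatives of `G` -/
noncomputable def hes (dd : Fin 3 → Derivation k F F) (G : F) : Fin 3 → Fin 3 → F :=
  fun i j => dd i (dd j G)

/-- the curve `G = 0` is irreducible and smooth, and the surface is smooth along it -/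
structure Crd (u : Fin 3 → F) (dd : Fin 3 → Derivation k F F) (m : ℕ) (G : F) : Prop where
  ne : G ≠ 0
  itg : Itg k u G
  hom : Hm k (eu u dd) m G
  cert : ∃ c : ℕ, ∀ i, ∃ e : Fin 3 → F, (∀ l, Itg k u (e l) ∧
    Hm k (eu u dd) ((c : ℤ) + 1 - m) (e l)) ∧ u i ^ c = ∑ l, e l * dd l G
  prm : ∀ a b, Itg k u a → Itg k u b → Itg k u (a * b / G) → Itg k u (a / G) ∨ Itg k u (b / G)

/-- the chart of the surface -/
noncomputable def Ps (u : Fin 3 → F) (dd : Fin 3 → Derivation k F F) (J : MvPolynomial (Fin 3) k)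
    (m : ℕ) (G : F) : Q2 F →+* C3 F :=
  Psi m u (grd dd G) G (hes dd G) (aeval u J)

/-- `V` has the weight `n` and the twist `τ` -/
def Tw (u : Fin 3 → F) (dd : Fin 3 → Derivation k F F) (n : ℕ) (τ : ℤ) (V : Q2 F) : Prop :=
  WH n V ∧ ∀ (j : ℕ) (a : Fin 2 →₀ ℕ), Hm k (eu u dd) (τ - 2 * n + 3 * j) ((V.coeff j).coeff a)

/-- `V` is a section of weight `n` and twist `τ` -/
def Sec (u : Fin 3 → F) (dd : Fin 3 → Derivation k F F) (J : MvPolynomial (Fin 3) k)
    (m : ℕ) (G : F) (n : ℕ) (τ : ℤ) (V : Q2 F) : Prop :=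
  Tw u dd n τ V ∧
    ∀ (j : ℕ) (a : Fin 3 →₀ ℕ), Itg k u (((Ps u dd J m G V).coeff j).coeff a)

/-- the space of sections of weight `n` and twist `τ` -/
noncomputable def E (u : Fin 3 → F) (dd : Fin 3 → Derivation k F F) (J : MvPolynomial (Fin 3) k)
    (m : ℕ) (G : F) (n : ℕ) (τ : ℤ) : Submodule k (Q2 F) where
  carrier := {V | Sec u dd J m G n τ V}
  add_mem' := by
    rintro a b ⟨⟨ha1, ha2⟩, ha3⟩ ⟨⟨hb1, hb2⟩, hb3⟩
    refine ⟨⟨fun j => ⟨fun h => ?_, fun h => ?_⟩, fun j c => ?_⟩, fun j c => ?_⟩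
    · rw [Polynomial.coeff_add]
      exact ((ha1 j).1 h).add ((hb1 j).1 h)
    · rw [Polynomial.coeff_add, (ha1 j).2 h, (hb1 j).2 h, add_zero]
    · have h1 := ha2 j c
      have h2 := hb2 j c
      unfold Hm at *
      rw [Polynomial.coeff_add, coeff_add, map_add, h1, h2, mul_add]
    · rw [map_add, Polynomial.coeff_add, coeff_add]
      exact (Bb k u).add_mem (ha3 j c) (hb3 j c)
  zero_mem' := by
    refine ⟨⟨fun j => ⟨fun h => ?_, fun h => ?_⟩, fun j c => ?_⟩, fun j c => ?_⟩
    · rw [Polynomial.coeff_zero]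
      exact isHomogeneous_zero _ _ _
    · simp
    · unfold Hm
      simp
    · rw [map_zero, Polynomial.coeff_zero, coeff_zero]
      exact (Bb k u).zero_mem
  smul_mem' := by
    rintro r a ⟨⟨ha1, ha2⟩, ha3⟩
    have hr : r • a = Polynomial.C (C (algebraMap k F r)) * a := by
      rw [Algebra.smul_def]
      rfl
    have hc : ∀ j c, ((r • a).coeff j).coeff c = r • (a.coeff j).coeff c := by
      intro j c
      rw [hr, Polynomial.coeff_C_mul, coeff_C_mul, Algebra.smul_def]
    refine ⟨⟨fun j => ⟨fun h => ?_, fun h => ?_⟩, fun j c => ?_⟩, fun j c => ?_⟩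
    · rw [hr, Polynomial.coeff_C_mul]
      have := (isHomogeneous_C (Fin 2) (algebraMap k F r)).mul ((ha1 j).1 h)
      rwa [zero_add] at this
    · rw [hr, Polynomial.coeff_C_mul, (ha1 j).2 h, mul_zero]
    · have h1 := ha2 j c
      unfold Hm at *
      rw [hc, Derivation.map_smul, h1, mul_smul_comm]
    · have h2 : Ps u dd J m G (r • a) = Polynomial.C (C (algebraMap k F r)) * Ps u dd J m G a := by
        rw [hr, map_mul]
        congr 1
        simp [Ps, Psi, ev2, cc]
      rw [h2, Polynomial.coeff_C_mul, coeff_C_mul, ← Algebra.smul_def]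
      exact (Bb k u).smul_mem (ha3 j c) r

/-- a first order equation: the value is a polynomial in `x × x'` -/
structure FE (u : Fin 3 → F) (dd : Fin 3 → Derivation k F F) (c : Q2 F) : Prop where
  ne : c ≠ 0
  dg : c.natDegree = 0
  itg : ∀ (j : ℕ) (a : Fin 2 →₀ ℕ), Itg k u ((c.coeff j).coeff a)
  tw : ∃ n τ, Tw u dd n τ c

/-- the vector `g × ρ` in `F[ρ]` -/
noncomputable def gx (dd : Fin 3 → Derivation k F F) (G : F) : Fin 3 → MvPolynomial (Fin 3) F :=
  cr (fun i => C (grd dd G i)) X

/-- the equation `A w + b = 0`, `b` a cubic form in the derivative, with the solution `G = 0` -/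
structure Cnn (u : Fin 3 → F) (dd : Fin 3 → Derivation k F F) (J : MvPolynomial (Fin 3) k)
    (m : ℕ) (G : F) (α : ℕ) (A : MvPolynomial (Fin 3) k) (b : MvPolynomial (Fin 3) F) : Prop where
  hA : A.IsHomogeneous α
  ne : A ≠ 0
  dvd : J ∣ A
  hb : b.IsHomogeneous 3
  itg : ∀ a, Itg k u (b.coeff a)
  hm : ∀ a, Hm k (eu u dd) α (b.coeff a)
  inv : ∑ i, C (u i) * pderiv i b = 0
  comp : ∀ a, Itg k u (((aeval (fun i => C (aeval u J ^ 2) * gx dd G i) b -
    C (aeval u A * aeval u J ^ 6) * hq (fun i j => C (hes dd G i j)) (gx dd G) (gx dd G) *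
      dp (fun i => C (u i)) X).coeff a) / G)

end Surf

/-! ### Curves -/

section Curves

variable {k F K : Type} [Field k] [Field F] [Algebra k F] [Field K] [Algebra k K]

/-- `b` is the value of `a` at the curve `φ` -/
def Vl (u : Fin 3 → F) (φ : Bb k u →ₐ[k] K) (a : F) (b : K) : Prop :=
  ∃ h c : Bb k u, φ h ≠ 0 ∧ (h : F) * a = c ∧ φ h * b = φ c

/-- `W` is the value of `V` at the curve `φ` -/
def VQ (u : Fin 3 → F) (φ : Bb k u →ₐ[k] K) (V : Q2 F) (W : Q2 K) : Prop :=
  ∀ (j : ℕ) (a : Fin 2 →₀ ℕ), Vl u φ ((V.coeff j).coeff a) ((W.coeff j).coeff a)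

/-- the value of `W` at the jet of `x` -/
noncomputable def evc (D : Derivation k K K) (x : Fin 3 → K) : Q2 K →+* K :=
  ev2 (RingHom.id K) (cr x fun i => D (x i)) (dt x (fun i => D (x i)) fun i => D (D (x i)))

/-- `φ` is a curve with the coordinates `x`, one of them is 1; `g` is the value of the form `G` of
degree `m`; the curve does not meet `G = 0` outside `S` -/
structure Crf (u : Fin 3 → F) (J : MvPolynomial (Fin 3) k) (m : ℕ) (G : F) (φ : Bb k u →ₐ[k] K)
    (x : Fin 3 → K) (g : K) (S : Finset (DV k K)) : Prop where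
  cx : ∀ (i : Fin 3) (b : Bb k u), (b : F) = u i → φ b = x i
  one : ∃ j, x j = 1
  Jx : aeval x J ≠ 0
  gx : ∀ b : Bb k u, (b : F) = G → φ b = g
  ne : g ≠ 0
  off : ∀ v, v ∉ S → v.ord g = -(m * poleOrder v x)

/-- the field is generated by the values of `φ` -/
def Prm {u : Fin 3 → F} (φ : Bb k u →ₐ[k] K) : Prop :=
  IntermediateField.adjoin k (Set.range φ) = ⊤

/-- the curve satisfies none of the equations -/
def Avd (u : Fin 3 → F) (φ : Bb k u →ₐ[k] K) (D : Derivation k K K) (x : Fin 3 → K)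
    (cs : Set (Q2 F)) : Prop :=
  ∀ c ∈ cs, ∀ W, VQ u φ c W → evc D x W ≠ 0

/-- normalised order of an element of degree `e` with the value `a` -/
noncomputable def nv (v : DV k K) (x : Fin 3 → K) (e : ℤ) (a : K) : ℤ :=
  v.ord a + e * poleOrder v x

end Curves

end Pool.Agent.H3.SF
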