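import Pool.Agent.H3.SF.Defs

/-!
# MP_70ba79_ag, THEOREM S: statements at the boundaries of the chapters
-/

set_option autoImplicit false

namespace Pool.Agent.H3.SF

open MvPolynomial SC Pool.Agent.H27.LV
open Pool.Agent.H84.SM (dp cr dt)
open Pool.Agent.H92.SF

/-- all sections of weight `n` and negative twist `-t` are divisible by a high power of `P` -/
def Mlt {k F : Type} [Field k] [Field F] [Algebra k F] (u : Fin 3 → F)
    (dd : Fin 3 → Derivation k F F) (J : MvPolynomial (Fin 3) k) (j0 m : ℕ) (G : F) (n : ℕ)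
    (P : Q2 F) : Prop :=
  ∀ (t r : ℕ) (V : Q2 F), V ∈ E u dd J m G n (-(t : ℤ)) →
    ((r : ℤ) - 1) * (m - 3) + 2 * n * j0 < t → P ^ r ∣ V

/-- NEG: there is a section of negative twist (helper92) -/
def T_NEG : Prop := ∀ δ j0 c0 : ℕ, ∃ m1 : ℕ,
  ∀ (k F : Type) [Field k] [IsAlgClosed k] [CharZero k] [Field F] [Algebra k F]
  (u : Fin 3 → F) (dd : Fin 3 → Derivation k F F) (J : MvPolynomial (Fin 3) k),
  Sfc u dd δ j0 c0 J → ∀ (m : ℕ) (G : F), m1 ≤ m → Crd u dd m G →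
  ∃ (n t : ℕ) (V : Q2 F), 2 * n * j0 < t ∧ V ≠ 0 ∧ V ∈ E u dd J m G n (-(t : ℤ))

/-- MLF: not all sections are divisible by high powers of a polynomial of weight at least 4
(helper92) -/
def T_MLF : Prop := ∀ δ j0 c0 : ℕ, ∃ m1 : ℕ,
  ∀ (k F : Type) [Field k] [IsAlgClosed k] [CharZero k] [Field F] [Algebra k F]
  (u : Fin 3 → F) (dd : Fin 3 → Derivation k F F) (J : MvPolynomial (Fin 3) k),
  Sfc u dd δ j0 c0 J → ∀ (m : ℕ) (G : F), m1 ≤ m → Crd u dd m G → ∀ (w : ℕ) (τ : ℤ) (P : Q2 F),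
  4 ≤ w → P ≠ 0 → 1 ≤ P.natDegree → Tw u dd w τ P → ∃ n : ℕ, 1 ≤ n ∧ ¬ Mlt u dd J j0 m G n P

/-- MLT: the same for weight 3, if a coefficient in the chart has denominators of degree at least
`m / q` (helper92) -/
def T_MLT : Prop := ∀ δ j0 c0 q : ℕ, 1 ≤ q → ∃ m1 : ℕ,
  ∀ (k F : Type) [Field k] [IsAlgClosed k] [CharZero k] [Field F] [Algebra k F]
  (u : Fin 3 → F) (dd : Fin 3 → Derivation k F F) (J : MvPolynomial (Fin 3) k),
  Sfc u dd δ j0 c0 J → ∀ (m : ℕ) (G : F), m1 ≤ m → Crd u dd m G → ∀ P : Q2 F,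
  P.coeff 1 = 1 → Tw u dd 3 3 P →
  (∃ (j : ℕ) (a : Fin 3 →₀ ℕ), ∀ (h : ℕ) (H : MvPolynomial (Fin 3) k), q * h < m →
    H.IsHomogeneous h → H ≠ 0 →
    ¬ Itg k u (aeval u H * (((Ps u dd J m G P).coeff j).coeff a / G))) →
  ∃ n : ℕ, 1 ≤ n ∧ ¬ Mlt u dd J j0 m G n P

/-- CON: weight 3 and small denominators: a connection with the solution `G = 0` -/
def T_CON : Prop := ∀ δ j0 c0 : ℕ, ∃ q m1 : ℕ, 1 ≤ q ∧
  ∀ (k F : Type) [Field k] [IsAlgClosed k] [CharZero k] [Field F] [Algebra k F]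
  (u : Fin 3 → F) (dd : Fin 3 → Derivation k F F) (J : MvPolynomial (Fin 3) k),
  Sfc u dd δ j0 c0 J → ∀ (m : ℕ) (G : F), m1 ≤ m → Crd u dd m G → ∀ P : Q2 F,
  P.coeff 1 = 1 → Tw u dd 3 3 P →
  (∀ (j : ℕ) (a : Fin 3 →₀ ℕ), ∃ (h : ℕ) (H : MvPolynomial (Fin 3) k), q * h < m ∧
    H.IsHomogeneous h ∧ H ≠ 0 ∧
    Itg k u (aeval u H * (((Ps u dd J m G P).coeff j).coeff a / G))) →
  ∃ (α : ℕ) (A : MvPolynomial (Fin 3) k) (b : MvPolynomial (Fin 3) F), 2 * α ≤ m ∧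
    Cnn u dd J m G α A b ∧
    ∀ (K : Type) [Field K] [Algebra k K] (φ : Bb k u →ₐ[k] K) (D : Derivation k K K)
    (x : Fin 3 → K) (W : Q2 K) (b0 : MvPolynomial (Fin 3) (Bb k u)),
    (∀ (i : Fin 3) (b : Bb k u), (b : F) = u i → φ b = x i) → (∃ j, x j = 1) →
    VQ u φ P W → evc D x W = 0 → map ((Bb k u).val : Bb k u →+* F) b0 = b →
    aeval x A * dt x (fun i => D (x i)) (fun i => D (D (x i))) +
      eval₂ (φ : Bb k u →+* K) (fun i => D (x i)) b0 = 0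

/-- EVF: the fundamental inequality for a curve: `V = P ^ r * N` -/
def T_EVF : Prop := ∀ (k F : Type) [Field k] [IsAlgClosed k] [CharZero k] [Field F] [Algebra k F]
  (u : Fin 3 → F) (dd : Fin 3 → Derivation k F F) (δ j0 c0 : ℕ) (J : MvPolynomial (Fin 3) k),
  Sfc u dd δ j0 c0 J → ∀ (m : ℕ) (G : F), 4 ≤ m → Crd u dd m G →
  ∀ (K : Type) [Field K] [Algebra k K] [Algebra.EssFiniteType k K], Algebra.trdeg k K = 1 →
  ∀ (D : Derivation k K K), D ≠ 0 → ∀ (φ : Bb k u →ₐ[k] K) (x : Fin 3 → K) (g : K)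
  (S : Finset (DV k K)), Crf u J m G φ x g S →
  ∀ (n t r w n' : ℕ) (τ τ' : ℤ) (V P N : Q2 F) (PK NK : Q2 K),
  V ∈ E u dd J m G n (-(t : ℤ)) → V ≠ 0 → V = P ^ r * N → 1 ≤ P.natDegree → Tw u dd w τ P →
  Tw u dd n' τ' N → VQ u φ P PK → VQ u φ N NK → evc D x NK ≠ 0 →
  evc D x (Polynomial.derivative PK) ≠ 0 →
  ((t : ℤ) - 2 * n * j0 - r * (m - 3)) * deg k x ≤ (n - 3 * r) * (canDeg D + S.card)

/-- FOS: first order equations -/
def T_FOS : Prop := ∀ (k F : Type) [Field k] [IsAlgClosed k] [CharZero k] [Field F] [Algebra k F]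
  (u : Fin 3 → F) (dd : Fin 3 → Derivation k F F) (δ j0 c0 : ℕ) (J : MvPolynomial (Fin 3) k),
  Sfc u dd δ j0 c0 J → ∀ (m : ℕ) (G : F), 1 ≤ m → Crd u dd m G → ∀ c : Q2 F, FE u dd c →
  ∃ C : ℕ, ∀ (K : Type) [Field K] [Algebra k K] [Algebra.EssFiniteType k K],
  Algebra.trdeg k K = 1 → ∀ (D : Derivation k K K), D ≠ 0 → ∀ (φ : Bb k u →ₐ[k] K)
  (x : Fin 3 → K) (g : K) (S : Finset (DV k K)), Prm φ → Crf u J m G φ x g S → ∀ W : Q2 K,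
  VQ u φ c W → evc D x W = 0 →
  (∃ (e : ℕ) (Φ : MvPolynomial (Fin 3) k), e ≤ C ∧ Φ ≠ 0 ∧ Φ.IsHomogeneous e ∧ aeval x Φ = 0) ∨
  deg k x ≤ C * S.card

/-- LOC: solutions of connections -/
def T_LOC : Prop := ∃ κ : ℕ, ∀ (k F : Type) [Field k] [IsAlgClosed k] [CharZero k] [Field F]
  [Algebra k F] (u : Fin 3 → F) (dd : Fin 3 → Derivation k F F) (δ j0 c0 : ℕ)
  (J : MvPolynomial (Fin 3) k), Sfc u dd δ j0 c0 J → ∀ (m : ℕ) (G : F), Crd u dd m G →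
  ∀ (α : ℕ) (A : MvPolynomial (Fin 3) k) (b : MvPolynomial (Fin 3) F), Cnn u dd J m G α A b →
  α + κ * j0 < m → ∃ C : ℕ, ∀ (K : Type) [Field K] [Algebra k K] [Algebra.EssFiniteType k K],
  Algebra.trdeg k K = 1 → ∀ (D : Derivation k K K), D ≠ 0 → ∀ (φ : Bb k u →ₐ[k] K)
  (x : Fin 3 → K) (g : K) (S : Finset (DV k K)), Prm φ → Crf u J m G φ x g S →
  ∀ b0 : MvPolynomial (Fin 3) (Bb k u), map ((Bb k u).val : Bb k u →+* F) b0 = b →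
  aeval x A * dt x (fun i => D (x i)) (fun i => D (D (x i))) +
    eval₂ (φ : Bb k u →+* K) (fun i => D (x i)) b0 = 0 →
  (∃ (e : ℕ) (Φ : MvPolynomial (Fin 3) k), e ≤ C ∧ Φ ≠ 0 ∧ Φ.IsHomogeneous e ∧ aeval x Φ = 0) ∨
  deg k x ≤ C * S.card

/-- MAI: the theorem for surfaces with a projection -/
def T_MAI : Prop := ∀ δ j0 c0 : ℕ, ∃ m0 : ℕ,
  ∀ (k F : Type) [Field k] [IsAlgClosed k] [CharZero k] [Field F] [Algebra k F]
  (u : Fin 3 → F) (dd : Fin 3 → Derivation k F F) (J : MvPolynomial (Fin 3) k),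
  Sfc u dd δ j0 c0 J → ∀ (m : ℕ) (G : F), m0 ≤ m → Crd u dd m G → ∃ B : ℕ,
  ∀ (K : Type) [Field K] [Algebra k K] [Algebra.EssFiniteType k K], Algebra.trdeg k K = 1 →
  ∀ (D : Derivation k K K), D ≠ 0 → ∀ (φ : Bb k u →ₐ[k] K)
  (x : Fin 3 → K) (g : K) (S : Finset (DV k K)), Crf u J m G φ x g S →
  ∃ (e : ℕ) (Φ : MvPolynomial (Fin 3) k), (e : ℤ) ≤ B * max 1 (canDeg D + S.card) ∧ Φ ≠ 0 ∧
    Φ.IsHomogeneous e ∧ aeval x Φ = 0

end Pool.Agent.H3.SF
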