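import Pool.Agent.H3.SF.Tg3

/-!
# MP_70ba79_ag, THEOREM S: row MAX: assembly
-/

set_option autoImplicit false

namespace Pool.Agent.H3.SF

open MvPolynomial SC Pool.Agent.H27.LV
open Pool.Agent.H84.SM (dp cr dt T_IMF T_CAN)
open Pool.Agent.H92.SF
open Pool.Agent.H84.SF (Cor SmG T_LOX)

/-- the conclusion of FOS and LOC -/
def Con (k : Type) {K : Type} [Field k] [Field K] [Algebra k K] (C : ℕ) (x : Fin 3 → K)
    (n : ℕ) : Prop :=
  (∃ (e : ℕ) (Φ : MvPolynomial (Fin 3) k), e ≤ C ∧ Φ ≠ 0 ∧ Φ.IsHomogeneous e ∧ aeval x Φ = 0) ∨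
  deg k x ≤ C * n

lemma Con.mono {k K : Type} [Field k] [Field K] [Algebra k K] {C C' : ℕ} (hC : C ≤ C')
    {x : Fin 3 → K} {n : ℕ} (h : Con k C x n) : Con k C' x n := by
  rcases h with ⟨e, Φ, he, h⟩ | h
  · exact Or.inl ⟨e, Φ, he.trans hC, h⟩
  · exact Or.inr (h.trans (Nat.mul_le_mul_right _ hC))

lemma finmax {α : Type} (s : Set α) (hs : s.Finite) (P : α → ℕ → Prop)
    (hm : ∀ a C C', C ≤ C' → P a C → P a C') (h : ∀ a ∈ s, ∃ C, P a C) :
    ∃ C, ∀ a ∈ s, P a C := by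
  classical
  choose! f hf using h
  exact ⟨hs.toFinset.sup f, fun a ha =>
    hm a _ _ (Finset.le_sup (f := f) (hs.mem_toFinset.2 ha)) (hf a ha)⟩

/-- a curve whose coordinates are constants lies on a line -/
lemma const_line {k K : Type} [Field k] [Field K] [Algebra k K] (x : Fin 3 → K)
    (h1 : ∃ j, x j = 1) (hc : ∀ i, x i ∈ Set.range (algebraMap k K)) :
    ∃ Φ : MvPolynomial (Fin 3) k, Φ ≠ 0 ∧ Φ.IsHomogeneous 1 ∧ aeval x Φ = 0 := by
  obtain ⟨j, hj⟩ := h1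
  obtain ⟨i, hi⟩ : ∃ i : Fin 3, i ≠ j := exists_ne j
  obtain ⟨a, ha⟩ := hc i
  refine ⟨X i - C a * X j, ?_, ?_, ?_⟩
  · intro h0
    have h := congrArg (MvPolynomial.coeff (Finsupp.single i 1)) h0
    rw [MvPolynomial.coeff_sub, MvPolynomial.coeff_C_mul, MvPolynomial.coeff_X,
      MvPolynomial.coeff_X, if_pos rfl, if_neg] at h
    · simp at h
    · intro h2
      exact hi (Finsupp.single_left_injective one_ne_zero h2).symm
  · refine (isHomogeneous_X k i).sub ?_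
    have h := (isHomogeneous_C (Fin 3) a).mul (isHomogeneous_X k j)
    simpa using h
  · rw [map_sub, map_mul, aeval_X, aeval_X, MvPolynomial.algHom_C, hj, ha, mul_one, sub_self]

/-- forms with integral coefficients -/
lemma exists_lift {k F : Type} [Field k] [Field F] [Algebra k F] (u : Fin 3 → F)
    (b : MvPolynomial (Fin 3) F) (h : ∀ a, Itg k u (b.coeff a)) :
    ∃ b0 : MvPolynomial (Fin 3) (Bb k u), map ((Bb k u).val : Bb k u →+* F) b0 = b := by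
  have h1 : b ∈ Set.range (map ((Bb k u).val : Bb k u →+* F) :
      MvPolynomial (Fin 3) (Bb k u) → MvPolynomial (Fin 3) F) := by
    rw [mem_range_map_iff_coeffs_subset]
    intro c hc
    rw [Finset.mem_coe, mem_coeffs_iff] at hc
    obtain ⟨a, -, rfl⟩ := hc
    exact ⟨⟨b.coeff a, h a⟩, rfl⟩
  exact h1

lemma lift_hom {k F : Type} [Field k] [Field F] [Algebra k F] (u : Fin 3 → F)
    (b : MvPolynomial (Fin 3) F) (n : ℕ) (hb : b.IsHomogeneous n)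
    (b0 : MvPolynomial (Fin 3) (Bb k u)) (h : map ((Bb k u).val : Bb k u →+* F) b0 = b) :
    b0.IsHomogeneous n := by
  intro d hd
  apply hb
  rw [← h, coeff_map]
  intro h0
  apply hd
  have h2 : (((Bb k u).val : Bb k u →+* F)) (coeff d b0) = ((coeff d b0 : Bb k u) : F) := rfl
  rw [h2] at h0
  exact Subtype.ext h0

theorem pf_MAX (hPRT : T_PRT) (hFOS : T_FOS) (hLOX : T_LOX) (hPRS : T_PRS) (hDSX : T_DSX)
    (hIMF : T_IMF) (hCAN : T_CAN) : T_MAX := by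
  intro δ j0 c0
  obtain ⟨m1, hm1⟩ := hPRT δ j0 c0
  obtain ⟨κ, hκ⟩ := hLOX
  refine ⟨max m1 (max 2 (2 * (κ * j0) + 1)), ?_⟩
  intro k F σ _ _ _ _ _ _ _ X u dd J hS hX m G hm hG hs
  have hmm1 : m1 ≤ m := (le_max_left _ _).trans hm
  have hm2 : 2 ≤ m := ((le_max_left _ _).trans (le_max_right _ _)).trans hm
  have hm3 : 2 * (κ * j0) + 1 ≤ m := ((le_max_right _ _).trans (le_max_right _ _)).trans hm
  obtain ⟨B0, cs, ps, hcs, hps, hc, hp, h⟩ := hm1 k F u dd J hS m G hmm1 hG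
  obtain ⟨C1, hC1⟩ := finmax cs hcs (fun c C => ∀ (K : Type) [Field K] [Algebra k K]
    [Algebra.EssFiniteType k K], Algebra.trdeg k K = 1 → ∀ (D : Derivation k K K), D ≠ 0 →
    ∀ (φ : Bb k u →ₐ[k] K) (x : Fin 3 → K) (g : K) (S : Finset (DV k K)), Prm φ →
    Crf u J m G φ x g S → ∀ W : Q2 K, VQ u φ c W → evc D x W = 0 → Con k C x S.card)
    (fun a C C' hCC hP K _ _ _ ht D hD φ x g S hpr hx W hW he =>
      (hP K ht D hD φ x g S hpr hx W hW he).mono hCC)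
    (fun c hcc => by
      obtain ⟨C, hC⟩ := hFOS k F u dd δ j0 c0 J hS m G (by omega) hG c (hc c hcc)
      exact ⟨C, fun K _ _ _ ht D hD φ x g S hpr hx W hW he =>
        hC K ht D hD φ x g S hpr hx W hW he⟩)
  obtain ⟨C2, hC2⟩ := finmax ps hps (fun p C => ∀ (K : Type) [Field K] [Algebra k K]
    [Algebra.EssFiniteType k K], Algebra.trdeg k K = 1 → ∀ (D : Derivation k K K), D ≠ 0 →
    ∀ (φ : Bb k u →ₐ[k] K) (x : Fin 3 → K) (g : K) (S : Finset (DV k K)), Prm φ →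
    Crf u J m G φ x g S →
    ∀ b0 : MvPolynomial (Fin 3) (Bb k u), map ((Bb k u).val : Bb k u →+* F) b0 = p.2.2 →
    aeval x p.2.1 * dt x (fun i => D (x i)) (fun i => D (D (x i))) +
      eval₂ (φ : Bb k u →+* K) (fun i => D (x i)) b0 = 0 → Con k C x S.card)
    (fun a C C' hCC hP K _ _ _ ht D hD φ x g S hpr hx b0 hb0 he =>
      (hP K ht D hD φ x g S hpr hx b0 hb0 he).mono hCC)
    (fun p hpp => by
      obtain ⟨h1, h2⟩ := hp p hpp
      obtain ⟨C, hC⟩ := hκ k F σ X u dd δ j0 c0 J hS hX m G hm2 hG hs p.1 p.2.1 p.2.2 h2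
        (by omega)
      exact ⟨C, fun K _ _ _ ht D hD φ x g S hpr hx b0 hb0 he =>
        hC K ht D hD φ x g S hpr hx b0 hb0 he⟩)
  refine ⟨2 * B0 + 7 * (C1 + C2) + 2, ?_⟩
  intro K _ _ _ ht D hD φ x g S hx
  have hcan := hCAN k K ht D hD
  -- reduction to the bound of the degree of a form by the number of places
  have hred : (∃ (e : ℕ) (Φ : MvPolynomial (Fin 3) k), e ≤ 2 * ((C1 + C2) * S.card) +
      (C1 + C2) + 1 ∧ Φ ≠ 0 ∧ Φ.IsHomogeneous e ∧ aeval x Φ = 0) →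
      ∃ (e : ℕ) (Φ : MvPolynomial (Fin 3) k), (e : ℤ) ≤ ((2 * B0 + 7 * (C1 + C2) + 2 : ℕ) : ℤ) *
        max 1 (canDeg D + S.card) ∧ Φ ≠ 0 ∧ Φ.IsHomogeneous e ∧ aeval x Φ = 0 := by
    rintro ⟨e, Φ, he, hΦ⟩
    refine ⟨e, Φ, ?_, hΦ⟩
    have h1 : (e : ℤ) ≤ 2 * (((C1 + C2 : ℕ) : ℤ) * (S.card : ℤ)) + ((C1 + C2 : ℕ) : ℤ) + 1 := by
      exact_mod_cast he
    have hm1 : (1 : ℤ) ≤ max 1 (canDeg D + S.card) := le_max_left _ _
    have hm2 : canDeg D + (S.card : ℤ) ≤ max 1 (canDeg D + S.card) := le_max_right _ _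
    generalize max 1 (canDeg D + (S.card : ℤ)) = M at hm1 hm2
    have h2 : (S.card : ℤ) ≤ 3 * M := by omega
    have h3 : (0 : ℤ) ≤ ((C1 + C2 : ℕ) : ℤ) := by positivity
    have h4 : ((C1 + C2 : ℕ) : ℤ) * (S.card : ℤ) ≤ ((C1 + C2 : ℕ) : ℤ) * (3 * M) :=
      mul_le_mul_of_nonneg_left h2 h3
    have h5 : ((C1 + C2 : ℕ) : ℤ) * 1 ≤ ((C1 + C2 : ℕ) : ℤ) * M :=
      mul_le_mul_of_nonneg_left hm1 h3
    have h6 : (0 : ℤ) ≤ (B0 : ℤ) * M := by positivity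
    push_cast at h1 h4 h5 ⊢
    nlinarith
  by_cases hcc : ∀ i, x i ∈ Set.range (algebraMap k K)
  · obtain ⟨Φ, h1, h2, h3⟩ := const_line x hx.one hcc
    exact hred ⟨1, Φ, by omega, h1, h2, h3⟩
  rcases h K ht D hD φ x g S hx with h1 | h1
  · obtain ⟨e, Φ, he, hΦ⟩ := hIMF k K ht x hx.one
    refine ⟨e, Φ, ?_, hΦ⟩
    have he' : (e : ℤ) ≤ 2 * (deg k x : ℤ) + 1 := by exact_mod_cast he
    have hm1 : (1 : ℤ) ≤ max 1 (canDeg D + S.card) := le_max_left _ _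
    have hm2 : max 0 (canDeg D + (S.card : ℤ)) ≤ max 1 (canDeg D + S.card) :=
      max_le_max_right _ (by norm_num)
    generalize max 1 (canDeg D + (S.card : ℤ)) = M at hm1 hm2
    have h4 : (B0 : ℤ) * max 0 (canDeg D + (S.card : ℤ)) ≤ (B0 : ℤ) * M :=
      mul_le_mul_of_nonneg_left hm2 (by positivity)
    have h5 : (0 : ℤ) ≤ ((C1 : ℤ) + C2) * M := by positivity
    push_cast
    nlinarith
  · rcases hPRS k F u dd δ j0 c0 J hS m G hG K ht D hD φ x g S hx with hcc' | ⟨K0, i1, i2, i3, ι,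
      φ0, x0, g0, D0, μ, S0, ht0, hD0, hx0, hφ0, hpr, hμ, hDμ, hcr, hcard⟩
    · exact absurd hcc' hcc
    · have hxx : x = fun j => ι (x0 j) := funext fun j => (hx0 j).symm
      have hdsx := hDSX k F u dd K0 K ι φ0 φ D D0 μ x0 hμ hDμ hφ0
      have hCon : Con k (C1 + C2) x0 S0.card := by
        rcases h1 with ⟨c, hcm, W, hW, hce⟩ | ⟨p, hpm, hpe⟩
        · rw [hxx] at hce
          obtain ⟨W0, hW0, he0⟩ := hdsx.1 c W (hc c hcm) hW hce
          exact (hC1 c hcm K0 ht0 D0 hD0 φ0 x0 g0 S0 hpr hcr W0 hW0 he0).mono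
            (Nat.le_add_right _ _)
        · obtain ⟨_, hcon⟩ := hp p hpm
          obtain ⟨b0, hb0⟩ := exists_lift u p.2.2 hcon.itg
          have hbh := lift_hom u p.2.2 3 hcon.hb b0 hb0
          have hpe' := hpe b0 hb0
          rw [hxx] at hpe'
          exact (hC2 p hpm K0 ht0 D0 hD0 φ0 x0 g0 S0 hpr hcr b0 hb0
            (hdsx.2 p.2.1 b0 hbh hpe')).mono (Nat.le_add_left _ _)
      apply hred
      have hav : ∀ Φ : MvPolynomial (Fin 3) k, aeval x0 Φ = 0 → aeval x Φ = 0 := by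
        intro Φ h0
        have h2 : aeval x Φ = ι (aeval x0 Φ) := by
          rw [hxx, ← MvPolynomial.comp_aeval_apply]
        rw [h2, h0, map_zero]
      rcases hCon with ⟨e, Φ, he, h1, h2, h3⟩ | hdeg
      · exact ⟨e, Φ, by omega, h1, h2, hav Φ h3⟩
      · obtain ⟨e, Φ, he, h1, h2, h3⟩ := hIMF k K0 ht0 x0 hcr.one
        refine ⟨e, Φ, ?_, h1, h2, hav Φ h3⟩
        have h4 : (C1 + C2) * S0.card ≤ (C1 + C2) * S.card := Nat.mul_le_mul_left _ hcard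
        omega

end Pool.Agent.H3.SF
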