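import Pool.Agent.H3.SF.Defs

/-!
# MP_70ba79_ag, THEOREM S: targets, part 1: integral elements, the field of the curve `G = 0`
-/

set_option autoImplicit false

namespace Pool.Agent.H3.SF

open MvPolynomial SC Pool.Agent.H27.LV
open Pool.Agent.H84.SM (dp cr dt)
open Pool.Agent.H92.SF

/-! ### Integral elements -/

/-- SAT: saturation -/
def T_SAT : Prop := ∀ (k F : Type) [Field k] [Field F] [Algebra k F] (n : ℕ) (v : Fin n → F),
  AlgebraicIndependent k v → ∀ p q : MvPolynomial (Fin n) k, IsRelPrime p q → ∀ a : F,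
  Itg k v (aeval v p * a) → Itg k v (aeval v q * a) → Itg k v a

/-- VRI: integral elements and valuation rings -/
def T_VRI : Prop := ∀ (k F : Type) [Field k] [Field F] [Algebra k F] (n : ℕ) (v : Fin n → F),
  2 ≤ n → AlgebraicIndependent k v → ∀ a : F,
  Itg k v a ↔ ∀ o : ValuationSubring F, NV k v o → a ∈ o

/-- GVR: Gauss lemma for valuation rings -/
def T_GVR : Prop := ∀ (L : Type) [Field L] (o : ValuationSubring L) (r : ℕ) (P N : C3 L),
  (∀ (j : ℕ) (a : Fin 3 →₀ ℕ), ((P ^ r * N).coeff j).coeff a ∈ o) →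
  ∀ (α : Fin r → L), (∀ i, ∃ (j : ℕ) (a : Fin 3 →₀ ℕ), α i = (P.coeff j).coeff a) →
  ∀ (j : ℕ) (a : Fin 3 →₀ ℕ), (∏ i, α i) * (N.coeff j).coeff a ∈ o

/-- GVM: the same for polynomials in several variables -/
def T_GVM : Prop := ∀ (L : Type) [Field L] (o : ValuationSubring L) (n r : ℕ)
  (P N : MvPolynomial (Fin n) L), (∀ a, (P ^ r * N).coeff a ∈ o) →
  ∀ (α : Fin r → L), (∀ i, ∃ a, α i = P.coeff a) → ∀ a, (∏ i, α i) * N.coeff a ∈ o

/-- field with two parameters, a derivation and finite degree over the parameters -/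
structure Hd (k : Type) {F : Type} [Field k] [Field F] [Algebra k F] {n : ℕ} (v : Fin n → F)
    (E : Derivation k F F) (d : ℕ) : Prop where
  ind : AlgebraicIndependent k v
  deg : Module.finrank (kF k v) F = d
  pos : 1 ≤ d
  eul : ∀ i, E (v i) = v i

/-- MPH: coefficients of the minimal polynomial of a homogeneous element -/
def T_MPH : Prop := ∀ (k F : Type) [Field k] [CharZero k] [Field F] [Algebra k F] (n d : ℕ)
  (v : Fin n → F) (E : Derivation k F F), Hd k v E d → ∀ (t : ℤ) (a : F), Hm k E t a →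
  ∀ i : ℕ, i ≤ (minpoly (kF k v) a).natDegree → Hm k E (i * t) (((minpoly (kF k v) a).coeff ((minpoly (kF k v) a).natDegree - i) :
    kF k v) : F)

/-- HMP: homogeneous elements of `k(v)`, of `k[v]` -/
def T_HMP : Prop := ∀ (k F : Type) [Field k] [CharZero k] [Field F] [Algebra k F] (n : ℕ)
  (v : Fin n → F) (E : Derivation k F F), AlgebraicIndependent k v → (∀ i, E (v i) = v i) →
  (∀ (t : ℤ) (p : MvPolynomial (Fin n) k), p ≠ 0 → Hm k E t (aeval v p) →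
    ∃ e : ℕ, (e : ℤ) = t ∧ p.IsHomogeneous e) ∧
  ∀ (t : ℤ) (z : F), z ∈ kF k v → Hm k E t z → ∃ (e h : ℕ) (p q : MvPolynomial (Fin n) k),
    q ≠ 0 ∧ IsRelPrime p q ∧ p.IsHomogeneous e ∧ q.IsHomogeneous h ∧ z * aeval v q = aeval v p ∧
    (p ≠ 0 → (e : ℤ) - h = t)

/-- NGD: integral homogeneous elements of negative degree are zero; norms of integral homogeneous
elements are forms -/
def T_NGD : Prop := ∀ (k F : Type) [Field k] [CharZero k] [Field F] [Algebra k F] (n d : ℕ)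
  (v : Fin n → F) (E : Derivation k F F), Hd k v E d →
  (∀ (t : ℤ) (a : F), t < 0 → Itg k v a → Hm k E t a → a = 0) ∧
  ∀ (t : ℕ) (a : F), Itg k v a → Hm k E t a → ∃ N : MvPolynomial (Fin n) k,
    N.IsHomogeneous (d * t) ∧ ((Algebra.norm (kF k v) a : kF k v) : F) = aeval v N ∧
    (a ≠ 0 → N ≠ 0)

/-- NDV: an integral element divides its norm -/
def T_NDV : Prop := ∀ (k F : Type) [Field k] [CharZero k] [Field F] [Algebra k F] (n d : ℕ)
  (v : Fin n → F) (E : Derivation k F F), Hd k v E d → ∀ a : F, a ≠ 0 → Itg k v a →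
  Itg k v (((Algebra.norm (kF k v) a : kF k v) : F) / a)

/-- STP: combinations divisible by a power of a linear form -/
def T_STP : Prop := ∀ (k F : Type) [Field k] [CharZero k] [Field F] [Algebra k F] (d : ℕ)
  (v : Fin 2 → F) (E : Derivation k F F), Hd k v E d → ∀ x y : k, (x ≠ 0 ∨ y ≠ 0) →
  ∀ (t : ℤ) (j : ℕ) (s : Fin (d * j + 1) → F), LinearIndependent k s →
  (∀ i, s i ∈ BB k v E t) → ∃ c : Fin (d * j + 1) → k, c ≠ 0 ∧ ∃ b ∈ BB k v E (t - j),
  ∑ i, c i • s i = (x • v 0 + y • v 1) ^ j * b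

/-- LMH: dimension of spaces of homogeneous integral elements with norms divisible by `H` -/
def T_LMH : Prop := ∀ (k F : Type) [Field k] [CharZero k] [Field F] [Algebra k F] (d : ℕ)
  (v : Fin 2 → F) (E : Derivation k F F), Hd k v E d → ∀ (t : ℤ) (W : Submodule k F),
  W ≤ BB k v E t → ∀ (h : ℕ) (H : MvPolynomial (Fin 2) k), H.IsHomogeneous h → H ≠ 0 →
  (∀ s ∈ W, ∃ q : MvPolynomial (Fin 2) k,
    ((Algebra.norm (kF k v) s : kF k v) : F) = aeval v (H * q)) →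
  Module.Finite k W ∧ (W ≠ ⊥ → (Module.finrank k W : ℤ) + h ≤ d * (t + 1))

/-- NRM: divisibility of norms -/
def T_NRM : Prop := ∀ (k F : Type) [Field k] [CharZero k] [Field F] [Algebra k F] (n d : ℕ)
  (v : Fin n → F) (E : Derivation k F F), Hd k v E d → ∀ (r : ℕ) (b ω : F)
  (A H B : MvPolynomial (Fin n) k), Itg k v (b * ω ^ r) →
  ((Algebra.norm (kF k v) ω : kF k v) : F) * aeval v H = aeval v A → IsRelPrime A H →
  ((Algebra.norm (kF k v) b : kF k v) : F) = aeval v B → H ^ r ∣ B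

/-- DEN: common denominator of the coefficients of the characteristic polynomial -/
def T_DEN : Prop := ∀ (k F : Type) [Field k] [CharZero k] [Field F] [Algebra k F] (n d : ℕ)
  (v : Fin n → F) (E : Derivation k F F), Hd k v E d → 1 ≤ n → ∀ (e : ℕ) (γ : F),
  Hm k E e γ → ∃ (h a : ℕ) (H A f : MvPolynomial (Fin n) k), H ≠ 0 ∧ H.IsHomogeneous h ∧
  Itg k v (aeval v H * γ) ∧ f.IsHomogeneous e ∧ A ≠ 0 ∧ A.IsHomogeneous a ∧ IsRelPrime A H ∧
  ((Algebra.norm (kF k v) (aeval v f + γ) : kF k v) : F) * aeval v H = aeval v A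

/-- HDN: denominators of homogeneous elements are forms -/
def T_HDN : Prop := ∀ (k F : Type) [Field k] [CharZero k] [Field F] [Algebra k F] (n d : ℕ)
  (v : Fin n → F) (E : Derivation k F F), Hd k v E d → ∀ (t : ℤ) (a : F), Hm k E t a →
  ∃ (h : ℕ) (H : MvPolynomial (Fin n) k), H ≠ 0 ∧ H.IsHomogeneous h ∧ Itg k v (aeval v H * a)

/-! ### Surfaces -/

/-- SF1: first properties -/
def T_SF1 : Prop := ∀ (k F : Type) [Field k] [IsAlgClosed k] [CharZero k] [Field F] [Algebra k F]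
  (u : Fin 3 → F) (dd : Fin 3 → Derivation k F F) (δ j0 c0 : ℕ) (J : MvPolynomial (Fin 3) k),
  Sfc u dd δ j0 c0 J → Hd k u (eu u dd) δ ∧ (∀ i, Itg k u (u i)) ∧
  (∀ p : MvPolynomial (Fin 3) k, Itg k u (aeval u p)) ∧
  (∀ (l : Fin 3) (p : MvPolynomial (Fin 3) k), dd l (aeval u p) = aeval u (pderiv l p)) ∧
  (∀ a, Itg k u a → Itg k u (eu u dd a)) ∧
  (∀ (t : ℤ) (a : F) (l : Fin 3), Hm k (eu u dd) t a → Hm k (eu u dd) (t - 1) (dd l a)) ∧
  ∀ a : F, ∃ b c : F, Itg k u b ∧ Itg k u c ∧ c ≠ 0 ∧ a = b / c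

/-- SF2: the form `G` -/
def T_SF2 : Prop := ∀ (k F : Type) [Field k] [IsAlgClosed k] [CharZero k] [Field F] [Algebra k F]
  (u : Fin 3 → F) (dd : Fin 3 → Derivation k F F) (δ j0 c0 : ℕ) (J : MvPolynomial (Fin 3) k),
  Sfc u dd δ j0 c0 J → ∀ (m : ℕ) (G : F), Crd u dd m G →
  Dat m u (grd dd G) G (hes dd G) ∧ (∀ l, Itg k u (aeval u J * dd l G)) ∧
  (∀ i j, Itg k u (aeval u J ^ 3 * dd i (dd j G))) ∧
  (∀ (t : ℤ) (a : F), a ≠ 0 → Itg k u a → Hm k (eu u dd) t a → Itg k u (a / G) → (m : ℤ) ≤ t) ∧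
  (j0 + 1 < m → ∃ l, ¬ Itg k u (aeval u J * dd l G / G)) ∧
  (1 ≤ m → ∃ N : MvPolynomial (Fin 3) k, N ≠ 0 ∧ N.IsHomogeneous (δ * m) ∧
    Itg k u (aeval u N / G))

/-- CLS: the certificate at a valuation ring: a derivative of `G` of maximal size -/
def T_CLS : Prop := ∀ (L : Type) [Field L] (o : ValuationSubring L) (c : ℕ) (x : L)
  (e g : Fin 3 → L), x ≠ 0 → x⁻¹ ∈ o → (∀ l, e l ∈ o) → x ^ c = ∑ l, e l * g l →
  ∃ l, g l ≠ 0 ∧ (g l)⁻¹ ∈ o ∧ ∀ i, g i / g l ∈ o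

/-- the field `LL` of the curve `G = 0` (homogeneous), `π` the restriction to the curve, `v` two
linear forms over which it is integral -/
structure Dcv {k F LL : Type} [Field k] [Field F] [Algebra k F] [Field LL] [Algebra k LL]
    (u : Fin 3 → F) (dd : Fin 3 → Derivation k F F) (G : F) (π : Bb k u →ₐ[k] LL)
    (v : Fin 2 → LL) (EL : Derivation k LL LL) (d : ℕ) : Prop where
  hd : Hd k v EL d
  ker : ∀ b : Bb k u, π b = 0 ↔ Itg k u ((b : F) / G)
  sur : ∀ z : LL, ∃ b c : Bb k u, π c ≠ 0 ∧ z * π c = π b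
  lin : ∀ i, ∃ (a : Fin 3 → k) (b : Bb k u), (b : F) = ∑ j, a j • u j ∧ v i = π b
  itg : ∀ b : Bb k u, Itg k v (π b)
  eul : ∀ b b' : Bb k u, (b' : F) = eu u dd b → EL (π b) = π b'

/-- DCV: existence and degree -/
def T_DCV : Prop := ∀ δ j0 c0 : ℕ, ∃ C : ℕ, ∀ (k F : Type) [Field k] [IsAlgClosed k] [CharZero k]
  [Field F] [Algebra k F] (u : Fin 3 → F) (dd : Fin 3 → Derivation k F F)
  (J : MvPolynomial (Fin 3) k), Sfc u dd δ j0 c0 J → ∀ (m : ℕ) (G : F), 2 ≤ m → Crd u dd m G →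
  ∃ (LL : Type) (_ : Field LL) (_ : Algebra k LL) (π : Bb k u →ₐ[k] LL) (v : Fin 2 → LL)
    (EL : Derivation k LL LL) (d : ℕ), Dcv u dd G π v EL d ∧ d ≤ m * δ + C

/-- DCX: existence -/
def T_DCX : Prop := ∀ (k F : Type) [Field k] [IsAlgClosed k] [CharZero k] [Field F] [Algebra k F]
  (u : Fin 3 → F) (dd : Fin 3 → Derivation k F F) (δ j0 c0 : ℕ) (J : MvPolynomial (Fin 3) k),
  Sfc u dd δ j0 c0 J → ∀ (m : ℕ) (G : F), 2 ≤ m → Crd u dd m G →
  ∃ (LL : Type) (_ : Field LL) (_ : Algebra k LL) (π : Bb k u →ₐ[k] LL) (v : Fin 2 → LL)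
    (EL : Derivation k LL LL) (d : ℕ), Dcv u dd G π v EL d

/-- DCD: degree -/
def T_DCD : Prop := ∀ δ j0 c0 : ℕ, ∃ C : ℕ, ∀ (k F : Type) [Field k] [IsAlgClosed k] [CharZero k]
  [Field F] [Algebra k F] (u : Fin 3 → F) (dd : Fin 3 → Derivation k F F)
  (J : MvPolynomial (Fin 3) k), Sfc u dd δ j0 c0 J → ∀ (m : ℕ) (G : F), 2 ≤ m → Crd u dd m G →
  ∀ (LL : Type) [Field LL] [Algebra k LL] (π : Bb k u →ₐ[k] LL) (v : Fin 2 → LL)
    (EL : Derivation k LL LL) (d : ℕ), Dcv u dd G π v EL d → d ≤ m * δ + C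

end Pool.Agent.H3.SF
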