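import Pool.Agent.H1.SF.FAC
import Pool.Agent.H10.SF.DSX
import Pool.Agent.H10.SF.SCON
import Pool.Agent.H14.SFH.HMP
import Pool.Agent.H14.SFH.MPH
import Pool.Agent.H19.SRF.CN2
import Pool.Agent.H19.SRF.TWM
import Pool.Agent.H19.SRF.VPS
import Pool.Agent.H21.SF.EVF
import Pool.Agent.H30.SFH.DC1
import Pool.Agent.H30.SFH.DEN
import Pool.Agent.H30.SFH.NRM
import Pool.Agent.H34.SF.VLA
import Pool.Agent.H35.SFH.NDV
import Pool.Agent.H36.SF.SEL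
import Pool.Agent.H37.SF.SCD
import Pool.Agent.H37.SF.VLI
import Pool.Agent.H39.SF.SCV
import Pool.Agent.H42.SF.VLD
import Pool.Agent.H42.SF.VLQ
import Pool.Agent.H48.SF.CNI
import Pool.Agent.H48.SF.EVL
import Pool.Agent.H49.SFH.DC2
import Pool.Agent.H54.SRF.CN1
import Pool.Agent.H55.SF.CNS
import Pool.Agent.H56.SFH.DC4
import Pool.Agent.H62.HIL.Rows
import Pool.Agent.H64.SRF.HFA
import Pool.Agent.H68.SF.RST
import Pool.Agent.H68.SF.VQE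
import Pool.Agent.H72.SF.HFB
import Pool.Agent.H77.SFH.PEN
import Pool.Agent.H78.SF.CN3
import Pool.Agent.H78.SF.PRS
import Pool.Agent.H91.SFH.DC3
import Pool.Agent.H91.SFH.DCD
import Pool.Agent.H91.SFH.HDN
import Pool.Agent.H91.SFH.SF1
import Pool.Agent.H94.SF.PRT
import Pool.Agent.H94.SFH.CLS
import Pool.Agent.H94.SFH.SF2
import Pool.Agent.H3.SF.MAX
import Pool.Agent.H84.SF.AllLOX
import Pool.Agent.H84.SM.All

/-!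
# MP_70ba79_ag, THEOREM S: assembly of the boards sfh_modules and srf_modules
-/

set_option autoImplicit false

namespace Pool.Agent.H3.SF.All

open Pool.Agent.H3.SF

theorem a_CLS : T_CLS := Pool.Agent.H94.SFH.pf_CLS 

theorem a_SF1 : T_SF1 := Pool.Agent.H91.SFH.pf_SF1 

theorem a_NGD : T_NGD := Pool.Agent.H62.HIL.pfr_NGD 

theorem a_NDV : T_NDV := Pool.Agent.H35.SFH.pf_NDV 

theorem a_SF2 : T_SF2 := Pool.Agent.H94.SFH.pf_SF2 a_SF1 a_NGD a_NDV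

theorem a_VLA : T_VLA := Pool.Agent.H34.SF.pf_VLA 

theorem a_VLQ : T_VLQ := Pool.Agent.H42.SF.pf_VLQ a_VLA

theorem a_TWM : T_TWM := Pool.Agent.H19.SRF.pf_TWM 

theorem a_CN1 : T_CN1 := Pool.Agent.H54.SRF.pf_CN1 a_SF2 a_VLA a_VLQ a_TWM

theorem a_CNI : T_CNI := Pool.Agent.H48.SF.pf_CNI a_SF1 a_SF2

theorem a_CNS : T_CNS := Pool.Agent.H55.SF.pf_CNS a_SF1 a_SF2

theorem a_VRI : T_VRI := Pool.Agent.H62.HIL.pfr_VRI 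

theorem a_CN2 : T_CN2 := Pool.Agent.H19.SRF.pf_CN2 a_CNI a_CNS a_SF1 a_SF2 a_CLS a_VRI a_NGD

theorem a_GVM : T_GVM := Pool.Agent.H62.HIL.pfr_GVM 

theorem a_CN3 : T_CN3 := Pool.Agent.H78.SF.pf_CN3 a_CNS a_SF1 a_SF2 a_CLS a_VRI a_NGD a_GVM

theorem a_DC1 : Pool.Agent.H62.HIL.T_DC1 := Pool.Agent.H30.SFH.pf_DC1 a_SF1

theorem a_DC2 : Pool.Agent.H62.HIL.T_DC2 := Pool.Agent.H49.SFH.pf_DC2 a_SF1

theorem a_DC3 : Pool.Agent.H62.HIL.T_DC3 := Pool.Agent.H91.SFH.pf_DC3 a_SF1 a_NGD a_NDV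

theorem a_DC4 : Pool.Agent.H62.HIL.T_DC4 := Pool.Agent.H56.SFH.pf_DC4 a_SF1

theorem a_DCX : T_DCX := Pool.Agent.H62.HIL.pf_DCX a_DC1 a_DC2 a_DC3 a_DC4

theorem a_CON : T_CON := Pool.Agent.H10.SF.pf_CON a_CN1 a_CN2 a_CN3 a_DCX a_SF1 a_SF2

theorem a_DCD : T_DCD := Pool.Agent.H91.SFH.pf_DCD a_SF1

theorem a_MPH : T_MPH := Pool.Agent.H14.SFH.pf_MPH 

theorem a_HMP : T_HMP := Pool.Agent.H14.SFH.pf_HMP 

theorem a_DEN : T_DEN := Pool.Agent.H30.SFH.pf_DEN a_MPH a_HMP a_NGD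

theorem a_DSX : T_DSX := Pool.Agent.H10.SF.pf_DSX 

theorem a_EVL : T_EVL := Pool.Agent.H48.SF.pf_EVL 

theorem a_VLD : T_VLD := Pool.Agent.H42.SF.pf_VLD a_VLA a_SF1

theorem a_VLI : T_VLI := Pool.Agent.H37.SF.pf_VLI a_VLA a_SF1 a_NGD

theorem a_VPS : T_VPS := Pool.Agent.H19.SRF.pf_VPS a_VLA a_VLQ

theorem a_SCD : T_SCD := Pool.Agent.H37.SF.pf_SCD 

theorem a_SCV : T_SCV := Pool.Agent.H39.SF.pf_SCV 

theorem a_EVF : T_EVF := Pool.Agent.H21.SF.pf_EVF a_EVL a_VLA a_VLQ a_VLD a_VLI a_VPS a_SCD a_SCV a_SF1 a_SF2 a_TWM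

theorem a_HFA : T_HFA := Pool.Agent.H64.SRF.pf_HFA a_SF1

theorem a_HFB : T_HFB := Pool.Agent.H72.SF.pf_HFB a_HFA

theorem a_FAC : T_FAC := Pool.Agent.H1.SF.pf_FAC a_HFA a_HFB a_TWM

theorem a_GVR : T_GVR := Pool.Agent.H62.HIL.pfr_GVR 

theorem a_HDN : T_HDN := Pool.Agent.H91.SFH.pf_HDN a_MPH a_HMP

theorem a_LMH : T_LMH := Pool.Agent.H62.HIL.pfr_LMH 

theorem a_NRM : T_NRM := Pool.Agent.H30.SFH.pf_NRM 

theorem a_PEN : Pool.Agent.H62.HIL.T_PEN := Pool.Agent.H77.SFH.pf_PEN a_HMP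

theorem a_PRS : T_PRS := Pool.Agent.H78.SF.pf_PRS a_SF1 a_SF2 a_VLA

theorem a_RST : T_RST := Pool.Agent.H68.SF.pf_RST a_SF1 a_VLQ

theorem a_VQE : T_VQE := Pool.Agent.H68.SF.pf_VQE a_HDN a_SF1

theorem a_SEL : T_SEL := Pool.Agent.H36.SF.pf_SEL a_EVF a_RST a_VQE a_VLQ a_HFB a_TWM

theorem a_SAT : T_SAT := Pool.Agent.H62.HIL.pfr_SAT 

theorem a_STP : T_STP := Pool.Agent.H62.HIL.pfr_STP 

theorem a_PRT (hNEG : T_NEG) (hMLF : T_MLF) (hMLT : T_MLT) : T_PRT :=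
  Pool.Agent.H94.SF.pf_PRT hNEG hMLF hMLT a_CON a_SEL a_FAC a_VQE a_EVF a_VLQ a_VLA a_TWM a_HFB a_HDN a_SF1

theorem a_MAX (hNEG : T_NEG) (hMLF : T_MLF) (hMLT : T_MLT) (hFOS : T_FOS) : T_MAX :=
  pf_MAX (a_PRT hNEG hMLF hMLT) hFOS Pool.Agent.H84.SF.lox a_PRS a_DSX
    Pool.Agent.H84.SM.A.a_IMF Pool.Agent.H84.SM.A.a_CAN

end Pool.Agent.H3.SF.All
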