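import Pool.Agent.H3.SF.Targets
import Pool.Agent.H14.SQ.ORD
import Pool.Agent.H14.SQ.SEM

/-! Row BAD of the board spw_modules: the number of the bad `n`. -/

set_option autoImplicit false

namespace Pool.Agent.H3.SF

open Finset Filter Topology Pool.Agent.H99.SQ

theorem inv_P0 (Z b : ℕ) : Inv Z b (P0 Z b) := by
  refine ⟨pow_pos (Nat.lcmUpto_pos Z) _, dvd_rfl, fun q hq hd => ?_⟩
  have h1 : q ∣ Nat.lcmUpto Z := hq.dvd_of_dvd_pow hd
  have h2 : q ∣ Nat.factorial Z := h1.trans (Nat.lcmUpto_dvd_factorial Z)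
  exact (Nat.Prime.dvd_factorial hq).1 h2

theorem pf_BAD (hFPB : T_FPB) (hTREE : T_TREE) (hSMO : T_SMO) (hFIC : T_FIC) : T_BAD := by
  classical
  intro Z b x W K r A hb hK hKZ hB hW hA
  set B := P0 Z b * Z ^ r with hBdef
  have hZ : 32 ≤ Z := by omega
  have hP0 : 0 < P0 Z b := (inv_P0 Z b).1
  have hBpos : 0 < B := Nat.mul_pos hP0 (pow_pos (by omega) r)
  have hBL : B ≤ Nat.log 2 x := by
    refine le_trans ?_ hB
    calc B = B * 1 := by ring
      _ ≤ B * Z := Nat.mul_le_mul_left B (by omega)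
  have hx0 : x ≠ 0 := by
    rintro rfl
    rw [Nat.log_zero_right] at hBL
    omega
  have h2B : 2 ^ B ≤ x :=
    (Nat.pow_le_pow_right (by norm_num) hBL).trans (Nat.pow_log_le_self 2 hx0)
  set τ : ℝ := 2 * (32 / Z) ^ K with hτ
  have hZr : (0 : ℝ) < Z := by
    have : 0 < Z := by omega
    exact_mod_cast this
  have hτ0 : 0 ≤ τ := by positivity
  have hZV : Z ≤ Z ^ b := Nat.le_self_pow (by omega) Z
  have htree := hTREE Z (Z ^ b) x B τ (Inv Z b) (Fi x Z W) (by omega) hZV hτ0 h2B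
    (fun P h => h.1) (fun P p h1 h2 h3 h4 => hSMO Z b P p hb h1 h2 h3 h4)
    (fun P c A' h1 h2 h3 => hFIC Z b P x W K c A' hb h1 hK hKZ
      ((Nat.mul_le_mul_right Z h2).trans hB)
      ((Nat.mul_le_mul_right _ (Nat.pow_le_pow_right (by norm_num) h2)).trans hW) h3)
    r (P0 Z b)
  set Q := QQ (FP (P0 Z b)) with hQ
  have hQ0 : 0 < Q := (hFPB _ hP0).2.1
  have hQr : (0 : ℝ) < Q := by exact_mod_cast hQ0
  have hunion : A.card ≤ ∑ c ∈ range Q, (A.filter fun n => n ≡ c [MOD Q]).card := by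
    have h1 : A ⊆ (range Q).biUnion fun c => A.filter fun n => n ≡ c [MOD Q] := by
      intro n hn
      rw [Finset.mem_biUnion]
      refine ⟨n % Q, Finset.mem_range.2 (Nat.mod_lt _ hQ0), ?_⟩
      rw [Finset.mem_filter]
      exact ⟨hn, (Nat.mod_modEq n Q).symm⟩
    exact (Finset.card_le_card h1).trans Finset.card_biUnion_le
  have hsum : (A.card : ℝ) ≤ ∑ c ∈ range Q,
      ((2 * ((Z : ℝ) / ((Z ^ b : ℕ) : ℝ)) ^ r + r * τ) * x / Q) := by
    refine (Nat.cast_le.2 hunion).trans ?_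
    rw [Nat.cast_sum]
    refine Finset.sum_le_sum fun c _ => ?_
    refine htree c _ (inv_P0 Z b) le_rfl fun n hn => ?_
    rw [Finset.mem_filter] at hn
    exact ⟨(hA n hn.1).1, hn.2, (hA n hn.1).2⟩
  rw [Finset.sum_const, Finset.card_range, nsmul_eq_mul, Nat.cast_pow] at hsum
  refine hsum.trans (le_of_eq ?_)
  field_simp

end Pool.Agent.H3.SF
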