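import Pool.Agent.H3.SF.Targets
import Pool.Agent.H14.SQ.ORD
import Pool.Agent.H14.SQ.SEM

/-! Row DET of the board spw_modules: paths of uncovered numbers with few representations. -/

set_option autoImplicit false

namespace Pool.Agent.H3.SF

open Finset Filter Topology Pool.Agent.H99.SQ

theorem RR_fin (n : ℕ) : (RR n).Finite :=
  (Set.finite_Iio n).subset fun _ hl => lt_trans Nat.lt_two_pow_self hl.1

/-- many exponents in a class: the first element of each block -/
theorem class_card (P M a : ℕ) (hP : 0 < P) :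
    M / P ≤ ((Icc 1 M).filter fun l => l ≡ a [MOD P]).card := by
  have h : (range (M / P)).card ≤ ((Icc 1 M).filter fun l => l ≡ a [MOD P]).card := by
    have key : ∀ k : ℕ, ∃ l, P * k + 1 ≤ l ∧ l ≤ P * k + P ∧ l ≡ a [MOD P] := by
      intro k
      rcases Nat.eq_zero_or_pos (a % P) with h0 | h0
      · refine ⟨P * k + P, by omega, le_refl _, ?_⟩
        unfold Nat.ModEq
        rw [h0, Nat.add_mod_right, Nat.mul_mod_right]
      · have h1 : a % P < P := Nat.mod_lt _ hP
        refine ⟨P * k + a % P, by omega, by omega, ?_⟩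
        unfold Nat.ModEq
        rw [Nat.mul_add_mod, Nat.mod_mod]
    choose f h1 h2 h3 using key
    refine Finset.card_le_card_of_injOn f ?_ ?_
    · intro k hk
      rw [Finset.mem_coe, Finset.mem_range] at hk
      rw [Finset.mem_coe, Finset.mem_filter, Finset.mem_Icc]
      have h4 : P * (k + 1) ≤ P * (M / P) := Nat.mul_le_mul_left P hk
      have h5 : P * (M / P) ≤ M := Nat.mul_div_le M P
      have h6 : P * (k + 1) = P * k + P := by ring
      exact ⟨⟨by have := h1 k; omega, by have := h2 k; omega⟩, h3 k⟩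
    · intro k _ k' _ hkk
      by_contra hne
      rcases Nat.lt_or_gt_of_ne hne with hlt | hlt
      · have h6 : P * (k + 1) ≤ P * k' := Nat.mul_le_mul_left P hlt
        have h7 : P * (k + 1) = P * k + P := by ring
        have := h2 k
        have := h1 k'
        omega
      · have h6 : P * (k' + 1) ≤ P * k := Nat.mul_le_mul_left P hlt
        have h7 : P * (k' + 1) = P * k' + P := by ring
        have := h2 k'
        have := h1 k
        omega
  rwa [Finset.card_range] at h

theorem pf_DET (hFPB : T_FPB) (hLO : T_LO) : T_DET := by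
  classical
  have hORD := Pool.Agent.H14.SQ.pf_ORD
  obtain ⟨s1, _, s3, _⟩ := Pool.Agent.H14.SQ.pf_SEM
  intro x n T W r
  induction r with
  | zero =>
    intro P _ _ _ _ _ _ _ _ _
    exact trivial
  | succ r ih =>
    intro P hodd hn1 hnx hlog hT hP hcov hbig hsz
    have hncov : ¬ Cov (FP P) n := hcov P dvd_rfl hP (by
      rw [pow_succ]
      have h1 : 1 ≤ T ^ r := Nat.one_le_pow _ _ hT
      calc P * T = P * (1 * T) := by ring
        _ ≤ P * (T ^ r * T) := Nat.mul_le_mul_left P (Nat.mul_le_mul_right T h1))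
    change (∃ p, OP p ∧ ¬ mm p ∣ P ∧ Nat.lcm P (mm p) ≤ T * P ∧
      (∃ l, l ≡ lo P n [MOD P] ∧ Kill p n l) ∧ Bad T (Fi x T W) r (Nat.lcm P (mm p)) n) ∨
      Fi x T W P n
    by_cases hex : ∃ p, OP p ∧ ¬ mm p ∣ P ∧ Nat.lcm P (mm p) ≤ T * P ∧
      (∃ l, l ≡ lo P n [MOD P] ∧ Kill p n l)
    · left
      obtain ⟨p, hp, hpd, hlcm, hk⟩ := hex
      have hPT : Nat.lcm P (mm p) * T ^ r ≤ P * T ^ (r + 1) := by
        calc Nat.lcm P (mm p) * T ^ r ≤ T * P * T ^ r := Nat.mul_le_mul_right _ hlcm
          _ = P * T ^ (r + 1) := by ring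
      refine ⟨p, hp, hpd, hlcm, hk, ih (Nat.lcm P (mm p)) hodd hn1 hnx hlog hT
        (Nat.lcm_pos hP (hORD p hp).1) (fun P' h1 h2 h3 => ?_) hbig ?_⟩
      · exact hcov P' ((Nat.dvd_lcm_left P (mm p)).trans h1) h2 (h3.trans hPT)
      · refine le_trans ?_ hsz
        exact Nat.mul_le_mul_right _ (Nat.mul_le_mul_left 4 hPT)
    · right
      have hex' : ∀ p, OP p → ¬ mm p ∣ P → ∀ l, l ≡ lo P n [MOD P] → Kill p n l →
          T * P < Nat.lcm P (mm p) := by
        intro p hp hpd l hl hk
        by_contra hcon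
        exact hex ⟨p, hp, hpd, not_lt.1 hcon, l, hl, hk⟩
      set S : Finset ℕ := (Icc 1 (Nat.log 2 n)).filter fun l =>
        l ≡ lo P n [MOD P] ∧ l ∉ RR n with hS
      refine ⟨S, fun l hl => ?_, ?_⟩
      · rw [hS, Finset.mem_filter, Finset.mem_Icc] at hl
        obtain ⟨⟨l1, l2⟩, l3, l4⟩ := hl
        have hle : 2 ^ l ≤ n :=
          (Nat.pow_le_pow_right (by norm_num) l2).trans (Nat.pow_log_le_self 2 (by omega))
        have hlt : 2 ^ l < n := by
          refine lt_of_le_of_ne hle fun he => ?_
          rw [← he] at hodd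
          have : Even (2 ^ l) := (Nat.even_pow.2 ⟨even_two, by omega⟩)
          exact (Nat.not_even_iff_odd.2 hodd) this
        obtain ⟨p, hp, _, hk⟩ := s3 n l hodd l1 hlt l4
        have hpd : ¬ mm p ∣ P := by
          intro hd
          exact (hLO P n hP).2 hncov l l3 p (((hFPB P hP).1 p).2 ⟨hp, hd⟩) hk
        exact ⟨l2.trans (Nat.log_mono_right hnx), l3, p, hp, hpd, hex' p hp hpd l l3 hk,
          hbig l p hlt hp.1 ((s1 p n l hle).1 hk), hk⟩
      · have hc1 := class_card P (Nat.log 2 n) (lo P n) hP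
        have hc2 : ((Icc 1 (Nat.log 2 n)).filter fun l => l ≡ lo P n [MOD P]).card ≤
            S.card + rep n := by
          have h1 : ((Icc 1 (Nat.log 2 n)).filter fun l => l ≡ lo P n [MOD P]) ⊆
              S ∪ (RR_fin n).toFinset := by
            intro l hl
            rw [Finset.mem_filter] at hl
            rw [Finset.mem_union, hS, Finset.mem_filter, Set.Finite.mem_toFinset]
            by_cases hR : l ∈ RR n
            · exact Or.inr hR
            · exact Or.inl ⟨hl.1, hl.2, hR⟩
          have h2 := Finset.card_le_card h1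
          have h3 := Finset.card_union_le S (RR_fin n).toFinset
          have h4 : (RR_fin n).toFinset.card = rep n := by
            unfold rep
            rw [Set.ncard_eq_toFinset_card _ (RR_fin n)]
          omega
        have hT1 : 1 ≤ T ^ (r + 1) := Nat.one_le_pow _ _ hT
        have hsz' : 4 * P * (rep n + 1) ≤ Nat.log 2 x := by
          refine le_trans ?_ hsz
          refine Nat.mul_le_mul_right _ ?_
          calc 4 * P = 4 * (P * 1) := by ring
            _ ≤ 4 * (P * T ^ (r + 1)) := Nat.mul_le_mul_left 4 (Nat.mul_le_mul_left P hT1)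
        have h5 : Nat.log 2 n < P * (Nat.log 2 n / P + 1) := Nat.lt_mul_div_succ _ hP
        have h6 : Nat.log 2 n / P ≤ S.card + rep n := hc1.trans hc2
        have h7 : P * (Nat.log 2 n / P + 1) ≤ P * (S.card + rep n + 1) :=
          Nat.mul_le_mul_left P (by omega)
        have h8 : P * (S.card + rep n + 1) = P * S.card + P * (rep n + 1) := by ring
        have h9 : 8 * P * S.card = 8 * (P * S.card) := by ring
        have h10 : 4 * P * (rep n + 1) = 4 * (P * (rep n + 1)) := by ring
        rw [h9]
        rw [h10] at hsz'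
        omega

end Pool.Agent.H3.SF
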