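import Pool.Agent.H3.SF.Targets
import Pool.Agent.H14.SQ.ORD
import Pool.Agent.H14.SQ.SEM

/-! Row FIC of the board spw_modules: counting for the stopping condition. -/

set_option autoImplicit false

namespace Pool.Agent.H3.SF

open Finset Filter Topology Pool.Agent.H99.SQ

/-- few elements in a class -/
theorem class_card_le (P L a : ℕ) :
    ((range (L + 1)).filter fun l => l ≡ a [MOD P]).card ≤ L / P + 1 := by
  have h : ((range (L + 1)).filter fun l => l ≡ a [MOD P]).card ≤ (range (L / P + 1)).card := by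
    refine Finset.card_le_card_of_injOn (fun l => l / P) ?_ ?_
    · intro l hl
      rw [Finset.mem_coe, Finset.mem_filter, Finset.mem_range] at hl
      rw [Finset.mem_coe, Finset.mem_range]
      have : l / P ≤ L / P := Nat.div_le_div_right (by omega)
      change l / P < L / P + 1
      omega
    · intro l hl l' hl' he
      rw [Finset.mem_coe, Finset.mem_filter] at hl hl'
      have h1 : l % P = l' % P := hl.2.trans hl'.2.symm
      have h2 : l / P = l' / P := he
      rw [← Nat.div_add_mod l P, ← Nat.div_add_mod l' P, h1, h2]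
  rwa [Finset.card_range] at h

theorem pf_FIC (hFPB : T_FPB) (hLO : T_LO) (hCLK : T_CLK) (hTUP : T_TUP) (hSMZ : T_SMZ) :
    T_FIC := by
  classical
  intro Z b P x W K c A hb hInv hK hKZ hPZ hx hA
  have hP : 0 < P := hInv.1
  obtain ⟨f1, f2, f3, _, f5, _, _⟩ := hFPB P hP
  set L := Nat.log 2 x with hL
  set Q := QQ (FP P) with hQ
  have hZ : 32 ≤ Z := by omega
  have hZP : 32 ≤ P * Z := by nlinarith
  have hL0 : 0 < L := by omega
  set D : Finset ℕ := (range (L + 1)).filter fun l => l ≡ lo P c [MOD P] with hD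
  set G : Finset ℕ := (range (W + 1)).filter fun p => OP p ∧ ¬ mm p ∣ P with hG
  have hlo : ∀ n ∈ A, lo P n = lo P c := fun n hn => (hLO P n hP).1 c (hA n hn).2.1
  -- the data of `Fi`
  have hS : ∀ n : ℕ, ∃ S : Finset (ℕ × ℕ), n ∈ A →
      (∀ q ∈ S, q.1 ∈ D ∧ q.2 ∈ G ∧ Kill q.2 n q.1 ∧ Z * P < Nat.lcm P (mm q.2)) ∧
      (∀ q ∈ S, ∀ q' ∈ S, q.1 = q'.1 → q = q') ∧ L ≤ 8 * P * S.card := by
    intro n
    by_cases hn : n ∈ A
    · obtain ⟨S, hS1, hS2⟩ := (hA n hn).2.2
      have hch : ∀ l : ℕ, ∃ p : ℕ, l ∈ S → OP p ∧ ¬ mm p ∣ P ∧ Z * P < Nat.lcm P (mm p) ∧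
          p ≤ W ∧ Kill p n l := by
        intro l
        by_cases hl : l ∈ S
        · obtain ⟨_, _, p, hp⟩ := hS1 l hl
          exact ⟨p, fun _ => hp⟩
        · exact ⟨0, fun h => absurd h hl⟩
      choose p hp using hch
      refine ⟨S.image fun l => (l, p l), fun _ => ⟨?_, ?_, ?_⟩⟩
      · intro q hq
        obtain ⟨l, hl, rfl⟩ := Finset.mem_image.1 hq
        obtain ⟨a1, a2, a3, a4, a5⟩ := hp l hl
        obtain ⟨b1, b2, _⟩ := hS1 l hl
        refine ⟨?_, ?_, a5, a3⟩
        · rw [hD, Finset.mem_filter, Finset.mem_range]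
          refine ⟨by omega, ?_⟩
          rw [← hlo n hn]
          exact b2
        · rw [hG, Finset.mem_filter, Finset.mem_range]
          exact ⟨by change p l < W + 1; omega, a1, a2⟩
      · intro q hq q' hq' he
        obtain ⟨l, hl, rfl⟩ := Finset.mem_image.1 hq
        obtain ⟨l', hl', rfl⟩ := Finset.mem_image.1 hq'
        have : l = l' := he
        subst this
        rfl
      · rw [Finset.card_image_of_injective S (fun a b hab => (Prod.mk.inj hab).1)]
        exact hS2
    · exact ⟨∅, fun h => absurd h hn⟩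
  choose S hS' using hS
  set m : ℕ := (L + 1) / (Z * P + 1) + 1 with hm
  set s : ℝ := (L : ℝ) / (8 * P) with hs
  have hPr : (0 : ℝ) < P := by exact_mod_cast hP
  have hZr : (0 : ℝ) < Z := by
    have : 0 < Z := by omega
    exact_mod_cast this
  have hLr : (0 : ℝ) < L := by exact_mod_cast hL0
  have hKr : (32 : ℝ) * K ≤ Z := by exact_mod_cast hKZ
  have hPZr : (P : ℝ) * Z ≤ L := by exact_mod_cast hPZ
  have hfib : ∀ n ∈ A, ∀ p, ((S n).filter fun q => q.2 = p).card ≤ m := by
    intro n hn p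
    rcases Finset.eq_empty_or_nonempty ((S n).filter fun q => q.2 = p) with h0 | h0
    · rw [h0, Finset.card_empty]
      exact Nat.zero_le _
    · obtain ⟨q0, hq0⟩ := h0
      rw [Finset.mem_filter] at hq0
      obtain ⟨hq1, hq2⟩ := hq0
      obtain ⟨_, a2, _, a4⟩ := (hS' n hn).1 q0 hq1
      rw [hq2] at a2 a4
      rw [hG, Finset.mem_filter] at a2
      have hinj : ((S n).filter fun q => q.2 = p).card =
          (((S n).filter fun q => q.2 = p).image Prod.fst).card := by
        refine (Finset.card_image_of_injOn ?_).symm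
        intro q hq q' hq' he
        rw [Finset.mem_coe, Finset.mem_filter] at hq hq'
        exact (hS' n hn).2.1 q hq.1 q' hq'.1 he
      rw [hinj]
      have h1 := hCLK p P (lo P c) n (L + 1) (((S n).filter fun q => q.2 = p).image Prod.fst)
        a2.2.1 hP (by
          intro l hl
          obtain ⟨q, hq, rfl⟩ := Finset.mem_image.1 hl
          rw [Finset.mem_filter] at hq
          obtain ⟨b1, _, b3, _⟩ := (hS' n hn).1 q hq.1
          rw [hD, Finset.mem_filter, Finset.mem_range] at b1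
          rw [hq.2] at b3
          exact ⟨b1.1, b1.2, b3⟩)
      refine h1.trans ?_
      have h2 : (L + 1) / Nat.lcm P (mm p) ≤ (L + 1) / (Z * P + 1) :=
        Nat.div_le_div_left (by omega) (by omega)
      omega
  have hmr : (m : ℝ) ≤ 2 * L / (Z * P) := by
    have h1 : (((L + 1) / (Z * P + 1) : ℕ) : ℝ) ≤ ((L + 1 : ℕ) : ℝ) / ((Z * P + 1 : ℕ) : ℝ) :=
      Nat.cast_div_le
    have h2 : ((L + 1 : ℕ) : ℝ) / ((Z * P + 1 : ℕ) : ℝ) ≤ (L : ℝ) / (Z * P) := by
      push_cast
      rw [div_le_div_iff₀ (by positivity) (by positivity)]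
      nlinarith
    have h3 : (1 : ℝ) ≤ L / (Z * P) := by
      rw [le_div_iff₀ (by positivity)]
      nlinarith
    have h4 : 2 * (L : ℝ) / (Z * P) = L / (Z * P) + L / (Z * P) := by ring
    rw [hm, h4]
    push_cast at h1 h2 ⊢
    linarith
  have hKm : 2 * K * m ≤ s := by
    have h1 : 2 * (K : ℝ) * m ≤ 2 * K * (2 * L / (Z * P)) :=
      mul_le_mul_of_nonneg_left hmr (by positivity)
    refine h1.trans ?_
    rw [hs, ← mul_div_assoc, div_le_div_iff₀ (by positivity) (by positivity)]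
    have h2 : 2 * (K : ℝ) * (2 * L) * (8 * P) = (32 * K) * (L * P) := by ring
    have h3 : (L : ℝ) * (Z * P) = Z * (L * P) := by ring
    rw [h2, h3]
    exact mul_le_mul_of_nonneg_right hKr (by positivity)
  have hx' : Q * W ^ (2 * K) ≤ x := (Nat.mul_le_mul_right _ f3).trans hx
  have hmain := hTUP x Q c W Z K m s D G A S (by omega) f2 hx'
    (by
      intro p hp
      rw [hG, Finset.mem_filter, Finset.mem_range] at hp
      have h1 := hSMZ Z b P p hb hInv.2.1 hp.2.1 hp.2.2
      exact ⟨hp.2.1, h1.1, by omega, f5 p hp.2.1 hp.2.2⟩)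
    (fun n hn => ⟨(hA n hn).1, (hA n hn).2.1⟩)
    (fun n hn q hq => by
      obtain ⟨a1, a2, a3, _⟩ := (hS' n hn).1 q hq
      exact ⟨a1, a2, a3⟩)
    hfib
    (fun n hn => by
      rw [hs, div_le_iff₀ (by positivity)]
      have h1 : (L : ℝ) ≤ 8 * P * (S n).card := by exact_mod_cast (hS' n hn).2.2
      linarith)
    hKm
  have hDr : (D.card : ℝ) ≤ 2 * L / P := by
    have h1 : D.card ≤ L / P + 1 := class_card_le P L (lo P c)
    have h2 : ((L / P : ℕ) : ℝ) ≤ (L : ℝ) / P := Nat.cast_div_le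
    have h3 : (1 : ℝ) ≤ L / P := by
      rw [le_div_iff₀ hPr]
      have : (1 : ℝ) ≤ Z := by
        have : 1 ≤ Z := by omega
        exact_mod_cast this
      nlinarith
    have h4 : (D.card : ℝ) ≤ ((L / P : ℕ) : ℝ) + 1 := by exact_mod_cast h1
    have h5 : 2 * (L : ℝ) / P = L / P + L / P := by ring
    linarith
  have hs0 : 0 < s / 2 := by positivity
  have hQr : (0 : ℝ) < Q := by exact_mod_cast f2
  have h1 : (A.card : ℝ) * (s / 2) ^ K ≤ (2 * L / P) ^ K * (2 * x / Q) * (1 / Z) ^ K := by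
    refine hmain.trans ?_
    gcongr
  have h2 : (2 * (L : ℝ) / P) ^ K * (2 * x / Q) * (1 / Z) ^ K =
      (2 * (32 / Z) ^ K * x / Q) * (s / 2) ^ K := by
    have h3 : (2 * (L : ℝ) / P) * (1 / Z) = (32 / Z) * (s / 2) := by
      rw [hs]
      field_simp
      ring
    have h4 : (2 * (L : ℝ) / P) ^ K * (1 / Z) ^ K = (32 / Z) ^ K * (s / 2) ^ K := by
      rw [← mul_pow, h3, mul_pow]
    calc (2 * (L : ℝ) / P) ^ K * (2 * x / Q) * (1 / Z) ^ K
        = ((2 * (L : ℝ) / P) ^ K * (1 / Z) ^ K) * (2 * x / Q) := by ring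
      _ = ((32 / Z) ^ K * (s / 2) ^ K) * (2 * x / Q) := by rw [h4]
      _ = _ := by ring
  rw [h2] at h1
  exact le_of_mul_le_mul_right h1 (pow_pos hs0 K)

end Pool.Agent.H3.SF
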