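import Pool.Agent.H3.SF.Fin2

/-! The sharp constant for almost all numbers (board spw_modules). -/

set_option autoImplicit false

namespace Pool.Agent.H3.SF

open Finset Filter Topology Pool.Agent.H99.SQ MeasureTheory

/-- the densities of the exponents not killed by a finite set of odd primes, for odd `n` -/
def localDensities : Set ℝ := {d : ℝ | ∃ (n : ℕ) (F : Finset ℕ), Odd n ∧
  (∀ p ∈ F, p.Prime ∧ p ≠ 2) ∧ HasDensity {l : ℕ | ∀ p ∈ F, ¬ (p : ℤ) ^ 2 ∣ (n : ℤ) - 2 ^ l} d}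

theorem kill_set (F : Finset ℕ) (n : ℕ) :
    {l : ℕ | ∀ p ∈ F, ¬ (p : ℤ) ^ 2 ∣ (n : ℤ) - 2 ^ l} = {l : ℕ | ∀ p ∈ F, ¬ Kill p n l} := by
  ext l
  simp only [Set.mem_ofPred_eq, kill_iff]

theorem UU_mem (F : Finset ℕ) (n : ℕ) (hn : Odd n) (hF : ∀ p ∈ F, OP p) :
    UU F n ∈ localDensities := by
  refine ⟨n, F, hn, hF, ?_⟩
  rw [kill_set]
  exact density_UU F n hF

theorem mem_eq_UU (d : ℝ) (hd : d ∈ localDensities) :
    ∃ (n : ℕ) (F : Finset ℕ), Odd n ∧ (∀ p ∈ F, OP p) ∧ d = UU F n := by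
  obtain ⟨n, F, hn, hF, h⟩ := hd
  refine ⟨n, F, hn, hF, ?_⟩
  rw [kill_set] at h
  exact tendsto_nhds_unique h (density_UU F n hF)

theorem localDensities_nonneg (hUUF : T_UUF) (d : ℝ) (hd : d ∈ localDensities) : 0 ≤ d := by
  obtain ⟨n, F, _, hF, rfl⟩ := mem_eq_UU d hd
  exact (hUUF F n hF).1.1

theorem rep_le_UC (F : Finset ℕ) (n : ℕ) (hF : ∀ p ∈ F, OP p) :
    rep n ≤ UC F n (Nat.log 2 n + 1) := by
  classical
  unfold rep UC
  rw [← Set.ncard_coe_finset]
  refine Set.ncard_le_ncard ?_ (Finset.finite_toSet _)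
  intro l hl
  rw [Finset.mem_coe, Finset.mem_filter, Finset.mem_range]
  have h1 : 2 ^ l < n := hl.1
  have h2 : n ≠ 0 := by
    have := Nat.two_pow_pos l
    omega
  refine ⟨?_, fun p hp hk => Pool.Agent.H14.SQ.pf_SEM.2.2.2 n l p (hF p hp) hk hl⟩
  have h3 : l ≤ Nat.log 2 n := Nat.le_log_of_pow_le (by norm_num) h1.le
  omega

theorem final_S (hUUF : T_UUF) (hM3 : T_M3) :
    (∀ A ε : ℝ, 0 < A → 0 < ε → ∃ C : ℝ, ∀ x : ℕ, 2 ≤ x →
      ({n : ℕ | n ≤ x ∧ Odd n ∧ 1 < n ∧
        (reps n : ℝ) / (Real.log n / Real.log 2) < sInf localDensities - ε}.ncard : ℝ) ≤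
        C * x / Real.log x ^ A) ∧
    ∀ ε : ℝ, 0 < ε → ∃ a m x₀ : ℕ, 0 < m ∧ ∀ n : ℕ, x₀ ≤ n → n ≡ a [MOD m] → Odd n ∧
      (reps n : ℝ) / (Real.log n / Real.log 2) < sInf localDensities + ε := by
  have hne : localDensities.Nonempty := ⟨_, UU_mem ∅ 1 odd_one (by simp)⟩
  have hbdd : BddBelow localDensities := ⟨0, fun d hd => localDensities_nonneg hUUF d hd⟩
  constructor
  · intro A ε hA hε
    obtain ⟨C, hC⟩ := hM3 A ε hA hε
    refine ⟨C, fun x hx => ?_⟩
    set S : Set ℕ := {n : ℕ | n ≤ x ∧ Odd n ∧ 1 < n ∧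
        (reps n : ℝ) / (Real.log n / Real.log 2) < sInf localDensities - ε} with hS
    have hf : S.Finite := (Set.finite_Iic x).subset fun _ h => h.1
    have h2 := hC x hx hf.toFinset (fun n hn => by
      rw [Set.Finite.mem_toFinset] at hn
      obtain ⟨a1, a2, a3, a4⟩ := hn
      refine ⟨a1, a2, a3, fun F hF => ?_⟩
      have h3 : sInf localDensities ≤ UU F n :=
        csInf_le hbdd (UU_mem F n a2 fun p hp => ((hF p).1 hp).1)
      rw [reps_eq] at a4
      rw [abs_sub_comm]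
      refine lt_of_lt_of_le ?_ (le_abs_self _)
      linarith)
    rwa [← Set.ncard_eq_toFinset_card _ hf] at h2
  · intro ε hε
    obtain ⟨d, hd, hdlt⟩ := exists_lt_of_csInf_lt hne
      (show sInf localDensities < sInf localDensities + ε / 2 by linarith)
    obtain ⟨a, F, ha, hF, rfl⟩ := mem_eq_UU d hd
    have hQ : 0 < QQ F := Finset.prod_pos fun p hp => pow_pos (hF p hp).1.pos 2
    have hM : 0 < MP F := MP_pos F hF
    -- for large `n` the error is small
    have hlim : Tendsto (fun n : ℕ => ((MP F : ℝ) + 1) / (Real.log n / Real.log 2)) atTop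
        (𝓝 0) := by
      refine Tendsto.div_atTop tendsto_const_nhds ?_
      refine Tendsto.atTop_div_const (Real.log_pos (by norm_num)) ?_
      exact Real.tendsto_log_atTop.comp tendsto_natCast_atTop_atTop
    have hev : ∀ᶠ n : ℕ in atTop, ((MP F : ℝ) + 1) / (Real.log n / Real.log 2) < ε / 2 :=
      hlim.eventually (gt_mem_nhds (by linarith))
    obtain ⟨x₁, hx₁⟩ := eventually_atTop.1 hev
    refine ⟨a, 2 * QQ F, max x₁ 3, by omega, fun n hn hmod => ?_⟩
    have hn1 : x₁ ≤ n := (le_max_left _ _).trans hn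
    have hn3 : 3 ≤ n := (le_max_right _ _).trans hn
    have hodd : Odd n := by
      have h4 : n ≡ a [MOD 2] := hmod.of_mul_right _
      rw [Nat.odd_iff] at ha ⊢
      rw [← ha]
      exact h4
    refine ⟨hodd, ?_⟩
    have hUU : UU F n = UU F a := by
      have h5 : a ≡ n [MOD QQ F] := (hmod.of_mul_left 2).symm
      exact ((hUUF F a hF).2.2.1 n h5).symm
    have h6 := (hUUF F n hF).2.1 (MP F) (Nat.log 2 n + 1) hM
      (fun p hp => Finset.dvd_prod_of_mem (fun p => mm p) hp)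
    have h7 := rep_le_UC F n hF
    have h8 : (rep n : ℝ) ≤ UC F n (Nat.log 2 n + 1) := by exact_mod_cast h7
    have h9 := (abs_le.1 h6).2
    push_cast at h9
    set lam : ℝ := Real.log n / Real.log 2 with hlam
    have hlog2 : 0 < Real.log 2 := Real.log_pos (by norm_num)
    have hnr : (3 : ℝ) ≤ n := by exact_mod_cast hn3
    have hlam0 : 0 < lam := div_pos (Real.log_pos (by linarith)) hlog2
    have hLlam : (Nat.log 2 n : ℝ) ≤ lam := by
      rw [hlam, le_div_iff₀ hlog2, ← Real.log_pow]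
      refine Real.log_le_log (by positivity) ?_
      exact_mod_cast Nat.pow_log_le_self 2 (by omega)
    have hU1 := (hUUF F n hF).1
    have h10 : (rep n : ℝ) ≤ UU F n * lam + (MP F + 1) := by nlinarith
    have h11 : (rep n : ℝ) / lam ≤ UU F n + (MP F + 1) / lam := by
      rw [div_le_iff₀ hlam0, add_mul, div_mul_cancel₀ _ hlam0.ne']
      exact h10
    have h12 := hx₁ n hn1
    rw [← hlam] at h12
    rw [reps_eq]
    rw [hUU] at h11
    linarith

end Pool.Agent.H3.SF
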