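import Pool.Agent.H3.SF.Targets
import Pool.Agent.H14.SQ.ORD
import Pool.Agent.H14.SQ.SEM

/-! Row M1 of the board spw_modules: the strong dichotomy. -/

set_option autoImplicit false

namespace Pool.Agent.H3.SF

open Finset Filter Topology Pool.Agent.H99.SQ

theorem pf_M1 (hFPB : T_FPB) (hDET : T_DET) (hBAD : T_BAD) (hSML : T_SML) (hPA1 : T_PA1) :
    T_M1 := by
  classical
  intro A ε hA hε hε1
  obtain ⟨b, hb, x₀, hx₀3, hpar⟩ := hPA1 A ε hA hε hε1
  set C₀ : ℝ := 2 * (Real.log x₀) ^ A with hC₀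
  have hx₀r : (3 : ℝ) ≤ x₀ := by exact_mod_cast hx₀3
  have hlogx₀ : 0 < Real.log x₀ := Real.log_pos (by linarith)
  have hC₀0 : 0 ≤ C₀ := by positivity
  refine ⟨4 + C₀, fun x hx S hS => ?_⟩
  have hx1 : (1 : ℝ) < x := by
    have : 1 < x := by omega
    exact_mod_cast this
  have hx0 : (0 : ℝ) < x := by linarith
  have hlog : 0 < Real.log x := Real.log_pos hx1
  have hlogA : 0 < Real.log x ^ A := Real.rpow_pos_of_pos hlog A
  rcases lt_or_ge x x₀ with hlt | hge
  · -- small `x`
    have h1 : S.card ≤ x + 1 := by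
      have h2 : S ⊆ range (x + 1) := fun n hn => Finset.mem_range.2 (by
        have := (hS n hn).1
        omega)
      have h3 := Finset.card_le_card h2
      rwa [Finset.card_range] at h3
    have h2 : (S.card : ℝ) ≤ 2 * x := by
      have h3 : (S.card : ℝ) ≤ x + 1 := by exact_mod_cast h1
      linarith
    have h3 : Real.log x ^ A ≤ Real.log x₀ ^ A := by
      refine Real.rpow_le_rpow hlog.le ?_ hA.le
      refine Real.log_le_log hx0 ?_
      exact_mod_cast hlt.le
    rw [le_div_iff₀ hlogA]
    calc (S.card : ℝ) * Real.log x ^ A ≤ 2 * x * Real.log x₀ ^ A := by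
          refine mul_le_mul h2 h3 hlogA.le (by positivity)
      _ = C₀ * x := by rw [hC₀]; ring
      _ ≤ (4 + C₀) * x := by nlinarith
  · obtain ⟨Z, r, K, W, hK, hKZ, hW, p1, p2, p3, p4, p5, p6, p7⟩ := hpar x hge
    set U : ℝ := 1 / Real.log x ^ A with hU
    have hU0 : 0 < U := by positivity
    set bad : ℕ → Prop := fun n => 2 * Nat.log 2 n < Nat.log 2 x ∨
      ∃ l p, 2 ^ l < n ∧ p.Prime ∧ p ^ 2 ∣ n - 2 ^ l ∧ W < p with hbad
    have hsplit : S.card ≤ (S.filter bad).card + (S.filter fun n => ¬ bad n).card := by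
      rw [Finset.card_filter_add_card_filter_not]
    have h1 : ((S.filter bad).card : ℝ) ≤ 2 * U * x := by
      have h2 := hSML x W (S.filter bad) (by omega) hW (fun n hn => by
        rw [Finset.mem_filter] at hn
        exact ⟨(hS n hn.1).1, hn.2⟩)
      have h3 : ((Nat.log 2 x : ℝ) + 1) * ((x : ℝ) / W) ≤ U * x := by
        have h4 : ((Nat.log 2 x + 1 : ℕ) : ℝ) / W ≤ U := p6
        push_cast at h4
        calc ((Nat.log 2 x : ℝ) + 1) * ((x : ℝ) / W) = ((Nat.log 2 x : ℝ) + 1) / W * x := by ring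
          _ ≤ U * x := mul_le_mul_of_nonneg_right h4 hx0.le
      have h5 : 4 * Real.sqrt x ≤ U * x := by
        refine p7.trans (le_of_eq ?_)
        rw [hU]
        ring
      linarith
    have h2 : ((S.filter fun n => ¬ bad n).card : ℝ) ≤ 2 * U * x := by
      have h3 := hBAD Z b x W K r (S.filter fun n => ¬ bad n) hb hK hKZ p1 p3 (fun n hn => by
        rw [Finset.mem_filter] at hn
        obtain ⟨hn1, hn2⟩ := hn
        obtain ⟨a1, a2, a3, a4, a5⟩ := hS n hn1
        rw [hbad] at hn2
        simp only [not_or, not_lt, not_exists, not_and] at hn2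
        obtain ⟨c1, c2⟩ := hn2
        refine ⟨a1, hDET x n Z W r (P0 Z b) a2 a3 a1 c1 (by omega) ?_ ?_ ?_ ?_⟩
        · exact pow_pos (Nat.lcmUpto_pos Z) _
        · intro P' _ h5 _ hc
          exact a4 (FP P') (fun p hp => (((hFPB P' h5).1 p).1 hp).1) hc
        · intro l p e1 e2 e3
          exact c2 l p e1 e2 e3
        · have h6 : ((rep n : ℝ) + 1) ≤ Real.log x ^ (1 - ε) + 1 := by
            have h7 : Real.log n ^ (1 - ε) ≤ Real.log x ^ (1 - ε) := by
              have hn0 : (1 : ℝ) < n := by exact_mod_cast a3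
              refine Real.rpow_le_rpow (Real.log_pos hn0).le ?_ (by linarith)
              exact Real.log_le_log (by linarith) (by exact_mod_cast a1)
            linarith
          have h8 : (4 : ℝ) * (P0 Z b * Z ^ r : ℕ) * ((rep n : ℝ) + 1) ≤ Nat.log 2 x :=
            (mul_le_mul_of_nonneg_left h6 (by positivity)).trans p2
          exact_mod_cast h8)
      refine h3.trans ?_
      refine mul_le_mul_of_nonneg_right ?_ hx0.le
      linarith
    have h3 : (S.card : ℝ) ≤ 4 * U * x := by
      have h4 : (S.card : ℝ) ≤ ((S.filter bad).card : ℝ) +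
          ((S.filter fun n => ¬ bad n).card : ℝ) := by exact_mod_cast hsplit
      linarith
    refine h3.trans ?_
    have h4 : 4 * U * (x : ℝ) = 4 * x / Real.log x ^ A := by
      rw [hU]
      ring
    rw [h4]
    refine div_le_div_of_nonneg_right ?_ hlogA.le
    nlinarith

end Pool.Agent.H3.SF
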