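import Pool.Agent.H3.SF.Targets
import Pool.Agent.H14.SQ.ORD
import Pool.Agent.H14.SQ.SEM

/-!
# MP_634266_nt, row ZC: no mass close to zero
-/

set_option autoImplicit false

open Finset Filter Topology Pool.Agent.H99.SQ Pool.Agent.H3.SF

namespace Pool.Agent.H3.SF.ZCf

theorem kill_congr {p n n' l : ℕ} (h : n ≡ n' [MOD p ^ 2]) : Kill p n l ↔ Kill p n' l :=
  Pool.Agent.H14.SQ.pf_SEM.2.1 p n n' l h

/-- numbers below `N` in a class modulo `L`, `L ∣ N` -/
theorem card_class (L N v : ℕ) (hL : 0 < L) (hd : L ∣ N) (S : Finset ℕ)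
    (hS : ∀ l ∈ S, l < N ∧ l ≡ v [MOD L]) : S.card ≤ N / L := by
  classical
  have h1 : S ⊆ (range N).filter fun l => l ≡ v [MOD L] := fun l hl =>
    mem_filter.2 ⟨mem_range.2 (hS l hl).1, (hS l hl).2⟩
  refine (card_le_card h1).trans ?_
  rw [← Nat.count_eq_card_filter_range, Nat.count_modEq_card _ hL]
  rw [Nat.mod_eq_zero_of_dvd hd]
  simp

theorem card_class_ge (L N v : ℕ) (hL : 0 < L) :
    N / L ≤ ((range N).filter fun l => l ≡ v [MOD L]).card := by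
  rw [← Nat.count_eq_card_filter_range, Nat.count_modEq_card _ hL]
  exact Nat.le_add_right _ _

theorem sum_inv (Y Y' : ℕ) (hY : 1 ≤ Y) (h : Y ≤ Y') :
    ∑ p ∈ FF Y' \ FF Y, (1 : ℝ) / (p : ℝ) ^ 2 ≤ 1 / Y := by
  have h1 : FF Y' \ FF Y ⊆ Ioc Y Y' := by
    intro p hp
    rw [Finset.mem_sdiff] at hp
    unfold FF at hp
    rw [mem_filter, mem_filter, mem_range, mem_range] at hp
    rw [mem_Ioc]
    refine ⟨?_, by omega⟩
    by_contra hc
    exact hp.2 ⟨by omega, hp.1.2⟩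
  have h2 := sum_Ioc_inv_sq_le_sub (α := ℝ) (k := Y) (n := Y') (by omega) h
  calc ∑ p ∈ FF Y' \ FF Y, (1 : ℝ) / (p : ℝ) ^ 2
      ≤ ∑ p ∈ Ioc Y Y', (1 : ℝ) / (p : ℝ) ^ 2 :=
        sum_le_sum_of_subset_of_nonneg h1 fun _ _ _ => by positivity
    _ = ∑ p ∈ Ioc Y Y', ((p : ℝ) ^ 2)⁻¹ := by simp only [one_div]
    _ ≤ (Y : ℝ)⁻¹ - (Y' : ℝ)⁻¹ := h2
    _ ≤ 1 / Y := by
      rw [one_div]
      have : (0 : ℝ) ≤ (Y' : ℝ)⁻¹ := by positivity
      linarith

/-- counting residues `a < Q'` with `a mod q` in a set that depends on `a mod Q` -/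
theorem card_res (Q q Q' T : ℕ) (hQ : 0 < Q) (hq : 0 < q) (hc : Nat.Coprime Q q)
    (hd : Q * q ∣ Q') (R : ℕ → Finset ℕ) (hR : ∀ c, (R c).card ≤ T) (S : Finset ℕ)
    (hS : ∀ a ∈ S, a < Q' ∧ a % q ∈ R (a % Q)) : (S.card : ℝ) * q ≤ T * Q' := by
  classical
  obtain ⟨e, he⟩ := hd
  have h1 : S ⊆ (range Q).biUnion fun c => (R c).biUnion fun b =>
      S.filter fun a => a % Q = c ∧ a % q = b := by
    intro a ha
    rw [mem_biUnion]
    refine ⟨a % Q, mem_range.2 (Nat.mod_lt _ hQ), ?_⟩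
    rw [mem_biUnion]
    exact ⟨a % q, (hS a ha).2, mem_filter.2 ⟨ha, rfl, rfl⟩⟩
  have h2 : ∀ c b, (S.filter fun a => a % Q = c ∧ a % q = b).card ≤ e := by
    intro c b
    obtain ⟨v, hv1, hv2⟩ := Nat.chineseRemainder hc c b
    have h3 := card_class (Q * q) Q' v (Nat.mul_pos hQ hq) ⟨e, he⟩
      (S.filter fun a => a % Q = c ∧ a % q = b) (by
        intro a ha
        rw [mem_filter] at ha
        refine ⟨(hS a ha.1).1, ?_⟩
        rw [← Nat.modEq_and_modEq_iff_modEq_mul hc]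
        refine ⟨?_, ?_⟩
        · refine Nat.ModEq.trans ?_ hv1.symm
          unfold Nat.ModEq
          rw [← ha.2.1, Nat.mod_mod]
        · refine Nat.ModEq.trans ?_ hv2.symm
          unfold Nat.ModEq
          rw [← ha.2.2, Nat.mod_mod])
    rwa [he, Nat.mul_div_cancel_left _ (Nat.mul_pos hQ hq)] at h3
  have h4 : S.card ≤ Q * (T * e) := by
    refine (card_le_card h1).trans (card_biUnion_le.trans ?_)
    refine (sum_le_card_nsmul _ _ (T * e) fun c _ => ?_).trans ?_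
    · refine card_biUnion_le.trans ((sum_le_card_nsmul _ _ e fun b _ => h2 c b).trans ?_)
      rw [smul_eq_mul]
      exact Nat.mul_le_mul_right _ (hR c)
    · rw [smul_eq_mul, card_range]
  have h5 : S.card * q ≤ T * Q' := by
    calc S.card * q ≤ Q * (T * e) * q := Nat.mul_le_mul_right _ h4
      _ = T * Q' := by rw [he]; ring
  exact_mod_cast h5

/-- the lower bound of the proportion -/
theorem UU_ge (F F' : Finset ℕ) (hF : ∀ p ∈ F', OP p) (hs : F ⊆ F') (a u : ℕ)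
    (hu : ∀ p ∈ F, ¬ Kill p a u) (h : ℕ → ℝ) (h0 : ∀ p, 0 ≤ h p)
    (h1 : ∀ p ∈ F' \ F, ∀ l, l ≡ u [MOD MP F] → Kill p a l → h p = 1) :
    1 - ∑ p ∈ F' \ F, h p * (MP F / Nat.lcm (MP F) (mm p) : ℝ) ≤ MP F * UU F' a := by
  classical
  have hmm : ∀ p ∈ F', 0 < mm p := fun p hp => (Pool.Agent.H14.SQ.pf_ORD p (hF p hp)).1
  have hN0 : 0 < MP F' := prod_pos hmm
  have hM0 : 0 < MP F := prod_pos fun p hp => hmm p (hs hp)
  have hMN : MP F ∣ MP F' := prod_dvd_prod_of_subset _ _ _ hs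
  have hmN : ∀ p ∈ F', mm p ∣ MP F' := fun p hp => dvd_prod_of_mem _ hp
  have hmM : ∀ p ∈ F, mm p ∣ MP F := fun p hp => dvd_prod_of_mem _ hp
  have hN0' : (0 : ℝ) < MP F' := by exact_mod_cast hN0
  have hM0' : (0 : ℝ) < MP F := by exact_mod_cast hM0
  -- the class of `u`
  set C := (range (MP F')).filter fun l => l ≡ u [MOD MP F] with hC
  have hCl : MP F' / MP F ≤ C.card := card_class_ge _ _ _ hM0
  -- killed members of the class
  have hK : ∀ p ∈ F' \ F, ((C.filter fun l => Kill p a l).card : ℝ) ≤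
      h p * (MP F' / Nat.lcm (MP F) (mm p) : ℝ) := by
    intro p hp
    have hp' : p ∈ F' := (Finset.mem_sdiff.1 hp).1
    have hL0 : 0 < Nat.lcm (MP F) (mm p) := Nat.lcm_pos hM0 (hmm p hp')
    have hL0' : (0 : ℝ) < Nat.lcm (MP F) (mm p) := by exact_mod_cast hL0
    by_cases he : (C.filter fun l => Kill p a l) = ∅
    · rw [he, card_empty, Nat.cast_zero]
      exact mul_nonneg (h0 p) (by positivity)
    · obtain ⟨l1, hl1⟩ := Finset.nonempty_iff_ne_empty.2 he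
      rw [mem_filter, hC, mem_filter] at hl1
      rw [h1 p hp l1 hl1.1.2 hl1.2, one_mul]
      have hLN : Nat.lcm (MP F) (mm p) ∣ MP F' := Nat.lcm_dvd hMN (hmN p hp')
      have h3 := card_class (Nat.lcm (MP F) (mm p)) (MP F') l1 hL0 hLN
        (C.filter fun l => Kill p a l) (by
          intro l hl
          rw [mem_filter, hC, mem_filter, mem_range] at hl
          refine ⟨hl.1.1, ?_⟩
          refine Nat.mod_lcm (hl.1.2.trans hl1.1.2.symm) ?_
          rw [← (Pool.Agent.H14.SQ.pf_ORD p (hF p hp')).2.2.2.1]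
          have e1 : (a : ZMod (p ^ 2)) = 2 ^ l := hl.2
          have e2 : (a : ZMod (p ^ 2)) = 2 ^ l1 := hl1.2
          rw [← e1, ← e2])
      rw [le_div_iff₀ hL0']
      have h4 : (C.filter fun l => Kill p a l).card * Nat.lcm (MP F) (mm p) ≤ MP F' :=
        (Nat.le_div_iff_mul_le hL0).1 h3
      exact_mod_cast h4
  -- not killed members
  have hU : C.card ≤ UC F' a (MP F') + ∑ p ∈ F' \ F, (C.filter fun l => Kill p a l).card := by
    have h5 : C ⊆ ((range (MP F')).filter fun l => ∀ p ∈ F', ¬ Kill p a l) ∪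
        (F' \ F).biUnion fun p => C.filter fun l => Kill p a l := by
      intro l hl
      by_cases hc : ∀ p ∈ F', ¬ Kill p a l
      · exact mem_union_left _ (mem_filter.2 ⟨(mem_filter.1 hl).1, hc⟩)
      · refine mem_union_right _ ?_
        push Not at hc
        obtain ⟨p, hp, hk⟩ := hc
        rw [mem_biUnion]
        refine ⟨p, Finset.mem_sdiff.2 ⟨hp, fun hpF => ?_⟩, mem_filter.2 ⟨hl, hk⟩⟩
        refine hu p hpF ?_
        have e1 : l ≡ u [MOD mm p] := ((mem_filter.1 hl).2).of_dvd (hmM p hpF)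
        have e2 := ((Pool.Agent.H14.SQ.pf_ORD p (hF p hp)).2.2.2.1 l u).2 e1
        have e3 : (a : ZMod (p ^ 2)) = 2 ^ l := hk
        change (a : ZMod (p ^ 2)) = 2 ^ u
        rw [e3, e2]
    refine (card_le_card h5).trans ((card_union_le _ _).trans ?_)
    refine Nat.add_le_add (le_of_eq ?_) card_biUnion_le
    unfold UC
    congr
  have hUr : (C.card : ℝ) ≤ UC F' a (MP F') +
      ∑ p ∈ F' \ F, ((C.filter fun l => Kill p a l).card : ℝ) := by exact_mod_cast hU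
  have hCr : (MP F' : ℝ) / MP F ≤ C.card := by
    have h6 : ((MP F' / MP F : ℕ) : ℝ) ≤ C.card := by exact_mod_cast hCl
    rwa [Nat.cast_div hMN hM0'.ne'] at h6
  have hsum := sum_le_sum hK
  have e1 : ∑ p ∈ F' \ F, h p * (MP F' / Nat.lcm (MP F) (mm p) : ℝ) =
      (MP F' / MP F : ℝ) * ∑ p ∈ F' \ F, h p * (MP F / Nat.lcm (MP F) (mm p) : ℝ) := by
    rw [mul_sum]
    refine sum_congr rfl fun p _ => ?_
    field_simp
  have e2 : (UC F' a (MP F') : ℝ) = MP F' * UU F' a := by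
    unfold UU
    field_simp
  rw [e1] at hsum
  rw [e2] at hUr
  set s := ∑ p ∈ F' \ F, h p * (MP F / Nat.lcm (MP F) (mm p) : ℝ)
  have h7 : (MP F' : ℝ) / MP F * (1 - s) ≤ MP F' * UU F' a := by linarith
  have h8 : (MP F' : ℝ) / MP F * (1 - s) = MP F' * ((1 - s) / MP F) := by ring
  rw [h8] at h7
  have h9 := le_of_mul_le_mul_left h7 hN0'
  rwa [div_le_iff₀ hM0', mul_comm] at h9

theorem pf_ZC (hCLS : T_CLS) (_hUUF : T_UUF) : T_ZC := by
  classical
  intro Y Y' A hY hYY hA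
  have hFm : ∀ Z, ∀ p ∈ FF Z, OP p := fun Z p hp => by
    unfold FF at hp
    exact (mem_filter.1 hp).2
  have hs : FF Y ⊆ FF Y' := by
    intro p hp
    unfold FF at hp ⊢
    rw [mem_filter, mem_range] at hp ⊢
    exact ⟨by omega, hp.2⟩
  have hmm : ∀ p ∈ FF Y', 0 < mm p := fun p hp => (Pool.Agent.H14.SQ.pf_ORD p (hFm _ p hp)).1
  have hM0 : 0 < MP (FF Y) := prod_pos fun p hp => hmm p (hs hp)
  have hM0' : (0 : ℝ) < MP (FF Y) := by exact_mod_cast hM0
  have hQ0 : ∀ Z, 0 < QQ (FF Z) := fun Z => prod_pos fun p hp => pow_pos (hFm Z p hp).1.pos 2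
  -- the least exponent not killed
  let u : ℕ → ℕ := fun c => sInf {l | ∀ p ∈ FF Y, ¬ Kill p c l}
  let L : ℕ → ℕ := fun p => Nat.lcm (MP (FF Y)) (mm p)
  let T : ℕ → ℕ := fun p => L p / MP (FF Y)
  have hLT : ∀ p, L p = T p * MP (FF Y) := fun p =>
    (Nat.div_mul_cancel (Nat.dvd_lcm_left _ _)).symm
  have hR : ∀ p c, OP p → ∃ R : Finset ℕ, R.card ≤ T p ∧
      ∀ n l, l ≡ u c [MOD MP (FF Y)] → Kill p n l → n % p ^ 2 ∈ R := by
    intro p c hp
    obtain ⟨R, h1, -, h3⟩ := hCLS p (MP (FF Y)) (u c) (T p) hp hM0 (hLT p).le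
    exact ⟨R, h1, h3⟩
  choose R hR1 hR2 using hR
  let R' : ℕ → ℕ → Finset ℕ := fun p c => if hp : OP p then R p c hp else ∅
  have hR'1 : ∀ p c, (R' p c).card ≤ T p := by
    intro p c
    by_cases hp : OP p
    · simp only [R', dif_pos hp]
      exact hR1 p c hp
    · simp only [R', dif_neg hp, card_empty]
      exact Nat.zero_le _
  have hR'2 : ∀ p c, OP p → ∀ n l, l ≡ u c [MOD MP (FF Y)] → Kill p n l →
      n % p ^ 2 ∈ R' p c := by
    intro p c hp n l h1 h2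
    simp only [R', dif_pos hp]
    exact hR2 p c hp n l h1 h2
  let h : ℕ → ℕ → ℝ := fun a p => if a % p ^ 2 ∈ R' p (a % QQ (FF Y)) then 1 else 0
  -- for `a` in `A`
  have hX : ∀ a ∈ A, (1 : ℝ) / 2 ≤
      ∑ p ∈ FF Y' \ FF Y, h a p * (MP (FF Y) / L p : ℝ) := by
    intro a ha
    obtain ⟨ha1, ha2, ha3⟩ := hA a ha
    have hck : ∀ p ∈ FF Y, ∀ l, Kill p (a % QQ (FF Y)) l ↔ Kill p a l := by
      intro p hp l
      refine kill_congr ?_
      have e1 : a % QQ (FF Y) ≡ a [MOD QQ (FF Y)] := Nat.mod_modEq _ _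
      exact e1.of_dvd (dvd_prod_of_mem (fun p => p ^ 2) hp)
    have hne : {l | ∀ p ∈ FF Y, ¬ Kill p (a % QQ (FF Y)) l}.Nonempty := by
      unfold Cov at ha2
      push Not at ha2
      obtain ⟨l, hl⟩ := ha2
      exact ⟨l, fun p hp => (hck p hp l).not.2 (hl p hp)⟩
    have hu : ∀ p ∈ FF Y, ¬ Kill p a (u (a % QQ (FF Y))) := by
      intro p hp
      have e1 := Nat.sInf_mem hne p hp
      exact (hck p hp _).not.1 e1
    have h2 := UU_ge (FF Y) (FF Y') (hFm Y') hs a (u (a % QQ (FF Y))) hu (h a)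
      (fun p => by
        simp only [h]
        split_ifs <;> norm_num)
      (fun p hp l hl hk => by
        simp only [h]
        rw [if_pos]
        exact hR'2 p _ (hFm Y' p (Finset.mem_sdiff.1 hp).1) a l hl hk)
    have h3 : MP (FF Y) * UU (FF Y') a < 1 / 2 := by
      have h4 := mul_lt_mul_of_pos_left ha3 hM0'
      have h5 : (MP (FF Y) : ℝ) * (1 / (2 * MP (FF Y))) = 1 / 2 := by
        field_simp
      rwa [h5] at h4
    linarith
  -- the sum over `a`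
  have hS : ∀ p ∈ FF Y' \ FF Y,
      ∑ a ∈ A, h a p * (MP (FF Y) / L p : ℝ) ≤ QQ (FF Y') * (1 / (p : ℝ) ^ 2) := by
    intro p hp
    have hpo : OP p := hFm Y' p (Finset.mem_sdiff.1 hp).1
    have hp0 : (0 : ℝ) < (p : ℝ) ^ 2 := by
      have := hpo.1.pos
      positivity
    have hL0 : 0 < L p := Nat.lcm_pos hM0 (hmm p (Finset.mem_sdiff.1 hp).1)
    have hL0' : (0 : ℝ) < L p := by exact_mod_cast hL0
    have h1 : ∑ a ∈ A, h a p * (MP (FF Y) / L p : ℝ) =
        ((A.filter fun a => a % p ^ 2 ∈ R' p (a % QQ (FF Y))).card : ℝ) *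
          (MP (FF Y) / L p : ℝ) := by
      rw [← sum_mul]
      congr 1
      simp only [h]
      rw [sum_boole]
    have h2 := card_res (QQ (FF Y)) (p ^ 2) (QQ (FF Y')) (T p) (hQ0 Y)
      (pow_pos hpo.1.pos 2) (by
        unfold QQ
        refine Nat.Coprime.prod_left fun q hq => ?_
        refine Nat.Coprime.pow 2 2 ((Nat.coprime_primes (hFm Y q hq).1 hpo.1).2 ?_)
        rintro rfl
        exact (Finset.mem_sdiff.1 hp).2 hq) (by
        have e1 : QQ (FF Y') = QQ (FF Y' \ FF Y) * QQ (FF Y) := by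
          unfold QQ
          exact (prod_sdiff hs).symm
        rw [e1, mul_comm]
        exact Nat.mul_dvd_mul (dvd_prod_of_mem (fun p => p ^ 2) hp) dvd_rfl)
      (R' p) (hR'1 p) (A.filter fun a => a % p ^ 2 ∈ R' p (a % QQ (FF Y))) (by
        intro a ha
        rw [mem_filter] at ha
        exact ⟨(hA a ha.1).1, ha.2⟩)
    rw [h1]
    have h3 : (L p : ℝ) = T p * MP (FF Y) := by exact_mod_cast hLT p
    have hT0 : (0 : ℝ) < T p := by
      rw [h3] at hL0'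
      exact pos_of_mul_pos_left hL0' hM0'.le
    have h4 : (MP (FF Y) / L p : ℝ) = 1 / T p := by
      rw [h3]
      field_simp
    rw [h4, mul_one_div, div_le_iff₀ hT0, mul_one_div, div_mul_eq_mul_div, le_div_iff₀ hp0]
    push_cast at h2
    linarith
  have h1 : (A.card : ℝ) * (1 / 2) ≤ QQ (FF Y') * (1 / Y) := by
    calc (A.card : ℝ) * (1 / 2) = ∑ _a ∈ A, (1 : ℝ) / 2 := by
          rw [sum_const, nsmul_eq_mul]
      _ ≤ ∑ a ∈ A, ∑ p ∈ FF Y' \ FF Y, h a p * (MP (FF Y) / L p : ℝ) := sum_le_sum hX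
      _ = ∑ p ∈ FF Y' \ FF Y, ∑ a ∈ A, h a p * (MP (FF Y) / L p : ℝ) := sum_comm
      _ ≤ ∑ p ∈ FF Y' \ FF Y, QQ (FF Y') * (1 / (p : ℝ) ^ 2) := sum_le_sum hS
      _ = QQ (FF Y') * ∑ p ∈ FF Y' \ FF Y, (1 : ℝ) / (p : ℝ) ^ 2 := by rw [mul_sum]
      _ ≤ QQ (FF Y') * (1 / Y) :=
          mul_le_mul_of_nonneg_left (sum_inv Y Y' hY hYY) (Nat.cast_nonneg _)
  have h2 : (2 : ℝ) / Y * QQ (FF Y') = 2 * (QQ (FF Y') * (1 / Y)) := by ring
  rw [h2]
  linarith

end Pool.Agent.H3.SF.ZCf
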