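import Pool.Agent.H3.SF.Fin
import Pool.Agent.H3.SF.Fin3
import Pool.Agent.H3.SF.DET
import Pool.Agent.H3.SF.FIC
import Pool.Agent.H3.SF.BAD
import Pool.Agent.H3.SF.M1
import Pool.Agent.H1.SF.CLK
import Pool.Agent.H1.SF.CLS
import Pool.Agent.H1.SF.RES
import Pool.Agent.H1.SF.M3
import Pool.Agent.H1.SF.W1
import Pool.Agent.H4.SF.PA1
import Pool.Agent.H4.SF.PA3
import Pool.Agent.H4.SF.W3
import Pool.Agent.H11.SF.UUD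
import Pool.Agent.H13.SF.W6B
import Pool.Agent.H20.SF.W6
import Pool.Agent.H23.SF.W2
import Pool.Agent.H23.SF.W4
import Pool.Agent.H26.SF.PA2
import Pool.Agent.H26.SF.M2
import Pool.Agent.H3.SF.ZCf
import Pool.Agent.H42.SF.FPB
import Pool.Agent.H42.SF.LO
import Pool.Agent.H49.SF.TREE
import Pool.Agent.H50.SF.LGC
import Pool.Agent.H50.SF.SML
import Pool.Agent.H50.SF.SMO
import Pool.Agent.H50.SF.TUP
import Pool.Agent.H50.SF.W5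
import Pool.Agent.H50.SF.W8
import Pool.Agent.H74.SF.LGD
import Pool.Agent.H79.SF.W6A
import Pool.Agent.H79.SF.W7
import Pool.Agent.H94.SF.UUF

/-! Assembly of the board spw_modules. -/

set_option autoImplicit false

namespace Pool.Agent.H3.SF

theorem a_TUP : T_TUP := Pool.Agent.H50.SF.pf_TUP Pool.Agent.H50.SF.pf_TUL Pool.Agent.H50.SF.pf_TUU

theorem a_LO : T_LO := Pool.Agent.H42.SF.pf_LO Pool.Agent.H42.SF.pf_FPB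

theorem a_TREE : T_TREE :=
  Pool.Agent.H49.SF.pf_TREE Pool.Agent.H42.SF.pf_FPB a_LO Pool.Agent.H1.SF.pf_CLS
    Pool.Agent.H1.SF.pf_RES

theorem a_FIC : T_FIC :=
  pf_FIC Pool.Agent.H42.SF.pf_FPB a_LO Pool.Agent.H1.SF.pf_CLK a_TUP Pool.Agent.H50.SF.pf_SMZ

theorem a_DET : T_DET := pf_DET Pool.Agent.H42.SF.pf_FPB a_LO

theorem a_BAD : T_BAD :=
  pf_BAD Pool.Agent.H42.SF.pf_FPB a_TREE Pool.Agent.H50.SF.pf_SMO a_FIC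

theorem a_M1 : T_M1 :=
  pf_M1 Pool.Agent.H42.SF.pf_FPB a_DET a_BAD Pool.Agent.H50.SF.pf_SML Pool.Agent.H4.SF.pf_PA1

theorem a_M2 : T_M2 :=
  Pool.Agent.H26.SF.pf_M2 Pool.Agent.H42.SF.pf_FPB a_DET a_BAD Pool.Agent.H50.SF.pf_SML
    Pool.Agent.H26.SF.pf_PA2

theorem a_UUD : T_UUD := Pool.Agent.H11.SF.pf_UUD Pool.Agent.H94.SF.pf_UUF

theorem a_LGC : T_LGC :=
  Pool.Agent.H50.SF.pf_LGC Pool.Agent.H1.SF.pf_CLK a_TUP Pool.Agent.H50.SF.pf_SMZ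

theorem a_LGD : T_LGD :=
  Pool.Agent.H74.SF.pf_LGD Pool.Agent.H42.SF.pf_FPB Pool.Agent.H94.SF.pf_UUF a_UUD

theorem a_M3 : T_M3 :=
  Pool.Agent.H1.SF.pf_M3 Pool.Agent.H94.SF.pf_UUF a_LGC a_LGD Pool.Agent.H50.SF.pf_SML
    Pool.Agent.H4.SF.pf_PA3

theorem a_W3 : T_W3 := Pool.Agent.H4.SF.pf_W3 Pool.Agent.H94.SF.pf_UUF

theorem a_W4 : T_W4 := Pool.Agent.H23.SF.pf_W4 Pool.Agent.H94.SF.pf_UUF

theorem a_W5 : T_W5 :=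
  Pool.Agent.H50.SF.LL.pf_W5 Pool.Agent.H94.SF.pf_UUF Pool.Agent.H1.SF.pf_W1
    Pool.Agent.H23.SF.pf_W2 a_W3 a_W4

theorem a_W6 : T_W6 :=
  Pool.Agent.H20.SF.pf_W6 Pool.Agent.H23.SF.pf_W2 a_W4 Pool.Agent.H79.SF.W6A.pf_W6A
    Pool.Agent.H13.SF.pf_W6B

theorem a_ZC : T_ZC :=
  Pool.Agent.H3.SF.ZCf.pf_ZC Pool.Agent.H1.SF.pf_CLS Pool.Agent.H94.SF.pf_UUF

theorem a_W7 : T_W7 :=
  Pool.Agent.H79.SF.pf_W7 Pool.Agent.H94.SF.pf_UUF Pool.Agent.H23.SF.pf_W2 a_W4 a_ZC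

theorem a_W8 : T_W8 := Pool.Agent.H50.SF.pf_W8 Pool.Agent.H1.SF.pf_W1 a_W7

end Pool.Agent.H3.SF
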