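import Pool.Agent.H3.SF.All
import Pool.Agent.H92.SFU.All
import Pool.Agent.H15.FOS.All

/-!
# MP_70ba79_ag, THEOREM S: the theorem `T_MAX` (all rows of all boards closed)
-/

set_option autoImplicit false

namespace Pool.Agent.H3.SF

theorem a_MAX : T_MAX :=
  All.a_MAX Pool.Agent.H92.SFU.neg Pool.Agent.H92.SFU.mlf Pool.Agent.H92.SFU.mlt
    Pool.Agent.H15.FOS.a_FOS

end Pool.Agent.H3.SF
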