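import Pool.Agent.H99.SQ.Fin0

/-!
# MP_634266_nt: odd numbers as a squarefree number plus a power of two

Definitions of the board spw_modules (strong dichotomy, limit law).
-/

set_option autoImplicit false

namespace Pool.Agent.H3.SF

open Finset Filter Topology Pool.Agent.H99.SQ

/-- the odd primes `p` with period `mm p` (the order of `2` modulo `p ^ 2`) dividing `P` -/
noncomputable def FP (P : ℕ) : Finset ℕ := by
  classical exact (range (2 ^ P)).filter fun p => OP p ∧ mm p ∣ P

/-- the least exponent which is not killed by the primes of period dividing `P` -/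
noncomputable def lo (P n : ℕ) : ℕ := sInf {l : ℕ | ∀ p ∈ FP P, ¬ Kill p n l}

/-- at most `r` steps of the decision tree; `Fi` is the stopping condition -/
def Bad (T : ℕ) (Fi : ℕ → ℕ → Prop) : ℕ → ℕ → ℕ → Prop
  | 0, _, _ => True
  | r + 1, P, n => (∃ p, OP p ∧ ¬ mm p ∣ P ∧ Nat.lcm P (mm p) ≤ T * P ∧
      (∃ l, l ≡ lo P n [MOD P] ∧ Kill p n l) ∧ Bad T Fi r (Nat.lcm P (mm p)) n) ∨ Fi P n

/-- the stopping condition: a part of the exponents `l ≤ log_2 x` in the class of `lo P n` is
killed by primes with large period -/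
def Fi (x T W P n : ℕ) : Prop := ∃ S : Finset ℕ,
  (∀ l ∈ S, l ≤ Nat.log 2 x ∧ l ≡ lo P n [MOD P] ∧
    ∃ p, OP p ∧ ¬ mm p ∣ P ∧ T * P < Nat.lcm P (mm p) ∧ p ≤ W ∧ Kill p n l) ∧
  Nat.log 2 x ≤ 8 * P * S.card

/-- `P0 Z b` is the `4 b`-th power of the least common multiple of `1, ..., Z` -/
def P0 (Z b : ℕ) : ℕ := Nat.lcmUpto Z ^ (4 * b)

/-- the invariant of the decision tree -/
def Inv (Z b P : ℕ) : Prop := 0 < P ∧ P0 Z b ∣ P ∧ ∀ q : ℕ, q.Prime → q ∣ P → q ≤ Z

/-- the exponents `l < N` not killed by `F` -/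
noncomputable def UC (F : Finset ℕ) (n N : ℕ) : ℕ := by
  classical exact ((range N).filter fun l => ∀ p ∈ F, ¬ Kill p n l).card

/-- a common period of the exponents killed by `F` -/
noncomputable def MP (F : Finset ℕ) : ℕ := ∏ p ∈ F, mm p

/-- the proportion of the exponents not killed by `F` -/
noncomputable def UU (F : Finset ℕ) (n : ℕ) : ℝ := (UC F n (MP F) : ℝ) / MP F

/-- the number of pairs `(l, p)`, `l ≤ log_2 x`, `p ≤ W`, such that `p` kills `l` and the period of
`p` does not divide `P` -/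
noncomputable def NP (x W P n : ℕ) : ℕ := by
  classical exact (((range (Nat.log 2 x + 1)) ×ˢ (range (W + 1))).filter fun q =>
    OP q.2 ∧ ¬ mm q.2 ∣ P ∧ Kill q.2 n q.1).card

end Pool.Agent.H3.SF
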