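import Pool.Agent.H3.SF.Targets
import Pool.Agent.H14.SQ.ORD
import Pool.Agent.H14.SQ.SEM

/-! Final forms of the two theorems of the board spw_modules. -/

set_option autoImplicit false

namespace Pool.Agent.H3.SF

open Finset Filter Topology Pool.Agent.H99.SQ MeasureTheory

/-- the strong dichotomy in the final form -/
theorem final_D (hM1 : T_M1) (hM2 : T_M2) :
    (∀ A ε : ℝ, 0 < A → 0 < ε → ∃ C : ℝ, ∀ x : ℕ, 2 ≤ x →
      ({n : ℕ | n ≤ x ∧ Odd n ∧ 1 < n ∧ ¬ Covered n ∧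
        (reps n : ℝ) < Real.log n ^ (1 - ε)}.ncard : ℝ) ≤ C * x / Real.log x ^ A) ∧
    (∀ n : ℕ, Odd n → Covered n → ∃ m : ℕ, 0 < m ∧
      ∀ n' : ℕ, n' ≡ n [MOD m] → 1 < n' → Exceptional n' ∧ Covered n') ∧
    ∃ δ C : ℝ, (∀ x : ℕ, 3 ≤ x → |({n : ℕ | n ≤ x ∧ Exceptional n}.ncard : ℝ) - δ * x| ≤
        C * x / Real.exp (Real.sqrt (Real.log (Real.log x)))) ∧
      (δ = 0 ↔ ∀ n : ℕ, Odd n → ¬ Covered n) := by
  have hA : ∀ A ε : ℝ, 0 < A → 0 < ε → ∃ C : ℝ, ∀ x : ℕ, 2 ≤ x →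
      ({n : ℕ | n ≤ x ∧ Odd n ∧ 1 < n ∧ ¬ Covered n ∧
        (reps n : ℝ) < Real.log n ^ (1 - ε)}.ncard : ℝ) ≤ C * x / Real.log x ^ A := by
    intro A ε hA hε
    set ε' := min ε (1 / 2) with hε'
    have h0 : 0 < ε' := lt_min hε (by norm_num)
    have h1 : ε' < 1 := (min_le_right _ _).trans_lt (by norm_num)
    obtain ⟨C, hC⟩ := hM1 A ε' hA h0 h1
    refine ⟨C, fun x hx => ?_⟩
    have hf : {n : ℕ | n ≤ x ∧ Odd n ∧ 1 < n ∧ ¬ Covered n ∧
        (reps n : ℝ) < Real.log n ^ (1 - ε)}.Finite := (Set.finite_Iic x).subset fun _ h => h.1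
    have h2 := hC x hx hf.toFinset (fun n hn => by
      rw [Set.Finite.mem_toFinset] at hn
      obtain ⟨a1, a2, a3, a4, a5⟩ := hn
      refine ⟨a1, a2, a3, fun F hF hc => a4 ((cov_iff n).2 ⟨F, hF, hc⟩), ?_⟩
      rw [reps_eq] at a5
      refine a5.trans_le ?_
      have h3 : 3 ≤ n := by
        obtain ⟨k, hk⟩ := a2
        omega
      have h4 : (1 : ℝ) ≤ Real.log n := by
        have h5 : Real.exp 1 ≤ n := by
          have h6 : (3 : ℝ) ≤ n := by exact_mod_cast h3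
          linarith [Real.exp_one_lt_d9]
        have h7 : (0 : ℝ) < n := by
          have : 0 < n := by omega
          exact_mod_cast this
        rwa [Real.le_log_iff_exp_le h7]
      exact Real.rpow_le_rpow_of_exponent_le h4 (by linarith [min_le_left ε (1 / 2 : ℝ)]))
    rwa [← Set.ncard_eq_toFinset_card _ hf] at h2
  refine ⟨hA, fun n hn hc => progression Pool.Agent.H14.SQ.pf_SEM n hn hc, ?_⟩
  obtain ⟨δ, C, hδ⟩ := hM2
  have hset : ∀ x : ℕ, {n : ℕ | n ≤ x ∧ EE n} = {n : ℕ | n ≤ x ∧ Exceptional n} := fun x => by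
    ext n
    simp only [Set.mem_ofPred_eq, exc_iff]
  simp only [hset] at hδ
  refine ⟨δ, C, hδ, ?_⟩
  have hexp : Tendsto (fun x : ℕ => Real.exp (Real.sqrt (Real.log (Real.log x)))) atTop atTop :=
    Real.tendsto_exp_atTop.comp (Real.tendsto_sqrt_atTop.comp
      (Real.tendsto_log_atTop.comp (Real.tendsto_log_atTop.comp tendsto_natCast_atTop_atTop)))
  have hlim : Tendsto (fun x : ℕ => ({n : ℕ | n ≤ x ∧ Exceptional n}.ncard : ℝ) / x) atTop
      (𝓝 δ) := by
    rw [tendsto_iff_norm_sub_tendsto_zero]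
    refine squeeze_zero' (Eventually.of_forall fun x => norm_nonneg _) ?_
      (Tendsto.div_atTop (tendsto_const_nhds (x := |C|)) hexp)
    filter_upwards [eventually_ge_atTop 3] with x hx
    have hx1 : (0 : ℝ) < x := by
      have : 0 < x := by omega
      exact_mod_cast this
    have h1 := hδ x hx
    have h2 : ({n : ℕ | n ≤ x ∧ Exceptional n}.ncard : ℝ) / x - δ =
        (({n : ℕ | n ≤ x ∧ Exceptional n}.ncard : ℝ) - δ * x) / x := by
      field_simp
    rw [Real.norm_eq_abs, h2, abs_div, abs_of_pos hx1, div_le_iff₀ hx1]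
    refine h1.trans ?_
    have h3 : C * x / Real.exp (Real.sqrt (Real.log (Real.log x))) ≤
        |C| * x / Real.exp (Real.sqrt (Real.log (Real.log x))) :=
      div_le_div_of_nonneg_right (mul_le_mul_of_nonneg_right (le_abs_self C) hx1.le)
        (Real.exp_pos _).le
    refine h3.trans (le_of_eq ?_)
    ring
  have h0 : 0 ≤ δ := ge_of_tendsto' hlim fun x => by positivity
  constructor
  · intro hz n hn hc
    obtain ⟨m, hm, hp⟩ := progression Pool.Agent.H14.SQ.pf_SEM n hn hc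
    have h3 : (1 : ℝ) / m ≤ δ := by
      have hlim2 : Tendsto (fun x : ℕ => (1 : ℝ) / m - 3 / (x : ℝ)) atTop
          (𝓝 ((1 : ℝ) / m - 0)) :=
        tendsto_const_nhds.sub (tendsto_const_div_atTop_nhds_zero_nat 3)
      rw [sub_zero] at hlim2
      refine le_of_tendsto_of_tendsto hlim2 hlim ?_
      filter_upwards [eventually_ge_atTop 1] with x hx
      have hx1 : (0 : ℝ) < x := by exact_mod_cast hx
      rw [le_div_iff₀ hx1, sub_mul, div_mul_cancel₀ _ hx1.ne']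
      have h4 := class_count m (n % m) x hm (Nat.mod_lt _ hm)
      have h5 : {n' : ℕ | n' ≤ x ∧ n' ≡ n % m [MOD m] ∧ 1 < n'} ⊆
          {n : ℕ | n ≤ x ∧ Exceptional n} := by
        rintro n' ⟨h6, h7, h8⟩
        exact ⟨h6, (hp n' (h7.trans (Nat.mod_modEq n m)) h8).1⟩
      have h6 : ({n' : ℕ | n' ≤ x ∧ n' ≡ n % m [MOD m] ∧ 1 < n'}.ncard : ℝ) ≤
          ({n : ℕ | n ≤ x ∧ Exceptional n}.ncard : ℝ) := by
        exact_mod_cast Set.ncard_le_ncard h5 (le_finite x _)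
      have h7 : (1 : ℝ) / m * x = x / m := by ring
      linarith
    have h4 : (0 : ℝ) < 1 / m := by
      have : (0 : ℝ) < m := by exact_mod_cast hm
      exact div_pos one_pos this
    linarith
  · intro hno
    obtain ⟨C1, hC1⟩ := hA 1 (1 / 2) one_pos (by norm_num)
    have hlim3 : Tendsto (fun x : ℕ => C1 / Real.log x ^ (1 : ℝ)) atTop (𝓝 0) := by
      refine Tendsto.div_atTop tendsto_const_nhds ?_
      simp only [Real.rpow_one]
      exact Real.tendsto_log_atTop.comp tendsto_natCast_atTop_atTop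
    refine le_antisymm (le_of_tendsto_of_tendsto hlim hlim3 ?_) h0
    filter_upwards [eventually_ge_atTop 2] with x hx
    have hx1 : (0 : ℝ) < x := by
      have : 0 < x := by omega
      exact_mod_cast this
    rw [div_le_iff₀ hx1]
    have h4 := hC1 x hx
    have h5 : {n : ℕ | n ≤ x ∧ Exceptional n} ⊆ {n : ℕ | n ≤ x ∧ Odd n ∧ 1 < n ∧ ¬ Covered n ∧
        (reps n : ℝ) < Real.log n ^ ((1 : ℝ) - 1 / 2)} := by
      rintro n ⟨a1, a2⟩
      have a3 := (exc_iff n).1 a2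
      refine ⟨a1, a3.1, a3.2.1, hno n a3.1, ?_⟩
      rw [reps_eq, a3.2.2]
      have h7 : (1 : ℝ) < n := by exact_mod_cast a3.2.1
      push_cast
      exact Real.rpow_pos_of_pos (Real.log_pos h7) _
    have h6 : ({n : ℕ | n ≤ x ∧ Exceptional n}.ncard : ℝ) ≤
        ({n : ℕ | n ≤ x ∧ Odd n ∧ 1 < n ∧ ¬ Covered n ∧
          (reps n : ℝ) < Real.log n ^ ((1 : ℝ) - 1 / 2)}.ncard : ℝ) := by
      exact_mod_cast Set.ncard_le_ncard h5 (le_finite x _)
    calc _ ≤ _ := h6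
      _ ≤ _ := h4
      _ = _ := by ring

end Pool.Agent.H3.SF
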