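import Pool.Agent.H3.SF.Targets
import Pool.Agent.H14.SQ.ORD
import Pool.Agent.H14.SQ.SEM

/-! Final form of the limit law of the board spw_modules. -/

set_option autoImplicit false

namespace Pool.Agent.H3.SF

open Finset Filter Topology Pool.Agent.H99.SQ MeasureTheory

/-- `S` has natural density `d` -/
def HasDensity (S : Set ℕ) (d : ℝ) : Prop :=
  Tendsto (fun N : ℕ => ((S ∩ Set.Iio N).ncard : ℝ) / N) atTop (𝓝 d)

theorem ncard_eq_count (P : ℕ → Prop) [DecidablePred P] (N : ℕ) :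
    ({l : ℕ | P l} ∩ Set.Iio N).ncard = Nat.count P N := by
  rw [Nat.count_eq_card_filter_range, ← Set.ncard_coe_finset]
  congr 1
  ext l
  simp only [Set.mem_inter_iff, Set.mem_ofPred_eq, Set.mem_Iio, Finset.coe_filter,
    Finset.mem_range]
  tauto

theorem count_periodic (P : ℕ → Prop) [DecidablePred P] (M : ℕ) (hP : ∀ l, P (l + M) ↔ P l)
    (q r : ℕ) : Nat.count P (M * q + r) = q * Nat.count P M + Nat.count P r := by
  induction q with
  | zero => simp
  | succ q ih =>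
    have e : M * (q + 1) + r = M + (M * q + r) := by ring
    rw [e, Nat.count_add]
    have h : Nat.count (fun k => P (M + k)) (M * q + r) = Nat.count P (M * q + r) := by
      congr 1
      funext k
      rw [add_comm M k]
      exact propext (hP k)
    rw [h, ih]
    ring

/-- density of a periodic set -/
theorem density_periodic (P : ℕ → Prop) [DecidablePred P] (M : ℕ) (hM : 0 < M)
    (hP : ∀ l, P (l + M) ↔ P l) : HasDensity {l : ℕ | P l} ((Nat.count P M : ℝ) / M) := by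
  unfold HasDensity
  have hM' : (0 : ℝ) < M := by exact_mod_cast hM
  have key : ∀ N : ℕ, |(Nat.count P N : ℝ) - (Nat.count P M : ℝ) / M * N| ≤ M := by
    intro N
    have h1 : N = M * (N / M) + N % M := (Nat.div_add_mod N M).symm
    have h2 : Nat.count P N = N / M * Nat.count P M + Nat.count P (N % M) := by
      conv_lhs => rw [h1]
      exact count_periodic P M hP _ _
    have h3 : (Nat.count P N : ℝ) = ((N / M : ℕ) : ℝ) * Nat.count P M + Nat.count P (N % M) := by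
      exact_mod_cast h2
    have h4 : (N : ℝ) = M * ((N / M : ℕ) : ℝ) + ((N % M : ℕ) : ℝ) := by exact_mod_cast h1
    have h5 : (Nat.count P N : ℝ) - (Nat.count P M : ℝ) / M * N =
        Nat.count P (N % M) - (Nat.count P M : ℝ) / M * ((N % M : ℕ) : ℝ) := by
      rw [h3, h4]
      field_simp
      ring
    have h6 : (Nat.count P (N % M) : ℝ) ≤ ((N % M : ℕ) : ℝ) := by
      exact_mod_cast Nat.count_le P
    have h7 : ((N % M : ℕ) : ℝ) ≤ M := by exact_mod_cast (Nat.mod_lt _ hM).le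
    have h8 : (Nat.count P M : ℝ) / M ≤ 1 := by
      rw [div_le_one hM']
      exact_mod_cast Nat.count_le P
    have h9 : 0 ≤ (Nat.count P M : ℝ) / M := by positivity
    have h10 : (0 : ℝ) ≤ Nat.count P (N % M) := by positivity
    have h11 : (0 : ℝ) ≤ ((N % M : ℕ) : ℝ) := by positivity
    rw [h5, abs_le]
    constructor <;> nlinarith
  rw [tendsto_iff_norm_sub_tendsto_zero]
  refine squeeze_zero' (Eventually.of_forall fun x => norm_nonneg _) ?_
    (tendsto_const_div_atTop_nhds_zero_nat (M : ℝ))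
  filter_upwards [eventually_ge_atTop 1] with N hN
  have hN' : (0 : ℝ) < N := by exact_mod_cast hN
  rw [ncard_eq_count, Real.norm_eq_abs]
  have h2 : (Nat.count P N : ℝ) / N - (Nat.count P M : ℝ) / M =
      ((Nat.count P N : ℝ) - (Nat.count P M : ℝ) / M * N) / N := by
    field_simp
  rw [h2, abs_div, abs_of_pos hN']
  exact div_le_div_of_nonneg_right (key N) hN'.le

/-- powers of `2` modulo `p ^ 2` are periodic -/
theorem two_pow_add (p M l : ℕ) (hp : OP p) (h : mm p ∣ M) :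
    (2 : ZMod (p ^ 2)) ^ (l + M) = 2 ^ l := by
  rw [(Pool.Agent.H14.SQ.pf_ORD p hp).2.2.2.1]
  obtain ⟨k, hk⟩ := h
  rw [hk]
  unfold Nat.ModEq
  rw [Nat.add_mul_mod_self_left]

theorem MP_pos (F : Finset ℕ) (hF : ∀ p ∈ F, OP p) : 0 < MP F :=
  Finset.prod_pos fun p hp => (Pool.Agent.H14.SQ.pf_ORD p (hF p hp)).1

theorem mem_FF {Y p : ℕ} : p ∈ FF Y ↔ p ≤ Y ∧ p.Prime ∧ p ≠ 2 := by
  simp only [FF, Finset.mem_filter, Finset.mem_range, Nat.lt_succ_iff]

theorem density_dY (Y : ℕ) (ω : Om) :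
    HasDensity {l : ℕ | ∀ p : Ix, (p : ℕ) ≤ Y → ω p ≠ 2 ^ l} (dY Y ω) := by
  classical
  have hM : 0 < MP (FF Y) := MP_pos _ fun p hp => (mem_FF.1 hp).2
  have h := density_periodic (fun l : ℕ => ∀ p : Ix, (p : ℕ) ≤ Y → ω p ≠ 2 ^ l) (MP (FF Y)) hM
    (fun l => by
      refine forall_congr' fun p => forall_congr' fun hp => ?_
      rw [two_pow_add p (MP (FF Y)) l p.2
        (Finset.dvd_prod_of_mem (fun p => mm p) (mem_FF.2 ⟨hp, p.2⟩))])
  have e : (Nat.count (fun l : ℕ => ∀ p : Ix, (p : ℕ) ≤ Y → ω p ≠ 2 ^ l) (MP (FF Y)) : ℝ) /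
      MP (FF Y) = dY Y ω := by
    unfold dY
    rw [Nat.count_eq_card_filter_range]
  rwa [e] at h

theorem density_UU (F : Finset ℕ) (n : ℕ) (hF : ∀ p ∈ F, OP p) :
    HasDensity {l : ℕ | ∀ p ∈ F, ¬ Kill p n l} (UU F n) := by
  classical
  have hM : 0 < MP F := MP_pos _ hF
  have h := density_periodic (fun l : ℕ => ∀ p ∈ F, ¬ Kill p n l) (MP F) hM
    (fun l => by
      refine forall_congr' fun p => forall_congr' fun hp => ?_
      unfold Kill
      rw [two_pow_add p (MP F) l (hF p hp) (Finset.dvd_prod_of_mem (fun p => mm p) hp)])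
  have e : (Nat.count (fun l : ℕ => ∀ p ∈ F, ¬ Kill p n l) (MP F) : ℝ) / MP F = UU F n := by
    unfold UU UC
    rw [Nat.count_eq_card_filter_range]
  rwa [e] at h

/-- the finite set of the odd primes with period at most `m` -/
theorem exists_F (m : ℕ) : ∃ F : Finset ℕ, ∀ p, p ∈ F ↔ OP p ∧ mm p ≤ m := by
  classical
  refine ⟨(range (2 ^ m)).filter fun p => OP p ∧ mm p ≤ m, fun p => ?_⟩
  rw [Finset.mem_filter, Finset.mem_range]
  constructor
  · exact fun h => h.2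
  · intro h
    refine ⟨?_, h⟩
    have h1 := (Pool.Agent.H14.SQ.pf_ORD p h.1).2.1
    have h2 : p ≤ p ^ 2 := Nat.le_self_pow (by norm_num) p
    exact (h2.trans_lt h1).trans_le (Nat.pow_le_pow_right (by norm_num) h.2)

/-- the limit law in the final form -/
theorem final_L (hW4 : T_W4) (hW5 : T_W5) (hW6 : T_W6) (hW8 : T_W8) (hM3 : T_M3) :
    (∃ D : Om → ℝ, Measurable D ∧
      (∀ ω, ∃ u : ℕ → ℝ, (∀ Y : ℕ,
        HasDensity {l : ℕ | ∀ p : Ix, (p : ℕ) ≤ Y → ω p ≠ 2 ^ l} (u Y)) ∧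
        Tendsto u atTop (𝓝 (D ω))) ∧
      (∀ g : ℝ → ℝ, Continuous g →
        Tendsto (fun x : ℕ => (∑ n ∈ (range (x + 1)).filter Odd,
          g ((reps n : ℝ) / (Real.log n / Real.log 2))) / ((x : ℝ) / 2)) atTop
          (𝓝 (∫ ω, g (D ω) ∂PM))) ∧
      ∫ ω, D ω ∂PM = 8 / Real.pi ^ 2 ∧
      Tendsto (fun x : ℕ => ({n : ℕ | n ≤ x ∧ Exceptional n}.ncard : ℝ) / x) atTop
        (𝓝 ((PM {ω | D ω = 0}).toReal / 2))) ∧
    ∀ A ε : ℝ, 0 < A → 0 < ε → ∃ C : ℝ, ∀ x : ℕ, 2 ≤ x →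
      ({n : ℕ | n ≤ x ∧ Odd n ∧ 1 < n ∧ ¬ ∃ d : ℝ,
        HasDensity {l : ℕ | ∀ p : ℕ, p.Prime → p ≠ 2 →
          orderOf (2 : ZMod (p ^ 2)) ≤ Nat.log 2 n → ¬ (p : ℤ) ^ 2 ∣ (n : ℤ) - 2 ^ l} d ∧
        |(reps n : ℝ) / (Real.log n / Real.log 2) - d| ≤ ε}.ncard : ℝ) ≤
        C * x / Real.log x ^ A := by
  refine ⟨⟨Dd, hW4.2.1, fun ω => ⟨fun Y => dY Y ω, fun Y => density_dY Y ω,
    hW4.2.2.2.2.1 ω⟩, fun g hg => ?_, hW6, ?_⟩, ?_⟩
  · have h := hW5 g hg
    simp only [reps_eq]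
    exact h
  · have h : T_W8 := hW8
    have hset : ∀ x : ℕ, {n : ℕ | n ≤ x ∧ Exceptional n} = {n : ℕ | n ≤ x ∧ EE n} := fun x => by
      ext n
      simp only [Set.mem_ofPred_eq, exc_iff]
    simp only [hset]
    exact h
  · intro A ε hA hε
    obtain ⟨C, hC⟩ := hM3 A ε hA hε
    refine ⟨C, fun x hx => ?_⟩
    set S : Set ℕ := {n : ℕ | n ≤ x ∧ Odd n ∧ 1 < n ∧ ¬ ∃ d : ℝ,
        HasDensity {l : ℕ | ∀ p : ℕ, p.Prime → p ≠ 2 →
          orderOf (2 : ZMod (p ^ 2)) ≤ Nat.log 2 n → ¬ (p : ℤ) ^ 2 ∣ (n : ℤ) - 2 ^ l} d ∧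
        |(reps n : ℝ) / (Real.log n / Real.log 2) - d| ≤ ε} with hS
    have hf : S.Finite := (Set.finite_Iic x).subset fun _ h => h.1
    have h2 := hC x hx hf.toFinset (fun n hn => by
      rw [Set.Finite.mem_toFinset] at hn
      obtain ⟨a1, a2, a3, a4⟩ := hn
      refine ⟨a1, a2, a3, fun F hF => ?_⟩
      by_contra hcon
      rw [not_lt] at hcon
      refine a4 ⟨UU F n, ?_, ?_⟩
      · have h3 := density_UU F n fun p hp => ((hF p).1 hp).1
        have e : {l : ℕ | ∀ p : ℕ, p.Prime → p ≠ 2 →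
            orderOf (2 : ZMod (p ^ 2)) ≤ Nat.log 2 n → ¬ (p : ℤ) ^ 2 ∣ (n : ℤ) - 2 ^ l} =
            {l : ℕ | ∀ p ∈ F, ¬ Kill p n l} := by
          ext l
          simp only [Set.mem_ofPred_eq]
          constructor
          · intro h p hp
            rw [kill_iff]
            have h4 := (hF p).1 hp
            exact h p h4.1.1 h4.1.2 h4.2
          · intro h p hp1 hp2 hp3
            rw [← kill_iff]
            exact h p ((hF p).2 ⟨⟨hp1, hp2⟩, hp3⟩)
        rw [e]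
        exact h3
      · rw [reps_eq]
        exact hcon)
    rwa [← Set.ncard_eq_toFinset_card _ hf] at h2

end Pool.Agent.H3.SF
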