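import Pool.Agent.H77.SF.KT2
import Pool.Agent.H66.SF.WE

/-! KPR: nice pairs are nice pairs in the small model. -/

set_option autoImplicit false

open Ordinal Cardinal Order Set
open scoped ZFSet

namespace SF.H3

open SF

theorem kpr (hKUL : T_KUL) (hKM : T_KM) (hKV : T_KV) : T_KPR := by
  intro κ' κ lam' lam j hS N' hN' N hN h
  have hK : KPw (· ∈ V_ lam') := (hKM _ _ _ _ _ hS).1
  have hw : w1 ∈ V_ lam' := by
    rw [ZFSet.mem_vonNeumann]
    unfold w1
    rw [Ordinal.rank_toZFSet]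
    exact (hKV κ' hS.inac').big.trans hS.lt'
  have hX : KPx (· ∈ V_ lam') := ⟨hK, hw⟩
  have hc : (N' : Set V).Countable := SF.H66.ctbl_iff.1 h.ctb
  refine ⟨h.zfc, ?_, hKUL _ hX N' hN' hc h.full, ?_⟩
  · obtain ⟨A, τ, hA, -, hN2⟩ := h.lev
    obtain ⟨τ', hτ', hN'2⟩ := (exLA_iff hK.1 hN).1 ⟨τ, hN2⟩
    exact ⟨A, τ', hA, hτ', hN'2⟩
  · rcases h.ctb with h0 | ⟨f, -, hf⟩
    · exact Or.inl h0
    · refine Or.inr ⟨f, ?_, hf⟩
      have h1 : ZFSet.prod (ω : Ordinal.{0}).toZFSet N' ∈ V_ lam' := by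
        have h2 := (Tm.prod (Tm.var 0) (Tm.var 1)).1 _ hK.1
          (cons (ω : Ordinal.{0}).toZFSet fun _ => N') (by
            intro i
            cases i with
            | zero => exact hK.1.inf
            | succ n => exact hN')
        exact h2
      exact ZFSet.mem_vonNeumann_of_subset hf.1.1 h1

end SF.H3
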