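import Pool.Agent.H77.SF.KT2

/-! KVA: composition of algebra valued maps with elementary maps. -/

set_option autoImplicit false

open Ordinal Cardinal Order Set
open scoped ZFSet

namespace SF.H3

open SF

theorem elem_inj {N0 N f : V} (hf : IsElem N0 N f) :
    ∀ z ∈ N0, ∀ z2 ∈ N0, app f z = app f z2 → z = z2 := by
  intro z hz z2 hz2 h
  have h1 := hf.el (.eq 0 1) (cons z fun _ => z2) (by
    intro i
    cases i with
    | zero => exact hz
    | succ n => exact hz2)
  exact h1.2 h

theorem pushM_app {B : V} [IsCBA B] {N0 f : V}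
    (hi : ∀ z ∈ N0, ∀ z2 ∈ N0, app f z = app f z2 → z = z2) (τ : V → V → El B) (x : V) {z : V}
    (hz : z ∈ N0) : pushM N0 f τ x (app f z) = τ x z := by
  apply le_antisymm
  · refine sSup_le ?_
    rintro a ⟨z', hz', h1, rfl⟩
    rw [hi _ hz' _ hz h1]
  · exact le_sSup ⟨z, hz, rfl, rfl⟩

theorem pushM_ne {B : V} [IsCBA B] {N0 f : V} {τ : V → V → El B} {x y : V}
    (h : pushM N0 f τ x y ≠ ⊥) : ∃ z ∈ N0, app f z = y := by
  by_contra hc
  apply h
  refine sSup_eq_bot.2 ?_
  rintro a ⟨z, hz, h1, -⟩
  exact absurd ⟨z, hz, h1⟩ hc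

theorem pullM_mem {B : V} [IsCBA B] {N0 f : V} {σ : V → V → El B} {x z : V}
    (h : z ∈ N0) : pullM N0 f σ x z = σ x (app f z) := if_pos h

theorem pullM_ne {B : V} [IsCBA B] {N0 f : V} {σ : V → V → El B} {x z : V}
    (h : pullM N0 f σ x z ≠ ⊥) : z ∈ N0 := by
  by_contra hc
  exact h (if_neg hc)

theorem kva : T_KVA := by
  intro B _ N' N N0 f b hf
  have hi := elem_inj hf
  refine ⟨hi, ?_, ?_⟩
  · intro σ hσ hr
    refine ⟨?_, ?_, ?_, ?_⟩
    · intro x hx
      apply le_antisymm
      · refine iSup_le fun z => ?_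
        by_cases hz : z ∈ N0
        · rw [pullM_mem hz, ← hσ.tot x hx]
          exact le_iSup (fun y => σ x y) (app f z)
        · have h1 : pullM N0 f σ x z = ⊥ := if_neg hz
          rw [h1]
          exact bot_le
      · rw [← hσ.tot x hx]
        refine iSup_le fun y => ?_
        by_cases hy : σ x y = ⊥
        · rw [hy]
          exact bot_le
        · obtain ⟨z, hz, rfl⟩ := hr x y hy
          rw [← pullM_mem (σ := σ) (x := x) hz]
          exact le_iSup (fun z => pullM N0 f σ x z) z
    · intro x z z' hzz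
      by_cases hz : z ∈ N0
      · by_cases hz' : z' ∈ N0
        · rw [pullM_mem hz, pullM_mem hz']
          exact hσ.fn x _ _ fun h => hzz (hi z hz z' hz' h)
        · have h1 : pullM N0 f σ x z' = ⊥ := if_neg hz'
          rw [h1, inf_bot_eq]
      · have h1 : pullM N0 f σ x z = ⊥ := if_neg hz
        rw [h1, bot_inf_eq]
    · intro x z h
      have hz := pullM_ne h
      rw [pullM_mem hz] at h
      exact ⟨(hσ.dom _ _ h).1, hz⟩
    · intro s hs v hv φ
      classical
      have h1 : ∀ q ∈ s, q.2 ∈ N0 := by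
        intro q hq
        apply pullM_ne (f := f) (σ := σ) (x := q.1)
        intro h
        apply hs
        have h2 : (s.inf fun q => pullM N0 f σ q.1 q.2) ≤ pullM N0 f σ q.1 q.2 :=
          Finset.inf_le (f := fun q : V × V => pullM N0 f σ q.1 q.2) hq
        rw [h] at h2
        exact le_bot_iff.1 h2
      have h2 : ((s.image fun q => (q.1, app f q.2)).inf fun q => σ q.1 q.2) =
          s.inf fun q => pullM N0 f σ q.1 q.2 := by
        rw [Finset.inf_image]
        refine Finset.inf_congr rfl fun q hq => ?_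
        exact (pullM_mem (h1 q hq)).symm
      have h3 := hσ.el (s.image fun q => (q.1, app f q.2)) (by rw [h2]; exact hs)
        (fun i => ((v i).1, app f (v i).2)) (fun i => Finset.mem_image_of_mem _ (hv i)) φ
      exact h3.trans (hf.el φ (fun i => (v i).2) fun i => h1 _ (hv i)).symm
  · intro τ hτ
    have hz : ∀ x z, τ x z ≠ ⊥ → z ∈ N0 := fun x z h => (hτ.dom x z h).2
    refine ⟨?_, ?_, ?_, ?_⟩
    · intro x hx
      apply le_antisymm
      · refine iSup_le fun y => sSup_le ?_
        rintro a ⟨z, -, -, rfl⟩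
        rw [← hτ.tot x hx]
        exact le_iSup (fun z => τ x z) z
      · rw [← hτ.tot x hx]
        refine iSup_le fun z => ?_
        by_cases h : τ x z = ⊥
        · rw [h]
          exact bot_le
        · rw [← pushM_app hi τ x (hz x z h)]
          exact le_iSup (fun y => pushM N0 f τ x y) _
    · intro x y y' hyy
      by_cases h1 : pushM N0 f τ x y = ⊥
      · rw [h1, bot_inf_eq]
      by_cases h2 : pushM N0 f τ x y' = ⊥
      · rw [h2, inf_bot_eq]
      obtain ⟨z, hz1, rfl⟩ := pushM_ne h1
      obtain ⟨z', hz2, rfl⟩ := pushM_ne h2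
      rw [pushM_app hi τ x hz1, pushM_app hi τ x hz2]
      exact hτ.fn x z z' fun h => hyy (by rw [h])
    · intro x y h
      obtain ⟨z, hz1, rfl⟩ := pushM_ne h
      rw [pushM_app hi τ x hz1] at h
      exact ⟨(hτ.dom x z h).1, app_mem hf.func hz1⟩
    · intro s hs v hv φ
      classical
      have h1 : ∀ q : V × V, ∃ z, q ∈ s → z ∈ N0 ∧ app f z = q.2 := by
        intro q
        by_cases hq : q ∈ s
        · have h2 : pushM N0 f τ q.1 q.2 ≠ ⊥ := by
            intro h
            apply hs
            have h2 : (s.inf fun q => pushM N0 f τ q.1 q.2) ≤ pushM N0 f τ q.1 q.2 :=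
              Finset.inf_le (f := fun q : V × V => pushM N0 f τ q.1 q.2) hq
            rw [h] at h2
            exact le_bot_iff.1 h2
          obtain ⟨z, hz1, hz2⟩ := pushM_ne h2
          exact ⟨z, fun _ => ⟨hz1, hz2⟩⟩
        · exact ⟨∅, fun h => absurd h hq⟩
      choose zf hzf using h1
      have h2 : ((s.image fun q => (q.1, zf q)).inf fun q => τ q.1 q.2) =
          s.inf fun q => pushM N0 f τ q.1 q.2 := by
        rw [Finset.inf_image]
        refine Finset.inf_congr rfl fun q hq => ?_
        have h3 := pushM_app hi τ q.1 (hzf q hq).1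
        rw [(hzf q hq).2] at h3
        exact h3.symm
      have h3 := hτ.el (s.image fun q => (q.1, zf q)) (by rw [h2]; exact hs)
        (fun i => ((v i).1, zf (v i))) (fun i => Finset.mem_image_of_mem _ (hv i)) φ
      refine h3.trans ?_
      have h4 := hf.el φ (fun i => zf (v i)) fun i => (hzf _ (hv i)).1
      have h5 : (fun i => app f (zf (v i))) = fun i => (v i).2 := by
        funext i
        exact (hzf _ (hv i)).2
      rw [h5] at h4
      exact h4

end SF.H3
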