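import Pool.Agent.H3.SF.Tg3
import Pool.Agent.H62.HIL.Dim2
import Pool.Agent.H62.HIL.S2
import Pool.Agent.H96.SM.IRR

/-!
# MP_70ba79_ag, THEOREM S: row PIR: an irreducible smooth curve is a prime divisor of the
normalisation
-/

set_option autoImplicit false

namespace Pool.Agent.H3.SF

open MvPolynomial SC Pool.Agent.H27.LV
open Pool.Agent.H84.SM (dp cr dt)
open Pool.Agent.H92.SF
open Pool.Agent.H84.SF (Cor SmG SYd Cone Tng Os Rep Frm FraD Pnt T_OSF T_TAY T_TAK T_HMF T_CHM)
open Pool.Agent.H92.OD (HS)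

/-- PIR: `Q` is the radical of the ideal of the curve `G = 0` -/
def T_PIR : Prop := ∀ (k F σ : Type) [Field k] [IsAlgClosed k] [CharZero k] [Field F]
  [Algebra k F] [Fintype σ] [DecidableEq σ] (X : σ → F) (u : Fin 3 → F)
  (dd : Fin 3 → Derivation k F F) (δ j0 c0 : ℕ) (J : MvPolynomial (Fin 3) k),
  Sfc u dd δ j0 c0 J → Cor X u dd J → ∀ (m : ℕ) (G : MvPolynomial σ k), j0 < m →
  G.IsHomogeneous m → aeval X G ≠ 0 →
  (∀ s : σ → k, s ≠ 0 → Cone X s → eval s G = 0 → Module.finrank k (Tng X s G) ≤ 2) →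
  ∀ Q : Ideal (MvPolynomial σ k), Q.IsPrime →
  (∀ f, f ∈ Q ↔ ∃ (n : ℕ) (r : MvPolynomial σ k), aeval X (f ^ n) = aeval X (G * r)) →
  ∀ a b : F, Itg k u a → Itg k u b → Itg k u (a * b / aeval X G) →
  Itg k u (a / aeval X G) ∨ Itg k u (b / aeval X G)

section

variable {k F σ : Type} [Field k] [IsAlgClosed k] [CharZero k] [Field F] [Algebra k F]
  [Fintype σ] [DecidableEq σ] {X : σ → F} {u : Fin 3 → F} {dd : Fin 3 → Derivation k F F}
  {δ j0 c0 m : ℕ} {J : MvPolynomial (Fin 3) k} {G : MvPolynomial σ k}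

omit [Fintype σ] [DecidableEq σ] [IsAlgClosed k] [CharZero k] in
lemma pir_syd (hS : Sfc u dd δ j0 c0 J) (hX : Cor X u dd J) : SYd X u dd J j0 :=
  ⟨hS.ind, hS.du, hS.comm, hX.ulin, hX.Xint, hX.Xeu, hS.Jh, hS.J0, hX.JI, fun a l => hS.Jd l a⟩

omit [Fintype σ] [DecidableEq σ] [IsAlgClosed k] [CharZero k] in
lemma pir_hX (hX : Cor X u dd J) (i : σ) : Hm k (eu u dd) 1 (X i) := by
  unfold Hm
  rw [hX.Xeu i]
  push_cast
  rw [one_mul]

omit [Fintype σ] [DecidableEq σ] [IsAlgClosed k] [CharZero k] in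
lemma pir_lin (hS : Sfc u dd δ j0 c0 J) (hX : Cor X u dd J) :
    LinearIndependent F fun l => fun i => dd l (X i) := by
  rw [Fintype.linearIndependent_iff]
  intro g hg l
  have h0 : ∀ i, ∑ l, g l * dd l (X i) = 0 := by
    intro i
    have h := congrFun hg i
    simpa [Finset.sum_apply, Pi.smul_apply, smul_eq_mul] using h
  -- all combinations
  have h1 : ∀ f : MvPolynomial σ k, ∑ l, g l * dd l (aeval X f) = 0 := by
    intro f
    have h2 : (∑ l, g l • dd l : Derivation k F F) (aeval X f) = 0 := by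
      induction f using MvPolynomial.induction_on with
      | C a =>
        rw [algHom_C]
        exact Derivation.map_algebraMap _ _
      | add p q hp hq => rw [map_add, map_add, hp, hq, add_zero]
      | mul_X p i hp =>
        rw [map_mul, Derivation.leibniz, hp, smul_zero, add_zero, aeval_X]
        have h3 : (∑ l, g l • dd l : Derivation k F F) (X i) = 0 := by
          have h4 := h0 i
          rw [Fin.sum_univ_three] at h4
          rw [Fin.sum_univ_three]
          simpa [Derivation.add_apply, Derivation.smul_apply, smul_eq_mul] using h4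
        rw [h3, smul_zero]
    rw [Fin.sum_univ_three] at h2
    rw [Fin.sum_univ_three]
    simpa [Derivation.add_apply, Derivation.smul_apply, smul_eq_mul] using h2
  obtain ⟨U, -, hU⟩ := hX.ulin l
  have h2 := h1 U
  rw [hU] at h2
  have h3 : ∀ l' : Fin 3, g l' * dd l' (u l) = if l' = l then g l' else 0 := by
    intro l'
    rw [hS.du l' l]
    split_ifs <;> simp
  rw [Finset.sum_congr rfl fun l' _ => h3 l', Finset.sum_ite_eq' Finset.univ l] at h2
  simpa using h2

omit [IsAlgClosed k] in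
/-- at a point of the curve, elements of the radical are divisible by `G` -/
lemma pir_loc (hOSF : T_OSF) (hTAY : T_TAY) (hTAK : T_TAK) (hHMF : T_HMF)
    (hS : Sfc u dd δ j0 c0 J) (hX : Cor X u dd J) (hm : 1 ≤ m) (hG : G.IsHomogeneous m)
    (hG0 : aeval X G ≠ 0) (s : σ → k) (hs : s ≠ 0) (hC : Cone X s) (hGs : eval s G = 0)
    (hT : Module.finrank k (Tng X s G) ≤ 2) (f : MvPolynomial σ k) (t : ℕ)
    (hf : f.IsHomogeneous t) (n : ℕ) (r : MvPolynomial σ k)
    (hfr : aeval X (f ^ n) = aeval X (G * r)) :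
    ∃ b q : MvPolynomial σ k, eval s b ≠ 0 ∧ aeval X (b * f) = aeval X (G * q) := by
  by_cases hf0 : aeval X f = 0
  · refine ⟨1, 0, by rw [map_one]; exact one_ne_zero, ?_⟩
    rw [map_mul, hf0, mul_zero, mul_zero, map_zero]
  have hsyd := pir_syd hS hX
  have hlin := pir_lin hS hX
  obtain ⟨hN, L0, L1, cX, cG, ε, X1, Gs, dX, dG, hL0, hL1, hv0, hv1, hFr, hε, hX1, hGs1, hFrm,
    -, -⟩ := hOSF k F σ X s dd G m hC hs hlin hm hG hGs hT
  obtain ⟨c, hPnt, hcG, -⟩ := hTAY k (Os X s) ε X1 Gs dX dG hFrm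
  have hl0 : aeval X L0 ≠ 0 := fun h => hv0 (hC.pt L0 h)
  have ht : 1 ≤ t := by
    by_contra h
    have h0 : t = 0 := by omega
    subst h0
    obtain ⟨a, ha⟩ : ∃ a, f = C a := by
      refine ⟨f.coeff 0, ?_⟩
      exact (totalDegree_eq_zero_iff_eq_C).1 (by
        have := hf.totalDegree_le
        omega)
    have h1 : eval s (f ^ n - G * r) = 0 := hC.pt _ (by rw [map_sub, hfr, sub_self])
    rw [map_sub, map_mul, hGs, zero_mul, sub_zero, map_pow, ha, eval_C] at h1
    have h2 : a = 0 := (pow_eq_zero_iff (by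
      rintro rfl
      simp at h1)).1 h1
    apply hf0
    rw [ha, h2, map_zero, map_zero]
  -- a power of `f` with a homogeneous cofactor
  have hfH : Hm k (eu u dd) t (aeval X f) := Pool.Agent.H62.HIL.hm_aeval (pir_hX hX) hf
  have hGH : Hm k (eu u dd) m (aeval X G) := Pool.Agent.H62.HIL.hm_aeval (pir_hX hX) hG
  have hrH : Hm k (eu u dd) (((n + m) * t - m : ℕ) : ℤ) (aeval X (r * f ^ m)) := by
    have h1 : aeval X (r * f ^ m) = aeval X f ^ (n + m) / aeval X G := by
      rw [eq_div_iff hG0, map_mul, pow_add, ← map_pow (aeval X) f n, hfr, map_mul, map_pow]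
      ring
    rw [h1]
    have h2 := Pool.Agent.H62.HIL.hm_div (Pool.Agent.H62.HIL.hm_pow hfH (n + m)) hGH hG0
    have h3 : ((n + m : ℕ) : ℤ) * (t : ℤ) - (m : ℤ) = (((n + m) * t - m : ℕ) : ℤ) := by
      have h4 : m ≤ (n + m) * t := by nlinarith
      push_cast [Nat.cast_sub h4]
      ring
    rw [h3] at h2
    exact h2
  obtain ⟨r', hr'h, hr'⟩ := hHMF k F σ X u dd J j0 hsyd _ _
    (by
      rw [Algebra.adjoin_range_eq_range_aeval]
      exact ⟨r * f ^ m, rfl⟩) hrH
  have key : aeval X f ^ (n + m) = aeval X G * aeval X r' := by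
    rw [hr', map_mul, pow_add, ← map_pow (aeval X) f n, hfr, map_mul, map_pow]
    ring
  have hL0p : ∀ e : ℕ, (L0 ^ e).IsHomogeneous e := fun e => by
    have h1 := hL0.pow e
    rwa [one_mul] at h1
  have hq : ∀ (g : MvPolynomial σ k) (e : ℕ), g.IsHomogeneous e →
      aeval X g / aeval X L0 ^ e ∈ Os X s := by
    intro g e hg
    refine ⟨e, g, L0 ^ e, ⟨hg, hL0p e, ?_⟩, ?_⟩
    · rw [map_pow]
      exact div_mul_cancel₀ _ (pow_ne_zero _ hl0)
    · rw [map_pow]
      exact pow_ne_zero _ hv0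
  set z : Os X s := ⟨_, hq f t hf⟩ with hz
  set w : Os X s := ⟨_, hq r' _ hr'h⟩ with hw
  have hzw : z ^ (n + m) = Gs * w := by
    apply Subtype.ext
    change (aeval X f / aeval X L0 ^ t) ^ (n + m) =
      (Gs : F) * (aeval X r' / aeval X L0 ^ ((n + m) * t - m))
    have h1 : (Gs : F) = aeval X G / aeval X L0 ^ m := by
      rw [eq_div_iff (pow_ne_zero _ hl0)]
      exact hGs1
    rw [h1, div_pow, key, div_mul_div_comm, ← pow_mul, ← pow_add]
    congr 2
    have h4 : m ≤ (n + m) * t := by nlinarith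
    rw [Nat.add_sub_cancel' h4]
    ring
  have hcz : c z = 0 := by
    have h1 : c z ^ (n + m) = 0 := by
      rw [← map_pow, hzw, map_mul, hcG, zero_mul]
    exact (pow_eq_zero_iff (by omega)).1 h1
  obtain ⟨y, hy⟩ := hTAK k (Os X s) ε X1 Gs dX dG hFrm c hPnt hcG z hcz
  obtain ⟨e, a, b, ⟨ha, hb, hab⟩, hsb⟩ := y.2
  refine ⟨b * L0 ^ m, a * L0 ^ t, ?_, ?_⟩
  · rw [map_mul, map_pow]
    exact mul_ne_zero hsb (pow_ne_zero _ hv0)
  · have h1 : (z : F) = (Gs : F) * (y : F) := by rw [hy]; rfl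
    have h2 : (z : F) * aeval X L0 ^ t = aeval X f := div_mul_cancel₀ _ (pow_ne_zero _ hl0)
    rw [map_mul, map_mul, map_pow, map_mul, map_mul, map_pow, ← hab, ← h2, h1, ← hGs1]
    ring

/-- elements of the radical are divisible by `G` in the ring of integral elements -/
lemma pir_A (hOSF : T_OSF) (hTAY : T_TAY) (hTAK : T_TAK) (hHMF : T_HMF) (hCHM : T_CHM)
    (hS : Sfc u dd δ j0 c0 J) (hX : Cor X u dd J) (hm : 1 ≤ m) (hG : G.IsHomogeneous m)
    (hG0 : aeval X G ≠ 0)
    (hT : ∀ s : σ → k, s ≠ 0 → Cone X s → eval s G = 0 → Module.finrank k (Tng X s G) ≤ 2)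
    (f : MvPolynomial σ k) (t : ℕ) (hf : f.IsHomogeneous t) (n : ℕ) (r : MvPolynomial σ k)
    (hfr : aeval X (f ^ n) = aeval X (G * r)) : Itg k u (aeval X f / aeval X G) := by
  set A : Ideal (MvPolynomial σ k) :=
    { carrier := {p | ∃ q, aeval X (p * f) = aeval X (G * q)}
      add_mem' := by
        rintro a b ⟨q1, h1⟩ ⟨q2, h2⟩
        exact ⟨q1 + q2, by rw [add_mul, map_add, h1, h2, mul_add, map_add]⟩
      zero_mem' := ⟨0, by rw [zero_mul, mul_zero]⟩
      smul_mem' := by
        rintro c a ⟨q, h⟩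
        refine ⟨c * q, ?_⟩
        rw [smul_eq_mul, mul_assoc, map_mul, h, ← map_mul]
        congr 1
        ring } with hA
  have hAm : ∀ p, p ∈ A ↔ ∃ q, aeval X (p * f) = aeval X (G * q) := fun p => Iff.rfl
  have hz : ∀ s ∈ zeroLocus k A, s = 0 := by
    intro s hs
    by_contra hs0
    rw [mem_zeroLocus_iff] at hs
    have hC : Cone X s := by
      refine hCHM k F σ X u dd J j0 (pir_syd hS hX) s fun g hg => ?_
      have h1 : g ∈ A := by
        rw [hAm]
        exact ⟨0, by rw [map_mul, hg, zero_mul, mul_zero, map_zero]⟩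
      have h2 := hs g h1
      rwa [aeval_eq_eval] at h2
    have hGs : eval s G = 0 := by
      have h1 : G ∈ A := by
        rw [hAm]
        exact ⟨f, rfl⟩
      have h2 := hs G h1
      rwa [aeval_eq_eval] at h2
    obtain ⟨b, q, hb, hbq⟩ := pir_loc hOSF hTAY hTAK hHMF hS hX hm hG hG0 s hs0 hC hGs
      (hT s hs0 hC hGs) f t hf n r hfr
    apply hb
    have h1 : b ∈ A := by
      rw [hAm]
      exact ⟨q, hbq⟩
    have h2 := hs b h1
    rwa [aeval_eq_eval] at h2
  have hu : ∀ l : Fin 3, ∃ N : ℕ, Itg k u (u l ^ N * (aeval X f / aeval X G)) := by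
    intro l
    obtain ⟨U, hU1, hU⟩ := hX.ulin l
    have h1 : U ∈ A.radical := by
      rw [← vanishingIdeal_zeroLocus_eq_radical (K := k), mem_vanishingIdeal_iff]
      intro s hs
      rw [hz s hs, aeval_eq_eval]
      rw [eval_zero, constantCoeff_eq]
      exact hU1.coeff_eq_zero (by simp)
    obtain ⟨N, q, hq⟩ := h1
    refine ⟨N, ?_⟩
    have h3 : u l ^ N * (aeval X f / aeval X G) = aeval X q := by
      rw [mul_div_assoc', div_eq_iff hG0, ← hU, ← map_pow, ← map_mul, hq, map_mul, mul_comm]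
    rw [h3]
    -- values of polynomials in `X` are integral
    have h4 : ∀ q : MvPolynomial σ k, aeval X q ∈ Bb k u := by
      intro q
      induction q using MvPolynomial.induction_on with
      | C a =>
        rw [algHom_C]
        exact (Bb k u).algebraMap_mem a
      | add p q hp hq =>
        rw [map_add]
        exact (Bb k u).add_mem hp hq
      | mul_X p i hp =>
        rw [map_mul, aeval_X]
        exact (Bb k u).mul_mem hp (hX.Xint i)
    exact h4 q
  obtain ⟨M, hM⟩ := hu 0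
  obtain ⟨N, hN⟩ := hu 1
  exact Pool.Agent.H62.HIL.itg_iff.2 (Pool.Agent.H62.HIL.s2 hS.ind (i := 0) (j := 1)
    (by decide) M N (Pool.Agent.H62.HIL.itg_iff.1 hM) (Pool.Agent.H62.HIL.itg_iff.1 hN))

omit [IsAlgClosed k] [CharZero k] [Fintype σ] [DecidableEq σ] in
/-- integral quotients -/
lemma pir_C (hX : Cor X u dd J) (hG0 : aeval X G ≠ 0) (y : MvPolynomial σ k)
    (h : Itg k u (aeval X y / aeval X G)) :
    ∃ (n : ℕ) (r : MvPolynomial σ k), aeval X (y ^ n) = aeval X (G * r) := by
  obtain ⟨p, hp, hpy⟩ := h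
  choose U hU1 hU using hX.ulin
  refine ⟨p.natDegree, -∑ i ∈ Finset.range p.natDegree,
    aeval U (p.coeff i) * y ^ i * G ^ (p.natDegree - i - 1), ?_⟩
  have hau : ∀ q : MvPolynomial (Fin 3) k, aeval X (aeval U q) = aeval u q := by
    intro q
    rw [← AlgHom.comp_apply]
    congr 1
    refine MvPolynomial.algHom_ext fun l => ?_
    rw [AlgHom.comp_apply, aeval_X, aeval_X, hU]
  rw [Polynomial.eval₂_eq_sum_range, Finset.sum_range_succ, hp.coeff_natDegree, map_one,
    one_mul] at hpy
  have h1 : (aeval X y) ^ p.natDegree = -∑ i ∈ Finset.range p.natDegree,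
      aeval u (p.coeff i) * (aeval X y) ^ i * (aeval X G) ^ (p.natDegree - i) := by
    have h2 := congrArg (fun z => z * (aeval X G) ^ p.natDegree) hpy
    simp only [zero_mul, add_mul, Finset.sum_mul] at h2
    have h3 : (aeval X y / aeval X G) ^ p.natDegree * aeval X G ^ p.natDegree =
        aeval X y ^ p.natDegree := by
      rw [← mul_pow, div_mul_cancel₀ _ hG0]
    rw [h3] at h2
    rw [← Finset.sum_neg_distrib]
    have h4 : ∀ i ∈ Finset.range p.natDegree,
        (((aeval u : MvPolynomial (Fin 3) k →ₐ[k] F) : MvPolynomial (Fin 3) k →+* F)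
          (p.coeff i)) * (aeval X y / aeval X G) ^ i * aeval X G ^ p.natDegree =
        aeval u (p.coeff i) * (aeval X y) ^ i * (aeval X G) ^ (p.natDegree - i) := by
      intro i hi
      have hi' : i ≤ p.natDegree := (Finset.mem_range.1 hi).le
      have h5 : aeval X G ^ p.natDegree = aeval X G ^ i * aeval X G ^ (p.natDegree - i) := by
        rw [← pow_add, Nat.add_sub_cancel' hi']
      rw [h5, div_pow]
      have h6 : aeval X G ^ i ≠ 0 := pow_ne_zero _ hG0
      change aeval u (p.coeff i) * _ * _ = _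
      field_simp
    rw [Finset.sum_congr rfl h4] at h2
    rw [Finset.sum_neg_distrib]
    linear_combination h2
  rw [map_pow, h1, map_mul, map_neg, map_sum, mul_neg, Finset.mul_sum]
  congr 1
  refine Finset.sum_congr rfl fun i hi => ?_
  have hi' : i < p.natDegree := Finset.mem_range.1 hi
  rw [map_mul, map_mul, map_pow, map_pow, hau]
  have h5 : aeval X G ^ (p.natDegree - i) = aeval X G ^ (p.natDegree - i - 1) * aeval X G := by
    rw [← pow_succ]
    congr 1
    omega
  rw [h5]
  ring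

/-- homogeneous elements: if `J a` is in the radical then `a` is divisible by `G` -/
lemma pir_F (hOSF : T_OSF) (hTAY : T_TAY) (hTAK : T_TAK) (hHMF : T_HMF) (hCHM : T_CHM)
    (hNGD : T_NGD) (hNDV : T_NDV) (hHd : Hd k u (eu u dd) δ)
    (hS : Sfc u dd δ j0 c0 J) (hX : Cor X u dd J) (hm : j0 < m) (hG : G.IsHomogeneous m)
    (hG0 : aeval X G ≠ 0)
    (hT : ∀ s : σ → k, s ≠ 0 → Cone X s → eval s G = 0 → Module.finrank k (Tng X s G) ≤ 2)
    (Q : Ideal (MvPolynomial σ k)) (hQ : Q.IsPrime)
    (hQm : ∀ f, f ∈ Q ↔ ∃ (n : ℕ) (r : MvPolynomial σ k), aeval X (f ^ n) = aeval X (G * r))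
    (a : F) (ha : Itg k u a) (f : MvPolynomial σ k) (t : ℕ) (hf : f.IsHomogeneous t)
    (hfa : aeval X f = aeval u J * a) (hfQ : f ∈ Q) : Itg k u (a / aeval X G) := by
  have hA : ∀ (f : MvPolynomial σ k) (t : ℕ), f.IsHomogeneous t → f ∈ Q →
      Itg k u (aeval X f / aeval X G) := by
    intro f t hf hfQ
    obtain ⟨n, r, h⟩ := (hQm f).1 hfQ
    exact pir_A hOSF hTAY hTAK hHMF hCHM hS hX (by omega) hG hG0 hT f t hf n r h
  choose U hU1 hU using hX.ulin
  have hau : ∀ q : MvPolynomial (Fin 3) k, aeval X (aeval U q) = aeval u q := by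
    intro q
    rw [← AlgHom.comp_apply]
    congr 1
    refine MvPolynomial.algHom_ext fun l => ?_
    rw [AlgHom.comp_apply, aeval_X, aeval_X, hU]
  have hUh : ∀ (q : MvPolynomial (Fin 3) k) (e : ℕ), q.IsHomogeneous e →
      (aeval U q).IsHomogeneous e := by
    intro q e hq
    have h1 := hq.aeval U hU1
    rwa [one_mul] at h1
  have hGH : Hm k (eu u dd) m (aeval X G) := Pool.Agent.H62.HIL.hm_aeval (pir_hX hX) hG
  have hGI : Itg k u (aeval X G) := by
    have h4 : ∀ q : MvPolynomial σ k, aeval X q ∈ Bb k u := by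
      intro q
      induction q using MvPolynomial.induction_on with
      | C a =>
        rw [algHom_C]
        exact (Bb k u).algebraMap_mem a
      | add p q hp hq =>
        rw [map_add]
        exact (Bb k u).add_mem hp hq
      | mul_X p i hp =>
        rw [map_mul, aeval_X]
        exact (Bb k u).mul_mem hp (hX.Xint i)
    exact h4 G
  -- `J` is not in the radical
  have hJQ : aeval U J ∉ Q := by
    intro h
    have h1 := hA _ j0 (hUh J j0 hS.Jh) h
    rw [hau] at h1
    have hJH : Hm k (eu u dd) j0 (aeval u J) := by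
      refine Pool.Agent.H62.HIL.hm_aeval (fun i => ?_) hS.Jh
      unfold Hm
      rw [hHd.eul i]
      push_cast
      rw [one_mul]
    have h2 := Pool.Agent.H62.HIL.hm_div hJH hGH hG0
    have h3 := (hNGD k F 3 δ u (eu u dd) hHd).1 _ _ (by omega) h1 h2
    rw [div_eq_zero_iff] at h3
    rcases h3 with h3 | h3
    · exact hS.J0 ((map_eq_zero_iff (aeval u) hS.ind).1 h3)
    · exact hG0 h3
  -- the norm of `G`
  obtain ⟨N, hNh, hNn, hN0⟩ := (hNGD k F 3 δ u (eu u dd) hHd).2 m (aeval X G) hGI hGH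
  have hN0 := hN0 hG0
  have hNI : Itg k u (aeval u N / aeval X G) := by
    rw [← hNn]
    exact hNDV k F 3 δ u (eu u dd) hHd (aeval X G) hG0 hGI
  have hNQ : aeval U N ∈ Q := by
    rw [hQm]
    refine pir_C hX hG0 _ ?_
    rw [hau]
    exact hNI
  obtain ⟨fs, hfs, hfN⟩ := UniqueFactorizationMonoid.exists_prime_factors N hN0
  obtain ⟨c, hc⟩ := hfN
  set Q' : Ideal (MvPolynomial (Fin 3) k) := Q.comap (aeval U) with hQ'
  have hQp : Q'.IsPrime := Ideal.comap_isPrime _ _
  have hNQ' : fs.prod ∈ Q' := by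
    have h1 : N ∈ Q' := hNQ
    rw [← hc] at h1
    rcases hQp.mem_or_mem h1 with h2 | h2
    · exact h2
    · exact absurd (Ideal.eq_top_of_isUnit_mem _ h2 c.isUnit) hQp.ne_top
  obtain ⟨g, hgf, hgQ⟩ := (hQp.multiset_prod_mem_iff_exists_mem fs).1 hNQ'
  have hgp := hfs g hgf
  obtain ⟨e, he⟩ : ∃ e, g.IsHomogeneous e := by
    obtain ⟨q, hq⟩ := Multiset.dvd_prod hgf
    rw [hq, mul_assoc] at hc
    rw [← hc] at hNh hN0
    obtain ⟨b, -, -, h1, -⟩ := Pool.Agent.H96.SM.homog_mul hNh hgp.ne_zero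
      (right_ne_zero_of_mul hN0)
    exact ⟨b, h1⟩
  have hgI : Itg k u (aeval u g / aeval X G) := by
    have h1 := hA _ e (hUh g e he) hgQ
    rwa [hau] at h1
  have hrel : IsRelPrime J g := by
    rw [isRelPrime_comm, hgp.irreducible.isRelPrime_iff_not_dvd]
    rintro ⟨q, hq⟩
    apply hJQ
    rw [hq, map_mul]
    exact Q.mul_mem_right _ hgQ
  have h1 : Itg k u (aeval u J * (a / aeval X G)) := by
    have h2 := hA f t hf hfQ
    rwa [hfa, mul_div_assoc] at h2
  have h2 : Itg k u (aeval u g * (a / aeval X G)) := by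
    have h3 : aeval u g * (a / aeval X G) = a * (aeval u g / aeval X G) := by ring
    rw [h3]
    exact (Bb k u).mul_mem ha hgI
  exact Pool.Agent.H62.HIL.itg_iff.2 (Pool.Agent.H62.HIL.itg_of_isRelPrime hS.ind hS.J0
    hgp.ne_zero hrel (Pool.Agent.H62.HIL.itg_iff.1 h1) (Pool.Agent.H62.HIL.itg_iff.1 h2))

/-- reduction to homogeneous elements -/
lemma pir_H {k F : Type} [Field k] [CharZero k] [Field F] [Algebra k F] {u : Fin 3 → F}
    (E : Derivation k F F) (g : F) (m : ℤ) (hg0 : g ≠ 0) (hg : Hm k E m g)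
    (hgrd : ∀ a, Itg k u a → a ∈ ⨆ t : ℤ, BB k u E t)
    (h : ∀ (s t : ℤ) (a b : F), Itg k u a → Itg k u b → Hm k E s a → Hm k E t b →
      Itg k u (a * b / g) → Itg k u (a / g) ∨ Itg k u (b / g)) :
    ∀ a b : F, Itg k u a → Itg k u b → Itg k u (a * b / g) → Itg k u (a / g) ∨
      Itg k u (b / g) := by
  classical
  have : CharZero F := charZero_of_injective_algebraMap (algebraMap k F).injective
  have key : ∀ (n : ℕ) (f1 f2 : ℤ →₀ F), f1.support.card + f2.support.card = n →
      (∀ i, f1 i ∈ BB k u E i) → (∀ i, f2 i ∈ BB k u E i) →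
      Itg k u ((f1.sum fun _ x => x) * (f2.sum fun _ x => x) / g) →
      Itg k u ((f1.sum fun _ x => x) / g) ∨ Itg k u ((f2.sum fun _ x => x) / g) := by
    intro n
    induction n using Nat.strong_induction_on with
    | _ n ih =>
    intro f1 f2 hn h1 h2 h3
    by_cases e1 : f1.support = ∅
    · left
      rw [Finsupp.support_eq_empty.1 e1, Finsupp.sum_zero_index, zero_div]
      exact (Bb k u).zero_mem
    by_cases e2 : f2.support = ∅
    · right
      rw [Finsupp.support_eq_empty.1 e2, Finsupp.sum_zero_index, zero_div]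
      exact (Bb k u).zero_mem
    have n1 := Finset.nonempty_iff_ne_empty.2 e1
    have n2 := Finset.nonempty_iff_ne_empty.2 e2
    set i1 := f1.support.max' n1 with hi1
    set i2 := f2.support.max' n2 with hi2
    have m1 : i1 ∈ f1.support := Finset.max'_mem _ _
    have m2 : i2 ∈ f2.support := Finset.max'_mem _ _
    -- the top component
    have htop : Itg k u (f1 i1 * f2 i2 / g) := by
      obtain ⟨c, hc, hcs⟩ := (Submodule.mem_iSup_iff_exists_finsupp _ _).1 (hgrd _ h3)
      set P := f1.support ×ˢ f2.support with hP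
      set D : Finset ℤ := P.image (fun p => p.1 + p.2) ∪ c.support.image (fun n => n + m) with hD
      have hz : ∑ d ∈ D, ((∑ p ∈ P with p.1 + p.2 = d, f1 p.1 * f2 p.2) - g * c (d - m)) = 0 := by
        rw [Finset.sum_sub_distrib]
        have a1 : ∑ d ∈ D, ∑ p ∈ P with p.1 + p.2 = d, f1 p.1 * f2 p.2 =
            (f1.sum fun _ x => x) * (f2.sum fun _ x => x) := by
          rw [Finset.sum_fiberwise_of_maps_to (fun p hp => Finset.mem_union_left _
            (Finset.mem_image_of_mem _ hp)), Finsupp.sum, Finsupp.sum, Finset.sum_mul_sum,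
            ← Finset.sum_product']
        have a2 : ∑ d ∈ D, g * c (d - m) = g * (c.sum fun _ x => x) := by
          rw [← Finset.mul_sum, Finsupp.sum]
          congr 1
          rw [← Finset.sum_subset (Finset.subset_union_right :
            c.support.image (fun n => n + m) ⊆ D)]
          · rw [Finset.sum_image (fun a _ b _ hab => by simpa using hab)]
            refine Finset.sum_congr rfl fun n _ => ?_
            rw [add_sub_cancel_right]
          · intro d _ hd
            by_contra h0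
            exact hd (Finset.mem_image.2 ⟨d - m, Finsupp.mem_support_iff.2 h0, by ring⟩)
        rw [a1, a2, hcs]
        rw [mul_div_cancel₀ _ hg0, sub_self]
      have hHm : ∀ d ∈ D, Hm k E d ((∑ p ∈ P with p.1 + p.2 = d, f1 p.1 * f2 p.2) -
          g * c (d - m)) := by
        intro d _
        refine Pool.Agent.H62.HIL.hm_sub (Pool.Agent.H62.HIL.hm_sum _ _ fun p hp => ?_) ?_
        · have h4 := (Finset.mem_filter.1 hp).2
          rw [← h4]
          exact Pool.Agent.H62.HIL.hm_mul (h1 p.1).2 (h2 p.2).2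
        · have h4 := Pool.Agent.H62.HIL.hm_mul hg (hc (d - m)).2
          rwa [add_sub_cancel] at h4
      have hd0 := Pool.Agent.H62.HIL.hm_sum_eq_zero D (fun d => d) (fun a _ b _ hab => hab) _ hHm
        hz (i1 + i2) (Finset.mem_union_left _ (Finset.mem_image.2 ⟨(i1, i2),
          Finset.mem_product.2 ⟨m1, m2⟩, rfl⟩))
      have hfl : (P.filter fun p => p.1 + p.2 = i1 + i2) = {(i1, i2)} := by
        ext p
        rw [Finset.mem_filter, Finset.mem_singleton]
        constructor
        · rintro ⟨hp, hs⟩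
          obtain ⟨q1, q2⟩ := Finset.mem_product.1 hp
          have l1 := Finset.le_max' _ _ q1
          have l2 := Finset.le_max' _ _ q2
          rw [← hi1] at l1
          rw [← hi2] at l2
          exact Prod.ext (by omega) (by omega)
        · rintro rfl
          exact ⟨Finset.mem_product.2 ⟨m1, m2⟩, rfl⟩
      rw [hfl, Finset.sum_singleton, sub_eq_zero] at hd0
      change f1 i1 * f2 i2 = _ at hd0
      rw [hd0, mul_div_cancel_left₀ _ hg0]
      exact (hc _).1
    have hsplit : ∀ (f : ℤ →₀ F) (i : ℤ), (f.sum fun _ x => x) =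
        f i + ((f.erase i).sum fun _ x => x) := fun f i => by
      by_cases hi : i ∈ f.support
      · exact (Finsupp.add_sum_erase' f i (fun _ x => x) (fun _ => rfl)).symm
      · rw [Finsupp.erase_of_notMem_support hi, Finsupp.notMem_support_iff.1 hi, zero_add]
    have herase : ∀ (f : ℤ →₀ F) (i : ℤ), (∀ j, f j ∈ BB k u E j) →
        ∀ j, f.erase i j ∈ BB k u E j := by
      intro f i hf j
      by_cases hj : j = i
      · rw [hj, Finsupp.erase_same]
        exact Submodule.zero_mem _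
      · rw [Finsupp.erase_ne hj]
        exact hf j
    have hsumI : ∀ f : ℤ →₀ F, (∀ j, f j ∈ BB k u E j) → Itg k u (f.sum fun _ x => x) := by
      intro f hf
      exact (Bb k u).sum_mem fun j _ => (hf j).1
    rcases h i1 i2 _ _ (h1 i1).1 (h2 i2).1 (h1 i1).2 (h2 i2).2 htop with h4 | h4
    · have h5 := ih ((f1.erase i1).support.card + f2.support.card) (by
        rw [Finsupp.support_erase, Finset.card_erase_of_mem m1]
        have := Finset.card_pos.2 n1
        omega) (f1.erase i1) f2 rfl (herase f1 i1 h1) h2 (by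
          have h6 : ((f1.erase i1).sum fun _ x => x) * (f2.sum fun _ x => x) / g =
              (f1.sum fun _ x => x) * (f2.sum fun _ x => x) / g -
                (f1 i1 / g) * (f2.sum fun _ x => x) := by
            rw [hsplit f1 i1]
            ring
          rw [h6]
          exact (Bb k u).sub_mem h3 ((Bb k u).mul_mem h4 (hsumI f2 h2)))
      rcases h5 with h5 | h5
      · left
        rw [hsplit f1 i1, add_div]
        exact (Bb k u).add_mem h4 h5
      · exact Or.inr h5
    · have h5 := ih (f1.support.card + (f2.erase i2).support.card) (by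
        rw [Finsupp.support_erase, Finset.card_erase_of_mem m2]
        have := Finset.card_pos.2 n2
        omega) f1 (f2.erase i2) rfl h1 (herase f2 i2 h2) (by
          have h6 : (f1.sum fun _ x => x) * ((f2.erase i2).sum fun _ x => x) / g =
              (f1.sum fun _ x => x) * (f2.sum fun _ x => x) / g -
                (f1.sum fun _ x => x) * (f2 i2 / g) := by
            rw [hsplit f2 i2]
            ring
          rw [h6]
          exact (Bb k u).sub_mem h3 ((Bb k u).mul_mem (hsumI f1 h1) h4))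
      rcases h5 with h5 | h5
      · exact Or.inl h5
      · right
        rw [hsplit f2 i2, add_div]
        exact (Bb k u).add_mem h4 h5
  intro a b ha hb hab
  obtain ⟨f1, h1, e1⟩ := (Submodule.mem_iSup_iff_exists_finsupp _ _).1 (hgrd _ ha)
  obtain ⟨f2, h2, e2⟩ := (Submodule.mem_iSup_iff_exists_finsupp _ _).1 (hgrd _ hb)
  have h3 := key _ f1 f2 rfl h1 h2 (by rw [e1, e2]; exact hab)
  rwa [e1, e2] at h3

end

theorem pf_PIR (hOSF : T_OSF) (hTAY : T_TAY) (hTAK : T_TAK) (hHMF : T_HMF) (hCHM : T_CHM)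
    (hNGD : T_NGD) (hNDV : T_NDV) (hSF1 : T_SF1) : T_PIR := by
  intro k F σ _ _ _ _ _ _ _ X u dd δ j0 c0 J hS hX m G hm hG hG0 hT Q hQ hQm
  have hHd := (hSF1 k F u dd δ j0 c0 J hS).1
  have hGH : Hm k (eu u dd) m (aeval X G) := Pool.Agent.H62.HIL.hm_aeval (pir_hX hX) hG
  have hJH : Hm k (eu u dd) j0 (aeval u J) := by
    refine Pool.Agent.H62.HIL.hm_aeval (fun i => ?_) hS.Jh
    unfold Hm
    rw [hHd.eul i]
    push_cast
    rw [one_mul]
  have hJI : Itg k u (aeval u J) := (hSF1 k F u dd δ j0 c0 J hS).2.2.1 J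
  refine pir_H (eu u dd) (aeval X G) m hG0 hGH hS.grd ?_
  intro s t a b ha hb hsa htb hab
  have hform : ∀ (s : ℤ) (a : F), Itg k u a → Hm k (eu u dd) s a →
      ∃ (e : ℕ) (f : MvPolynomial σ k), f.IsHomogeneous e ∧ aeval X f = aeval u J * a := by
    intro s a ha hs
    by_cases hs0 : s < 0
    · have h0 := (hNGD k F 3 δ u (eu u dd) hHd).1 s a hs0 ha hs
      exact ⟨0, 0, isHomogeneous_zero _ _ _, by rw [h0, mul_zero, map_zero]⟩
    · obtain ⟨e, rfl⟩ := Int.eq_ofNat_of_zero_le (not_lt.1 hs0)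
      obtain ⟨f, hf, hfa⟩ := hHMF k F σ X u dd J j0 (pir_syd hS hX) (aeval u J * a) (j0 + e)
        (hX.JI a ha) (by
          have h1 := Pool.Agent.H62.HIL.hm_mul hJH hs
          push_cast
          exact h1)
      exact ⟨_, f, hf, hfa⟩
  obtain ⟨e1, f1, hf1, hfa1⟩ := hform s a ha hsa
  obtain ⟨e2, f2, hf2, hfa2⟩ := hform t b hb htb
  have h1 : f1 * f2 ∈ Q := by
    rw [hQm]
    refine pir_C hX hG0 _ ?_
    rw [map_mul, hfa1, hfa2]
    have h2 : aeval u J * a * (aeval u J * b) / aeval X G =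
        aeval u J * aeval u J * (a * b / aeval X G) := by ring
    rw [h2]
    exact (Bb k u).mul_mem ((Bb k u).mul_mem hJI hJI) hab
  rcases hQ.mem_or_mem h1 with h2 | h2
  · exact Or.inl (pir_F hOSF hTAY hTAK hHMF hCHM hNGD hNDV hHd hS hX hm hG hG0 hT Q hQ hQm a ha
      f1 e1 hf1 hfa1 h2)
  · exact Or.inr (pir_F hOSF hTAY hTAK hHMF hCHM hNGD hNDV hHd hS hX hm hG hG0 hT Q hQ hQm b hb
      f2 e2 hf2 hfa2 h2)

end Pool.Agent.H3.SF
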