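import Pool.Agent.H9.SF.QDefs

/-! Part Q, module QA: the two-step algebra and its embedding. -/

set_option linter.unusedVariables false

open Ordinal Cardinal Order Set
open scoped ZFSet

namespace SF.H3.QA

open SF

theorem pair_mem_qS {B mu b ξ : V} : ZFSet.pair b ξ ∈ qS B mu ↔ b ∈ pos B ∧ ξ ∈ mu := by
  unfold qS
  exact ZFSet.pair_mem_prod

theorem mem_pos {B b : V} : b ∈ pos B ↔ b ∈ B ∧ b ≠ ∅ := by
  unfold pos
  rw [ZFSet.mem_sdiff, ZFSet.mem_singleton]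

theorem pair_mem_qR {B mu ρ b ξ b1 ξ1 : V} :
    ZFSet.pair (ZFSet.pair b ξ) (ZFSet.pair b1 ξ1) ∈ qR B mu ρ ↔
      (b ∈ pos B ∧ ξ ∈ mu) ∧ (b1 ∈ pos B ∧ ξ1 ∈ mu) ∧ b ⊆ b1 ∧
        b ⊆ app ρ (ZFSet.pair ξ ξ1) := by
  unfold qR
  rw [ZFSet.mem_sep, ZFSet.pair_mem_prod, pair_mem_qS, pair_mem_qS]
  simp only [fst_pair, snd_pair]
  tauto

theorem leQ_left {B mu ρ p q : V} (h : leQ B mu ρ p q) : p ∈ qS B mu :=
  (ZFSet.pair_mem_prod.1 (ZFSet.mem_sep.1 h).1).1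

theorem leQ_right {B mu ρ p q : V} (h : leQ B mu ρ p q) : q ∈ qS B mu :=
  (ZFSet.pair_mem_prod.1 (ZFSet.mem_sep.1 h).1).2

theorem leQ_refl {B mu ρ : V} (hP : BPre B mu ρ) {p : V} (hp : p ∈ qS B mu) :
    leQ B mu ρ p p := by
  obtain ⟨b, hb, ξ, hξ, rfl⟩ := ZFSet.mem_prod.1 hp
  exact pair_mem_qR.2 ⟨⟨hb, hξ⟩, ⟨hb, hξ⟩, fun _ h => h, hP.refl ξ hξ b (mem_pos.1 hb).1⟩

theorem leQ_trans {B mu ρ : V} (hP : BPre B mu ρ) {p q r : V} (h1 : leQ B mu ρ p q)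
    (h2 : leQ B mu ρ q r) : leQ B mu ρ p r := by
  obtain ⟨b, hb, ξ, hξ, rfl⟩ := ZFSet.mem_prod.1 (leQ_left h1)
  obtain ⟨b1, hb1, ξ1, hξ1, rfl⟩ := ZFSet.mem_prod.1 (leQ_left h2)
  obtain ⟨b2, hb2, ξ2, hξ2, rfl⟩ := ZFSet.mem_prod.1 (leQ_right h2)
  obtain ⟨-, -, h3, h4⟩ := pair_mem_qR.1 h1
  obtain ⟨-, -, h5, h6⟩ := pair_mem_qR.1 h2
  refine pair_mem_qR.2 ⟨⟨hb, hξ⟩, ⟨hb2, hξ2⟩, fun z hz => h5 (h3 hz), fun z hz => ?_⟩
  exact hP.trans ξ hξ ξ1 hξ1 ξ2 hξ2 (ZFSet.mem_inter.2 ⟨h4 hz, h6 (h3 hz)⟩)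

theorem part1 {B mu ρ : V} (h0 : ∅ ∈ B) (hB : B ≠ {∅}) (hP : BPre B mu ρ) :
    IsPo (qS B mu) (qR B mu ρ) := by
  have hne : ∃ b, b ∈ pos B := by
    by_contra hcon
    push Not at hcon
    apply hB
    ext z
    rw [ZFSet.mem_singleton]
    constructor
    · intro hz
      by_contra hz2
      exact hcon z (mem_pos.2 ⟨hz, hz2⟩)
    · rintro rfl
      exact h0
  obtain ⟨b, hb⟩ := hne
  obtain ⟨ξ, hξ⟩ := hP.ne
  refine ⟨⟨_, pair_mem_qS.2 ⟨hb, hξ⟩⟩, ?_, ?_, ?_⟩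
  · intro z hz
    exact ZFSet.mem_prod.1 (ZFSet.mem_sep.1 hz).1
  · intro p hp
    exact leQ_refl hP hp
  · intro p q s h1 h2
    exact leQ_trans hP h1 h2

section

variable {A : BA} {mu ρ : V}

theorem El.ne_bot {B : V} [IsCBA B] {x : El B} : x ≠ ⊥ ↔ x.val ≠ ∅ := by
  constructor
  · intro h h1
    apply h
    apply El.ext
    rw [h1, El.bot_val]
  · rintro h rfl
    exact h El.bot_val

theorem val_mem_pos {B : V} [IsCBA B] {x : El B} (h : x ≠ ⊥) : x.val ∈ pos B :=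
  mem_pos.2 ⟨x.mem, El.ne_bot.1 h⟩

/-- an element of the algebra -/
def mk' {B b : V} (h : b ∈ pos B) : El B := ⟨b, (mem_pos.1 h).1⟩

theorem mk'_ne {B b : V} [IsCBA B] (h : b ∈ pos B) : mk' h ≠ ⊥ := El.ne_bot.2 (mem_pos.1 h).2

theorem sub_of_pair {b ξ x : V} : ZFSet.pair b ξ ∈ kS A.B mu x ↔
    (b ∈ pos A.B ∧ ξ ∈ mu) ∧ b ⊆ x := by
  unfold kS
  rw [ZFSet.mem_sep, pair_mem_qS, fst_pair]

/-- the smaller condition `(b ⊓ x, ξ)` -/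
theorem ext_cond (hP : BPre A.B mu ρ) {b : El A.B} {ξ : V} (hξ : ξ ∈ mu) {x : El A.B}
    (hx : x ≠ ⊥) (hb : x ≤ b) : leQ A.B mu ρ (ZFSet.pair x.val ξ) (ZFSet.pair b.val ξ) := by
  have hb0 : b ≠ ⊥ := by
    rintro rfl
    exact hx (le_bot_iff.1 hb)
  exact pair_mem_qR.2 ⟨⟨val_mem_pos hx, hξ⟩, ⟨val_mem_pos hb0, hξ⟩, El.le_iff.1 hb,
    hP.refl ξ hξ x.val x.mem⟩

theorem kS_mem (hP : BPre A.B mu ρ) (b : El A.B) :
    kS A.B mu b.val ∈ RO (qS A.B mu) (leQ A.B mu ρ) := by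
  refine mem_RO.2 ⟨fun z hz => (ZFSet.mem_sep.1 hz).1, ?_, ?_⟩
  · intro p hp q hq hqp
    obtain ⟨b1, hb1, ξ1, hξ1, rfl⟩ := ZFSet.mem_prod.1 (ZFSet.mem_sep.1 hp).1
    obtain ⟨b2, hb2, ξ2, hξ2, rfl⟩ := ZFSet.mem_prod.1 hq
    obtain ⟨-, -, h1, h2⟩ := pair_mem_qR.1 hqp
    exact sub_of_pair.2 ⟨⟨hb2, hξ2⟩, fun z hz => (sub_of_pair.1 hp).2 (h1 hz)⟩
  · intro p hp h
    obtain ⟨b1, hb1, ξ1, hξ1, rfl⟩ := ZFSet.mem_prod.1 hp
    refine sub_of_pair.2 ⟨⟨hb1, hξ1⟩, ?_⟩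
    by_contra hcon
    have h1 : ¬ mk' hb1 ≤ b := fun h => hcon (El.le_iff.1 h)
    have h2 : mk' hb1 \ b ≠ ⊥ := fun h => h1 (sdiff_eq_bot_iff.1 h)
    have h3 := ext_cond (b := mk' hb1) hP hξ1 h2 sdiff_le
    obtain ⟨r, hr, hr2⟩ := h _ (leQ_left h3) h3
    obtain ⟨b2, hb2, ξ2, hξ2, rfl⟩ := ZFSet.mem_prod.1 (ZFSet.mem_sep.1 hr).1
    have h4 : mk' hb2 ≤ mk' hb1 \ b := El.le_iff.2 (pair_mem_qR.1 hr2).2.2.1
    have h5 : mk' hb2 ≤ b := El.le_iff.2 (sub_of_pair.1 hr).2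
    have h6 : mk' hb2 ≤ ⊥ := by
      have h7 := le_inf h4 h5
      rwa [inf_sdiff_self_left] at h7
    exact mk'_ne hb2 (le_bot_iff.1 h6)

theorem isCBA_R (hP : BPre A.B mu ρ) : IsCBA (RO (qS A.B mu) (leQ A.B mu ρ)) :=
  isCBA_RO (fun p hp => leQ_refl hP hp) fun p _ q _ r _ h h' => leQ_trans hP h h'

theorem k_le (hP : BPre A.B mu ρ) {CB : V} [IsCBA CB] (k : El A.B → El CB)
    (hk : ∀ b, (k b).val = kS A.B mu b.val) (x b : El A.B) : k x ≤ k b ↔ x ≤ b := by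
  rw [El.le_iff, hk, hk]
  constructor
  · intro h
    by_contra hcon
    have h2 : x \ b ≠ ⊥ := fun h => hcon (sdiff_eq_bot_iff.1 h)
    obtain ⟨ξ, hξ⟩ := hP.ne
    have h3 : ZFSet.pair (x \ b).val ξ ∈ kS A.B mu x.val :=
      sub_of_pair.2 ⟨⟨val_mem_pos h2, hξ⟩, El.le_iff.1 sdiff_le⟩
    have h4 : x \ b ≤ b := El.le_iff.2 (sub_of_pair.1 (h h3)).2
    have h7 := le_inf (le_refl (x \ b)) h4
    rw [inf_sdiff_self_left] at h7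
    exact h2 (le_bot_iff.1 h7)
  · intro h z hz
    obtain ⟨h1, h2⟩ := ZFSet.mem_sep.1 hz
    exact ZFSet.mem_sep.2 ⟨h1, fun w hw => El.le_iff.1 h (h2 hw)⟩

theorem k_top (hRS : T_RS) (hP : BPre A.B mu ρ) {CB : V} [IsCBA CB]
    (hC : CB = RO (qS A.B mu) (leQ A.B mu ρ)) (k : El A.B → El CB)
    (hk : ∀ b, (k b).val = kS A.B mu b.val) : k ⊤ = ⊤ := by
  subst hC
  obtain ⟨-, -, -, r4, -⟩ := hRS (qS A.B mu) (leQ A.B mu ρ) (fun p hp => leQ_refl hP hp)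
    fun p _ q _ r _ h h' => leQ_trans hP h h'
  apply El.ext
  rw [hk, r4]
  ext z
  constructor
  · intro hz
    exact (ZFSet.mem_sep.1 hz).1
  · intro hz
    obtain ⟨b, hb, ξ, hξ, rfl⟩ := ZFSet.mem_prod.1 hz
    exact sub_of_pair.2 ⟨⟨hb, hξ⟩, El.le_iff.1 (le_top : mk' hb ≤ ⊤)⟩

/-- the embedding -/
noncomputable def kM (hRS : T_RS) (hP : BPre A.B mu ρ) {CB : V} [IsCBA CB]
    (hC : CB = RO (qS A.B mu) (leQ A.B mu ρ)) : Mor A.B CB where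
  f b := ⟨kS A.B mu b.val, hC ▸ kS_mem hP b⟩
  inf x y := by
    refine El.ext (Eq.trans ?_ (El.inf_val _ _).symm)
    show kS A.B mu (x ⊓ y).val = kS A.B mu x.val ∩ kS A.B mu y.val
    rw [El.inf_val]
    ext z
    unfold kS
    simp only [ZFSet.mem_sep, ZFSet.mem_inter]
    constructor
    · rintro ⟨h1, h2⟩
      exact ⟨⟨h1, fun w hw => (ZFSet.mem_inter.1 (h2 hw)).1⟩,
        ⟨h1, fun w hw => (ZFSet.mem_inter.1 (h2 hw)).2⟩⟩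
    · rintro ⟨⟨h1, h2⟩, -, h3⟩
      exact ⟨h1, fun w hw => ZFSet.mem_inter.2 ⟨h2 hw, h3 hw⟩⟩
  sup S := by
    subst hC
    obtain ⟨r1, -⟩ := hRS (qS A.B mu) (leQ A.B mu ρ) (fun p hp => leQ_refl hP hp)
      fun p _ q _ r _ h h' => leQ_trans hP h h'
    apply le_antisymm
    · rw [sSup_image', r1]
      intro p hp
      replace hp : p ∈ kS A.B mu (sSup S).val := hp
      obtain ⟨b1, hb1, ξ, hξ, rfl⟩ := ZFSet.mem_prod.1 (ZFSet.mem_sep.1 hp).1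
      have h1 : mk' hb1 ≤ sSup S := El.le_iff.2 (sub_of_pair.1 hp).2
      have h2 : ∃ s ∈ S, mk' hb1 ⊓ s ≠ ⊥ := by
        by_contra hcon
        push Not at hcon
        have h3 : mk' hb1 ⊓ sSup S = ⊥ := by
          rw [inf_sSup_eq]
          refine le_bot_iff.1 (iSup₂_le fun s hs => ?_)
          rw [hcon s hs]
        rw [inf_eq_left.2 h1] at h3
        exact mk'_ne hb1 h3
      obtain ⟨s, hs, hs2⟩ := h2
      have h4 := ext_cond (b := mk' hb1) hP hξ hs2 inf_le_left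
      refine ⟨_, leQ_left h4, h4, ⟨s, hs⟩, ?_⟩
      exact sub_of_pair.2 ⟨⟨val_mem_pos hs2, hξ⟩, El.le_iff.1 inf_le_right⟩
    · refine sSup_le ?_
      rintro _ ⟨s, hs, rfl⟩
      exact (k_le hP (fun b : El A.B => (⟨kS A.B mu b.val, kS_mem hP b⟩ :
        El (RO (qS A.B mu) (leQ A.B mu ρ)))) (fun _ => rfl) s (sSup S)).2 (le_sSup hs)

theorem part3 (hRS : T_RS) (hP : BPre A.B mu ρ) {CB : V} [IsCBA CB]
    (hC : CB = RO (qS A.B mu) (leQ A.B mu ρ)) (k : Mor A.B CB)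
    (hk : ∀ b, (k b).val = kS A.B mu b.val) :
    k ⊤ = ⊤ ∧ (∀ x, k x = ⊥ → x = ⊥) ∧ (∀ x, k.proj (k x) = x) ∧
      ∀ (b : El A.B) (ξ : V), b ≠ ⊥ → ξ ∈ mu →
        (∀ Z : El CB, ZFSet.pair b.val ξ ∈ Z.val ↔ k b ⊓ mkEl CB (cl (qS A.B mu) (leQ A.B mu ρ)
          (ZFSet.pair (⊤ : El A.B).val ξ)) ≤ Z) ∧
        (k b ⊓ mkEl CB (cl (qS A.B mu) (leQ A.B mu ρ) (ZFSet.pair (⊤ : El A.B).val ξ))).val =
          cl (qS A.B mu) (leQ A.B mu ρ) (ZFSet.pair b.val ξ) ∧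
        k.proj (k b ⊓ mkEl CB (cl (qS A.B mu) (leQ A.B mu ρ)
          (ZFSet.pair (⊤ : El A.B).val ξ))) = b := by
  have hle := k_le hP (fun b => k b) hk
  refine ⟨k_top hRS hP hC (fun b => k b) hk, ?_, ?_, ?_⟩
  · intro x hx
    by_contra hx0
    obtain ⟨ξ, hξ⟩ := hP.ne
    have h1 : ZFSet.pair x.val ξ ∈ (k x).val := by
      rw [hk]
      exact sub_of_pair.2 ⟨⟨val_mem_pos hx0, hξ⟩, fun _ h => h⟩
    rw [hx, El.bot_val] at h1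
    exact ZFSet.notMem_empty _ h1
  · intro x
    unfold Mor.proj
    apply le_antisymm
    · exact sInf_le (le_refl (k x))
    · refine le_sInf fun b hb => ?_
      exact (hle x b).1 hb
  · intro b ξ hb hξ
    subst hC
    obtain ⟨-, -, -, -, -, -, r7, -⟩ := hRS (qS A.B mu) (leQ A.B mu ρ)
      (fun p hp => leQ_refl hP hp) fun p _ q _ r _ h h' => leQ_trans hP h h'
    have htop : (⊤ : El A.B) ≠ ⊥ := by
      intro h
      apply hb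
      exact le_bot_iff.1 (h ▸ le_top)
    have hp : ZFSet.pair b.val ξ ∈ qS A.B mu := pair_mem_qS.2 ⟨val_mem_pos hb, hξ⟩
    have ht : ZFSet.pair (⊤ : El A.B).val ξ ∈ qS A.B mu := pair_mem_qS.2 ⟨val_mem_pos htop, hξ⟩
    have hpt := ext_cond (b := ⊤) hP hξ hb le_top
    obtain ⟨t1, t2, t3, t4⟩ := r7 _ ht
    obtain ⟨p1, p2, p3, p4⟩ := r7 _ hp
    have hmk : (mkEl (RO (qS A.B mu) (leQ A.B mu ρ)) (cl (qS A.B mu) (leQ A.B mu ρ)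
        (ZFSet.pair (⊤ : El A.B).val ξ))).val = cl (qS A.B mu) (leQ A.B mu ρ)
        (ZFSet.pair (⊤ : El A.B).val ξ) := by
      unfold mkEl
      rw [dif_pos t1]
    have hβ : (k b ⊓ mkEl (RO (qS A.B mu) (leQ A.B mu ρ)) (cl (qS A.B mu) (leQ A.B mu ρ)
        (ZFSet.pair (⊤ : El A.B).val ξ))).val =
          cl (qS A.B mu) (leQ A.B mu ρ) (ZFSet.pair b.val ξ) := by
      apply subset_antisymm
      · rw [El.inf_val, hk, hmk]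
        intro q hq
        obtain ⟨hq1, hq2⟩ := ZFSet.mem_inter.1 hq
        obtain ⟨hq3, hq4⟩ := ZFSet.mem_sep.1 hq2
        refine ZFSet.mem_sep.2 ⟨hq3, fun r hr hrq => ?_⟩
        obtain ⟨s, hs, hsr, hst⟩ := hq4 r hr hrq
        refine ⟨s, hs, hsr, ?_⟩
        have hsq := leQ_trans hP hsr hrq
        obtain ⟨b2, hb2, ζ, hζ, rfl⟩ := ZFSet.mem_prod.1 hs
        obtain ⟨b3, hb3, ζ3, hζ3, rfl⟩ := ZFSet.mem_prod.1 hq3
        obtain ⟨-, -, h1, -⟩ := pair_mem_qR.1 hsq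
        obtain ⟨-, -, -, h2⟩ := pair_mem_qR.1 hst
        exact pair_mem_qR.2 ⟨⟨hb2, hζ⟩, ⟨val_mem_pos hb, hξ⟩,
          fun z hz => (sub_of_pair.1 hq1).2 (h1 hz), h2⟩
      · rw [p4, El.inf_val, hk, hmk]
        exact ZFSet.mem_inter.2 ⟨sub_of_pair.2 ⟨⟨val_mem_pos hb, hξ⟩, fun _ h => h⟩,
          t3 _ hp hpt⟩
    have hα : ∀ Z : El (RO (qS A.B mu) (leQ A.B mu ρ)), ZFSet.pair b.val ξ ∈ Z.val ↔
        k b ⊓ mkEl (RO (qS A.B mu) (leQ A.B mu ρ)) (cl (qS A.B mu) (leQ A.B mu ρ)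
          (ZFSet.pair (⊤ : El A.B).val ξ)) ≤ Z := by
      intro Z
      rw [← p4 Z, El.le_iff, hβ]
    refine ⟨hα, hβ, ?_⟩
    unfold Mor.proj
    have key : ∀ x : El A.B, k b ⊓ mkEl (RO (qS A.B mu) (leQ A.B mu ρ)) (cl (qS A.B mu)
        (leQ A.B mu ρ) (ZFSet.pair (⊤ : El A.B).val ξ)) ≤ k x ↔ b ≤ x := by
      intro x
      rw [← hα, hk, sub_of_pair, El.le_iff]
      exact ⟨fun h => h.2, fun h => ⟨⟨val_mem_pos hb, hξ⟩, h⟩⟩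
    apply le_antisymm
    · exact sInf_le ((key b).2 le_rfl)
    · exact le_sInf fun x hx => (key x).1 hx

theorem qa (hRS : T_RS) : T_QA := by
  refine ⟨fun M B mu ρ hC hB hP => part1 hC.bot hB hP, ?_⟩
  intro A mu ρ hA hP
  constructor
  · have := isCBA_R hP
    let k : Mor A.B (RO (qS A.B mu) (leQ A.B mu ρ)) := kM hRS hP rfl
    have hk : ∀ b, (k b).val = kS A.B mu b.val := fun _ => rfl
    have hkt : k ⊤ = ⊤ := k_top hRS hP rfl (fun b => k b) hk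
    let C : BA :=
      { B := RO (qS A.B mu) (leQ A.B mu ρ)
        g := A.g.comp k
        unit := by
          show k (A.g ⊤) = ⊤
          rw [A.unit, hkt] }
    refine ⟨C, { k with base := fun x => ?_ }, ⟨rfl, fun b => rfl⟩⟩
    show k (A.g x) = k (A.g x) ⊓ k ⊤
    rw [hkt, inf_top_eq]
  · intro C k h
    exact part3 hRS hP h.alg k.toMor h.map

end

end SF.H3.QA
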