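import Pool.Agent.H9.SF.QDefs

/-! Part Q, module TSA: a generic filter of the two-step forcing from two generic filters. -/

set_option linter.unusedVariables false

open Ordinal Cardinal Order Set
open scoped ZFSet

namespace SF.H3.TSA

open SF

theorem pair_mem_qS {B mu b ξ : V} : ZFSet.pair b ξ ∈ qS B mu ↔ b ∈ pos B ∧ ξ ∈ mu := by
  unfold qS
  exact ZFSet.pair_mem_prod

theorem mem_pos {B b : V} : b ∈ pos B ↔ b ∈ B ∧ b ≠ ∅ := by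
  unfold pos
  rw [ZFSet.mem_sdiff, ZFSet.mem_singleton]

theorem pair_mem_qR {B mu ρ b ξ b1 ξ1 : V} :
    ZFSet.pair (ZFSet.pair b ξ) (ZFSet.pair b1 ξ1) ∈ qR B mu ρ ↔
      (b ∈ pos B ∧ ξ ∈ mu) ∧ (b1 ∈ pos B ∧ ξ1 ∈ mu) ∧ b ⊆ b1 ∧
        b ⊆ app ρ (ZFSet.pair ξ ξ1) := by
  unfold qR
  rw [ZFSet.mem_sep, ZFSet.pair_mem_prod, pair_mem_qS, pair_mem_qS]
  simp only [fst_pair, snd_pair]
  tauto

theorem mem_incl {B b b1 : V} : ZFSet.pair b b1 ∈ incl B ↔ b ∈ pos B ∧ b1 ∈ pos B ∧ b ⊆ b1 := by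
  unfold incl
  rw [ZFSet.mem_sep, ZFSet.pair_mem_prod]
  simp only [fst_pair, snd_pair]
  tauto

theorem tm_pos : Tm ZFm (fun _ v => pos (v 0)) := Tm.diff (Tm.var 0) (Tm.sing Tm.empty)

theorem tm_incl : Tm ZFm (fun _ v => incl (v 0)) :=
  Tm.sep (R := fun _ u => fst (u 0) ⊆ snd (u 0))
    (Dfb.subset (Tm.fst (Tm.var 0)) (Tm.snd (Tm.var 0))) (Tm.prod tm_pos tm_pos)

theorem pair_mem_rt {mu ρ G ζ ξ : V} : ZFSet.pair ζ ξ ∈ rt mu ρ G ↔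
    (ζ ∈ mu ∧ ξ ∈ mu) ∧ app ρ (ZFSet.pair ζ ξ) ∈ G := by
  unfold rt
  rw [ZFSet.mem_sep, ZFSet.pair_mem_prod]

theorem tsa (hFI : T_FI) (hWG : T_WG) (hWH : T_WH) : T_TSA := by
  intro M B G mu ρ H hM hB hC hB1 hG hmu hρ hP hH
  have hpo : IsPo (pos B) (incl B) := hWG.2.2.1 M B hC hB1
  obtain ⟨w1, w2, w3, -, -, -⟩ := hWH M B G hM hB hC hG
  have hMpos : M (pos B) := tm_pos.1 M hM (fun _ => B) (fun _ => hB)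
  have hMincl : M (incl B) := tm_incl.1 M hM (fun _ => B) (fun _ => hB)
  obtain ⟨hE, hME, hGE⟩ := hFI M (pos B) (incl B) G hM hMpos hMincl hpo hG
  have hρB : ∀ ξ ∈ mu, ∀ η ∈ mu, app ρ (ZFSet.pair ξ η) ∈ B := fun ξ hξ η hη =>
    app_mem hP.func (ZFSet.pair_mem_prod.2 ⟨hξ, hη⟩)
  have hGpos : ∀ x ∈ G, x ∈ pos B := fun x hx => mem_pos.2 (w2 x hx)
  have hHmu : ∀ x ∈ H, x ∈ mu := fun x hx => hH.1.sub hx
  refine ⟨⟨?_, ?_, ?_, ?_⟩, ?_⟩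
  · intro z hz
    obtain ⟨b, hb, ξ, hξ, rfl⟩ := ZFSet.mem_prod.1 hz
    exact pair_mem_qS.2 ⟨hGpos b hb, hHmu ξ hξ⟩
  · obtain ⟨b, hb⟩ := hG.1.ne
    obtain ⟨ξ, hξ⟩ := hH.1.ne
    exact ⟨ZFSet.pair b ξ, ZFSet.pair_mem_prod.2 ⟨hb, hξ⟩⟩
  · intro p hp q hq
    obtain ⟨b, hb, ξ, hξ, rfl⟩ := ZFSet.mem_prod.1 hp
    have hqS : q ∈ qS B mu := (ZFSet.pair_mem_prod.1 (ZFSet.mem_sep.1 hq).1).2
    obtain ⟨b1, hb1, ξ1, hξ1, rfl⟩ := ZFSet.mem_prod.1 hqS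
    obtain ⟨-, -, h1, h2⟩ := pair_mem_qR.1 hq
    refine ZFSet.pair_mem_prod.2 ⟨w3 b hb b1 (mem_pos.1 hb1).1 h1, ?_⟩
    refine hH.1.up ξ hξ ξ1 (pair_mem_rt.2 ⟨⟨hHmu ξ hξ, hξ1⟩, ?_⟩)
    exact w3 b hb _ (hρB ξ (hHmu ξ hξ) ξ1 hξ1) h2
  · intro p hp q hq
    obtain ⟨b, hb, ξ, hξ, rfl⟩ := ZFSet.mem_prod.1 hp
    obtain ⟨b1, hb1, ξ1, hξ1, rfl⟩ := ZFSet.mem_prod.1 hq
    obtain ⟨ζ, hζ, h1, h2⟩ := hH.1.dir ξ hξ ξ1 hξ1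
    have h1' := (pair_mem_rt.1 h1).2
    have h2' := (pair_mem_rt.1 h2).2
    have h3 := w1 _ (w1 b hb b1 hb1) _ (w1 _ h1' _ h2')
    refine ⟨ZFSet.pair _ ζ, ZFSet.pair_mem_prod.2 ⟨h3, hζ⟩, pair_mem_qR.2 ?_, pair_mem_qR.2 ?_⟩
    · refine ⟨⟨hGpos _ h3, hHmu ζ hζ⟩, ⟨hGpos b hb, hHmu ξ hξ⟩, ?_, ?_⟩
      · intro z hz
        simp only [ZFSet.mem_inter] at hz
        exact hz.1.1
      · intro z hz
        simp only [ZFSet.mem_inter] at hz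
        exact hz.2.1
    · refine ⟨⟨hGpos _ h3, hHmu ζ hζ⟩, ⟨hGpos b1 hb1, hHmu ξ1 hξ1⟩, ?_, ?_⟩
      · intro z hz
        simp only [ZFSet.mem_inter] at hz
        exact hz.1.2
      · intro z hz
        simp only [ZFSet.mem_inter] at hz
        exact hz.2.2
  · intro D hD hDd
    -- the set `E`
    have hEE : Ext M G (mu.sep fun ξ => ∃ b ∈ G, ZFSet.pair b ξ ∈ D) := by
      have h1 := (Tm.sep (R := fun _ u => ∃ b ∈ u 2, ZFSet.pair b (u 0) ∈ u 3)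
        ((Dfb.bex (R := fun _ w => ZFSet.pair (w 0) (w 1) ∈ w 4) ktr_zfm (Tm.var 2)
          (Dfb.pairMem (Tm.var 0) (Tm.var 1) (Tm.var 4))).congr fun _ _ _ _ => Iff.rfl)
        (Tm.var 0)).1 (Ext M G) hE (cons mu (cons G fun _ => D))
        (In.cons (In.cons (fun _ => hME D hD) hGE) (hME mu hmu))
      exact h1
    have hEd : IsDense mu (rt mu ρ G) (mu.sep fun ξ => ∃ b ∈ G, ZFSet.pair b ξ ∈ D) := by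
      refine ⟨fun x hx => (ZFSet.mem_sep.1 hx).1, fun ξ hξ => ?_⟩
      have hξM : M ξ := hM.trans _ hmu ξ hξ
      have hD1 : M ((pos B).sep fun b1 => ∃ ζ ∈ mu, ZFSet.pair b1 ζ ∈ D ∧
          b1 ⊆ app ρ (ZFSet.pair ζ ξ)) := by
        have h1 := (Tm.sep (R := fun _ u => ∃ ζ ∈ u 2, ZFSet.pair (u 0) ζ ∈ u 3 ∧
            u 0 ⊆ app (u 4) (ZFSet.pair ζ (u 5)))
          ((Dfb.bex (R := fun _ w => ZFSet.pair (w 1) (w 0) ∈ w 4 ∧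
            w 1 ⊆ app (w 5) (ZFSet.pair (w 0) (w 6))) ktr_zfm (Tm.var 2)
            ((Dfb.pairMem (Tm.var 1) (Tm.var 0) (Tm.var 4)).and
              (Dfb.subset (Tm.var 1) (Tm.app (Tm.var 5) (Tm.pair (Tm.var 0) (Tm.var 6)))))).congr
                fun _ _ _ _ => Iff.rfl)
          (Tm.var 0)).1 M hM (cons (pos B) (cons mu (cons D (cons ρ fun _ => ξ))))
          (In.cons (In.cons (In.cons (In.cons (fun _ => hξM) hρ) hD) hmu) hMpos)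
        exact h1
      have hD1d : IsDense (pos B) (incl B) ((pos B).sep fun b1 => ∃ ζ ∈ mu, ZFSet.pair b1 ζ ∈ D ∧
          b1 ⊆ app ρ (ZFSet.pair ζ ξ)) := by
        refine ⟨fun x hx => (ZFSet.mem_sep.1 hx).1, fun b hb => ?_⟩
        obtain ⟨d, hd, hd2⟩ := hDd.2 (ZFSet.pair b ξ) (pair_mem_qS.2 ⟨hb, hξ⟩)
        obtain ⟨b1, hb1, ζ, hζ, rfl⟩ := ZFSet.mem_prod.1 (hDd.1 hd)
        obtain ⟨-, -, h1, h2⟩ := pair_mem_qR.1 hd2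
        exact ⟨b1, ZFSet.mem_sep.2 ⟨hb1, ζ, hζ, hd, h2⟩, mem_incl.2 ⟨hb1, hb, h1⟩⟩
      obtain ⟨b1, hb1G, hb1D⟩ := hG.2 _ hD1 hD1d
      obtain ⟨-, ζ, hζ, h1, h2⟩ := ZFSet.mem_sep.1 hb1D
      refine ⟨ζ, ZFSet.mem_sep.2 ⟨hζ, b1, hb1G, h1⟩, pair_mem_rt.2 ⟨⟨hζ, hξ⟩, ?_⟩⟩
      exact w3 b1 hb1G _ (hρB ζ hζ ξ hξ) h2
    obtain ⟨ξ, hξH, hξE⟩ := hH.2 _ hEE hEd
    obtain ⟨-, b, hb, h1⟩ := ZFSet.mem_sep.1 hξE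
    exact ⟨_, ZFSet.pair_mem_prod.2 ⟨hb, hξH⟩, h1⟩

end SF.H3.TSA
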