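import Pool.Agent.H3.SF.DefsW

/-!
# MP_634266_nt: targets of the board spw_modules

Closed theorems that may be imported: `Pool.Agent.H14.SQ.pf_ORD : T_ORD` (H14/SQ/ORD),
`Pool.Agent.H14.SQ.pf_SEM : T_SEM` (H14/SQ/SEM), `Pool.Agent.H48.SQ.pf_PP : T_PP` (H48/SQ/PP),
`Pool.Agent.H35.SQ.TL.pf_TL : T_TL` (H35/SQ/TL), `Pool.Agent.H17.SQ.PD.pf_PD : T_PD` (H17/SQ/PD),
`Pool.Agent.H65.SQ.pf_CRT : T_CRT` (H65/SQ/MOM or CRT), `Pool.Agent.H58.SQ.BB.pf_BB`.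
-/

set_option autoImplicit false

namespace Pool.Agent.H3.SF

open Finset Filter Topology Pool.Agent.H99.SQ MeasureTheory

/-! ## Part A: the decision tree -/

/-- (FPB) the primes of period dividing `P` -/
def T_FPB : Prop := ∀ P : ℕ, 0 < P →
  (∀ p, p ∈ FP P ↔ OP p ∧ mm p ∣ P) ∧ 0 < QQ (FP P) ∧ QQ (FP P) ≤ 2 ^ P ∧
  (∀ p, p ∈ FP P → p ^ 2 ∣ QQ (FP P)) ∧
  (∀ p, OP p → ¬ mm p ∣ P → Nat.Coprime (QQ (FP P)) (p ^ 2)) ∧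
  (∀ P', 0 < P' → P ∣ P' → QQ (FP P) ∣ QQ (FP P')) ∧
  ∀ P' p, 0 < P' → P ∣ P' → OP p → ¬ mm p ∣ P → mm p ∣ P' → QQ (FP P) * p ^ 2 ∣ QQ (FP P')

/-- (LO) the least exponent not killed -/
def T_LO : Prop := ∀ P n : ℕ, 0 < P →
  (∀ n', n ≡ n' [MOD QQ (FP P)] → lo P n = lo P n') ∧
  (¬ Cov (FP P) n → ∀ l, l ≡ lo P n [MOD P] → ∀ p ∈ FP P, ¬ Kill p n l)

/-- (CLS) the residues of `n` modulo `p ^ 2` such that `p` kills an exponent in a class -/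
def T_CLS : Prop := ∀ p P l0 T : ℕ, OP p → 0 < P → Nat.lcm P (mm p) ≤ T * P →
  ∃ R : Finset ℕ, R.card ≤ T ∧ (∀ b ∈ R, b < p ^ 2) ∧
    ∀ n l, l ≡ l0 [MOD P] → Kill p n l → n % p ^ 2 ∈ R

/-- (CLK) the number of exponents `< N` in a class killed by `p` -/
def T_CLK : Prop := ∀ (p P l0 n N : ℕ) (A : Finset ℕ), OP p → 0 < P →
  (∀ l ∈ A, l < N ∧ l ≡ l0 [MOD P] ∧ Kill p n l) → A.card ≤ N / Nat.lcm P (mm p) + 1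

/-- (RES) counting in residue classes -/
def T_RES : Prop := ∀ (Q q Q2 c : ℕ) (R A : Finset ℕ) (B : ℝ), 0 < Q → 0 < q → 0 < Q2 →
  Nat.Coprime Q q → Q * q ∣ Q2 → 0 ≤ B → (∀ b ∈ R, b < q) →
  (∀ n ∈ A, n ≡ c [MOD Q] ∧ n % q ∈ R) →
  (∀ c' : ℕ, ((A.filter fun n => n ≡ c' [MOD Q2]).card : ℝ) ≤ B / Q2) →
  (A.card : ℝ) ≤ R.card * B / (Q * q)

/-- (TREE) the number of `n ≤ x` with a long path in the decision tree -/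
def T_TREE : Prop := ∀ (T V x B : ℕ) (τ : ℝ) (I : ℕ → Prop) (F : ℕ → ℕ → Prop),
  1 ≤ T → T ≤ V → 0 ≤ τ → 2 ^ B ≤ x → (∀ P, I P → 0 < P) →
  (∀ P p, I P → OP p → ¬ mm p ∣ P → Nat.lcm P (mm p) ≤ T * P →
    V < p ∧ I (Nat.lcm P (mm p))) →
  (∀ (P c : ℕ) (A : Finset ℕ), I P → P ≤ B →
    (∀ n ∈ A, n ≤ x ∧ n ≡ c [MOD QQ (FP P)] ∧ F P n) → (A.card : ℝ) ≤ τ * x / QQ (FP P)) →
  ∀ (r P c : ℕ) (A : Finset ℕ), I P → P * T ^ r ≤ B →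
    (∀ n ∈ A, n ≤ x ∧ n ≡ c [MOD QQ (FP P)] ∧ Bad T F r P n) →
    (A.card : ℝ) ≤ (2 * ((T : ℝ) / V) ^ r + r * τ) * x / QQ (FP P)

/-- (TUL) many tuples with different primes -/
def T_TUL : Prop := ∀ (S : Finset (ℕ × ℕ)) (K m : ℕ) (s : ℝ),
  (∀ p, (S.filter fun q => q.2 = p).card ≤ m) → 2 * K * m ≤ s → s ≤ S.card →
  (s / 2) ^ K ≤
    (((Fintype.piFinset fun _ : Fin K => S).filter fun f =>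
      Function.Injective fun i => (f i).2).card : ℝ)

/-- (TUU) number of the `n ≤ x` in residue classes modulo `Q` and modulo the squares of `K`
different primes -/
def T_TUU : Prop := ∀ (x Q c W K : ℕ) (f : Fin K → ℕ × ℕ) (A : Finset ℕ),
  0 < Q → Q * W ^ (2 * K) ≤ x →
  (∀ i, OP (f i).2 ∧ (f i).2 ≤ W ∧ Nat.Coprime Q ((f i).2 ^ 2)) →
  (Function.Injective fun i => (f i).2) →
  (∀ n ∈ A, n ≤ x ∧ n ≡ c [MOD Q] ∧ ∀ i, Kill (f i).2 n (f i).1) →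
  (A.card : ℝ) ≤ 2 * x / Q * ∏ i, 1 / ((f i).2 : ℝ) ^ 2

/-- (TUP) the counting lemma -/
def T_TUP : Prop := ∀ (x Q c W Z K m : ℕ) (s : ℝ) (D G A : Finset ℕ)
  (S : ℕ → Finset (ℕ × ℕ)), 1 ≤ Z → 0 < Q → Q * W ^ (2 * K) ≤ x →
  (∀ p ∈ G, OP p ∧ Z < p ∧ p ≤ W ∧ Nat.Coprime Q (p ^ 2)) →
  (∀ n ∈ A, n ≤ x ∧ n ≡ c [MOD Q]) →
  (∀ n ∈ A, ∀ q ∈ S n, q.1 ∈ D ∧ q.2 ∈ G ∧ Kill q.2 n q.1) →
  (∀ n ∈ A, ∀ p, ((S n).filter fun q => q.2 = p).card ≤ m) →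
  (∀ n ∈ A, s ≤ (S n).card) → 2 * K * m ≤ s →
  (A.card : ℝ) * (s / 2) ^ K ≤ (D.card : ℝ) ^ K * (2 * x / Q) * (1 / Z) ^ K

/-- (SMO) primes with small relative period are large -/
def T_SMO : Prop := ∀ Z b P p : ℕ, 1 ≤ b → Inv Z b P → OP p → ¬ mm p ∣ P →
  Nat.lcm P (mm p) ≤ Z * P → Z ^ b < p ∧ Inv Z b (Nat.lcm P (mm p))

/-- (SMZ) primes whose period does not divide `P` are large -/
def T_SMZ : Prop := ∀ Z b P p : ℕ, 1 ≤ b → P0 Z b ∣ P → OP p → ¬ mm p ∣ P → Z < p ∧ Z < mm p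

/-- (FIC) counting for the stopping condition -/
def T_FIC : Prop := ∀ (Z b P x W K c : ℕ) (A : Finset ℕ), 1 ≤ b → Inv Z b P → 1 ≤ K →
  32 * K ≤ Z → P * Z ≤ Nat.log 2 x → 2 ^ P * W ^ (2 * K) ≤ x →
  (∀ n ∈ A, n ≤ x ∧ n ≡ c [MOD QQ (FP P)] ∧ Fi x Z W P n) →
  (A.card : ℝ) ≤ 2 * (32 / Z) ^ K * x / QQ (FP P)

/-- (DET) the paths of uncovered numbers with few representations -/
def T_DET : Prop := ∀ x n T W r P : ℕ, Odd n → 1 < n → n ≤ x →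
  Nat.log 2 x ≤ 2 * Nat.log 2 n → 1 ≤ T → 0 < P →
  (∀ P', P ∣ P' → 0 < P' → P' * T ≤ P * T ^ r → ¬ Cov (FP P') n) →
  (∀ l p, 2 ^ l < n → p.Prime → p ^ 2 ∣ n - 2 ^ l → p ≤ W) →
  4 * (P * T ^ r) * (rep n + 1) ≤ Nat.log 2 x → Bad T (Fi x T W) r P n

/-- (BAD) number of the bad `n` -/
def T_BAD : Prop := ∀ (Z b x W K r : ℕ) (A : Finset ℕ), 1 ≤ b → 1 ≤ K → 32 * K ≤ Z →
  P0 Z b * Z ^ r * Z ≤ Nat.log 2 x → 2 ^ (P0 Z b * Z ^ r) * W ^ (2 * K) ≤ x →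
  (∀ n ∈ A, n ≤ x ∧ Bad Z (Fi x Z W) r (P0 Z b) n) →
  (A.card : ℝ) ≤ (2 * ((Z : ℝ) / (Z : ℝ) ^ b) ^ r + r * (2 * (32 / Z) ^ K)) * x

/-- (SML) small numbers and numbers with a large prime -/
def T_SML : Prop := ∀ (x W : ℕ) (A : Finset ℕ), 1 ≤ x → 1 ≤ W →
  (∀ n ∈ A, n ≤ x ∧ (2 * Nat.log 2 n < Nat.log 2 x ∨
    ∃ l p, 2 ^ l < n ∧ p.Prime ∧ p ^ 2 ∣ n - 2 ^ l ∧ W < p)) →
  (A.card : ℝ) ≤ 4 * Real.sqrt x + (Nat.log 2 x + 1) * (x / W)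

/-- (PA1) choice of the parameters -/
def T_PA1 : Prop := ∀ A ε : ℝ, 0 < A → 0 < ε → ε < 1 → ∃ b : ℕ, 1 ≤ b ∧ ∃ x₀ : ℕ, 3 ≤ x₀ ∧
  ∀ x : ℕ, x₀ ≤ x → ∃ Z r K W : ℕ, 1 ≤ K ∧ 32 * K ≤ Z ∧ 1 ≤ W ∧
    P0 Z b * Z ^ r * Z ≤ Nat.log 2 x ∧
    (4 : ℝ) * (P0 Z b * Z ^ r : ℕ) * (Real.log x ^ (1 - ε) + 1) ≤ Nat.log 2 x ∧
    2 ^ (P0 Z b * Z ^ r) * W ^ (2 * K) ≤ x ∧
    2 * ((Z : ℝ) / (Z : ℝ) ^ b) ^ r ≤ 1 / Real.log x ^ A ∧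
    (r : ℝ) * (2 * (32 / Z) ^ K) ≤ 1 / Real.log x ^ A ∧
    ((Nat.log 2 x + 1 : ℕ) : ℝ) / W ≤ 1 / Real.log x ^ A ∧
    4 * Real.sqrt x ≤ x / Real.log x ^ A

/-- (M1) the strong dichotomy -/
def T_M1 : Prop := ∀ A ε : ℝ, 0 < A → 0 < ε → ε < 1 → ∃ C : ℝ, ∀ x : ℕ, 2 ≤ x →
  ∀ S : Finset ℕ, (∀ n ∈ S, n ≤ x ∧ Odd n ∧ 1 < n ∧
    (∀ F : Finset ℕ, (∀ p ∈ F, OP p) → ¬ Cov F n) ∧ (rep n : ℝ) < Real.log n ^ (1 - ε)) →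
  (S.card : ℝ) ≤ C * x / Real.log x ^ A

/-- (PA2) choice of the parameters for the rate -/
def T_PA2 : Prop := ∃ x₀ : ℕ, 3 ≤ x₀ ∧ ∀ x : ℕ, x₀ ≤ x → ∃ Z b K : ℕ, 1 ≤ b ∧ 1 ≤ K ∧
  32 * K ≤ Z ∧ 2 * ((Z : ℝ) / (Z : ℝ) ^ b) + 2 * (32 / Z) ^ K ≤
    1 / (8 * Real.exp (Real.sqrt (Real.log (Real.log x)))) ∧
  ∀ y : ℕ, x ≤ y → ∃ W : ℕ, 1 ≤ W ∧ P0 Z b * Z * Z ≤ Nat.log 2 y ∧
    4 * (P0 Z b * Z) ≤ Nat.log 2 y ∧ 2 ^ (P0 Z b * Z) * W ^ (2 * K) ≤ y ∧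
    4 * Real.sqrt y + ((Nat.log 2 y + 1 : ℕ) : ℝ) * (y / W) + 2 * (2 ^ P0 Z b + 1) ≤
      y / (8 * Real.exp (Real.sqrt (Real.log (Real.log x))))

/-- (M2) the exceptional numbers have a density, with a rate -/
def T_M2 : Prop := ∃ δ C : ℝ, ∀ x : ℕ, 3 ≤ x →
  |({n : ℕ | n ≤ x ∧ EE n}.ncard : ℝ) - δ * x| ≤
    C * x / Real.exp (Real.sqrt (Real.log (Real.log x)))

/-! ## Part B: the local density -/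

/-- (UUF) the proportion of the exponents not killed by `F` -/
def T_UUF : Prop := ∀ (F : Finset ℕ) (n : ℕ), (∀ p ∈ F, OP p) →
  (0 ≤ UU F n ∧ UU F n ≤ 1) ∧
  (∀ M N : ℕ, 0 < M → (∀ p ∈ F, mm p ∣ M) → |(UC F n N : ℝ) - UU F n * N| ≤ M) ∧
  (∀ n', n ≡ n' [MOD QQ F] → UU F n = UU F n') ∧ (UU F n = 0 ↔ Cov F n)

/-- (UUD) comparison of two sets of primes -/
def T_UUD : Prop := ∀ (F F' : Finset ℕ) (n : ℕ), (∀ p ∈ F', OP p) → F ⊆ F' →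
  UU F' n ≤ UU F n ∧ UU F n ≤ UU F' n + SS (F' \ F) n

/-- (LGC) few `n` have many pairs -/
def T_LGC : Prop := ∀ (x Z K W : ℕ) (η : ℝ) (A : Finset ℕ), 0 < η → 1 ≤ Z → 1 ≤ K →
  4 * K ≤ η * Z → Z ≤ Nat.log 2 x → W ^ (2 * K) ≤ x →
  (∀ n ∈ A, n ≤ x ∧ η * Nat.log 2 x ≤ NP x W (P0 Z 1) n) →
  (A.card : ℝ) ≤ 2 * (4 / (η * Z)) ^ K * x

/-- (LGD) the number of representations and the local density -/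
def T_LGD : Prop := ∀ (x n Z W : ℕ) (η : ℝ) (F : Finset ℕ), Odd n → 1 < n → n ≤ x →
  Nat.log 2 x ≤ 2 * Nat.log 2 n → P0 Z 1 ≤ Nat.log 2 n → 1 ≤ Z →
  (∀ l p, 2 ^ l < n → p.Prime → p ^ 2 ∣ n - 2 ^ l → p ≤ W) →
  (NP x W (P0 Z 1) n : ℝ) ≤ η * Nat.log 2 x →
  (∀ p, p ∈ F ↔ OP p ∧ mm p ≤ Nat.log 2 n) →
  |(rep n : ℝ) - UU (FP (P0 Z 1)) n * Nat.log 2 n| ≤ η * Nat.log 2 x + P0 Z 1 + 2 ∧
  UU F n ≤ UU (FP (P0 Z 1)) n ∧ UU (FP (P0 Z 1)) n ≤ UU F n + 2 * η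

/-- (PA3) choice of the parameters -/
def T_PA3 : Prop := ∀ A η : ℝ, 0 < A → 0 < η → η < 1 → ∃ x₀ : ℕ, 3 ≤ x₀ ∧
  ∀ x : ℕ, x₀ ≤ x → ∃ Z K W : ℕ, 1 ≤ K ∧ 1 ≤ Z ∧ 1 ≤ W ∧ (4 : ℝ) * K ≤ η * Z ∧
    (P0 Z 1 : ℝ) + 10 ≤ η * Nat.log 2 x ∧ Z ≤ Nat.log 2 x ∧ W ^ (2 * K) ≤ x ∧
    2 * (4 / (η * Z)) ^ K ≤ 1 / Real.log x ^ A ∧
    ((Nat.log 2 x + 1 : ℕ) : ℝ) / W ≤ 1 / Real.log x ^ A ∧
    4 * Real.sqrt x ≤ x / Real.log x ^ A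

/-- (M3) the local-global principle -/
def T_M3 : Prop := ∀ A ε : ℝ, 0 < A → 0 < ε → ∃ C : ℝ, ∀ x : ℕ, 2 ≤ x → ∀ S : Finset ℕ,
  (∀ n ∈ S, n ≤ x ∧ Odd n ∧ 1 < n ∧ ∀ F : Finset ℕ, (∀ p, p ∈ F ↔ OP p ∧ mm p ≤ Nat.log 2 n) →
    ε < |(rep n : ℝ) / (Real.log n / Real.log 2) - UU F n|) →
  (S.card : ℝ) ≤ C * x / Real.log x ^ A

/-! ## Part C: the limit law -/

/-- the odd primes -/
abbrev Ix : Type := {p : ℕ // p.Prime ∧ p ≠ 2}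

/-- a residue class modulo `p ^ 2` for every odd prime `p` -/
abbrev Om : Type := ∀ p : Ix, ZMod ((p : ℕ) ^ 2)

/-- the residue classes are independent and uniformly distributed -/
noncomputable def PM : Measure Om :=
  Measure.infinitePi fun p : Ix =>
    ProbabilityTheory.uniformOn (Set.univ : Set (ZMod ((p : ℕ) ^ 2)))

/-- the proportion of the exponents `l` with `ω_p ≠ 2 ^ l` for all odd primes `p ≤ Y` -/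
noncomputable def dY (Y : ℕ) (ω : Om) : ℝ := by
  classical exact (((range (MP (FF Y))).filter fun l : ℕ =>
    ∀ p : Ix, (p : ℕ) ≤ Y → ω p ≠ 2 ^ l).card : ℝ) / MP (FF Y)

/-- the uncovered density -/
noncomputable def Dd (ω : Om) : ℝ := ⨅ Y : ℕ, dY Y ω

/-- (W1) averages of periodic functions over odd numbers -/
def T_W1 : Prop := ∀ (Q : ℕ) (h : ℕ → ℝ), Odd Q → (∀ n, h (n + Q) = h n) →
  Tendsto (fun x : ℕ => (∑ n ∈ (range (x + 1)).filter Odd, h n) / ((x : ℝ) / 2)) atTop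
    (𝓝 ((∑ a ∈ range Q, h a) / Q))

/-- (W2) the joint law of `dY Y` and `dY Y'` -/
def T_W2 : Prop := ∀ (Y Y' : ℕ) (g : ℝ → ℝ → ℝ), Y ≤ Y' →
  ∫ ω, g (dY Y ω) (dY Y' ω) ∂PM =
    (∑ a ∈ range (QQ (FF Y')), g (UU (FF Y) a) (UU (FF Y') a)) / QQ (FF Y')

/-- (W3) comparison in the mean -/
def T_W3 : Prop := ∀ Y : ℕ, 1 ≤ Y → ∀ᶠ x : ℕ in atTop,
  ∑ n ∈ (range (x + 1)).filter Odd,
    |(rep n : ℝ) / (Real.log n / Real.log 2) - UU (FF Y) n| ≤ 5 * x / Y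

/-- (W4) the uncovered density as a limit -/
def T_W4 : Prop := (∀ Y, Measurable (dY Y)) ∧ Measurable Dd ∧
  (∀ ω, Antitone fun Y => dY Y ω) ∧ (∀ Y ω, 0 ≤ dY Y ω ∧ dY Y ω ≤ 1) ∧
  (∀ ω, Tendsto (fun Y => dY Y ω) atTop (𝓝 (Dd ω))) ∧
  ∀ g : ℝ → ℝ, Continuous g →
    Tendsto (fun Y => ∫ ω, g (dY Y ω) ∂PM) atTop (𝓝 (∫ ω, g (Dd ω) ∂PM))

/-- (W5) the limit law -/
def T_W5 : Prop := ∀ g : ℝ → ℝ, Continuous g →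
  Tendsto (fun x : ℕ => (∑ n ∈ (range (x + 1)).filter Odd,
    g ((rep n : ℝ) / (Real.log n / Real.log 2))) / ((x : ℝ) / 2)) atTop
    (𝓝 (∫ ω, g (Dd ω) ∂PM))

/-- (W6A) the mean of `UU` -/
def T_W6A : Prop := ∀ Y : ℕ, (∑ a ∈ range (QQ (FF Y)), UU (FF Y) a) / QQ (FF Y) =
  ∏ p ∈ FF Y, (1 - 1 / (p : ℝ) ^ 2)

/-- (W6B) the Euler product -/
def T_W6B : Prop := Tendsto (fun Y : ℕ => ∏ p ∈ FF Y, (1 - 1 / (p : ℝ) ^ 2)) atTop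
  (𝓝 (8 / Real.pi ^ 2))

/-- (W6) the mean -/
def T_W6 : Prop := ∫ ω, Dd ω ∂PM = 8 / Real.pi ^ 2

/-- (ZC) few classes not covered by the primes `≤ Y` have a very small density -/
def T_ZC : Prop := ∀ (Y Y' : ℕ) (A : Finset ℕ), 1 ≤ Y → Y ≤ Y' →
  (∀ a ∈ A, a < QQ (FF Y') ∧ ¬ Cov (FF Y) a ∧ UU (FF Y') a < 1 / (2 * MP (FF Y))) →
  (A.card : ℝ) ≤ 2 / Y * QQ (FF Y')

/-- (W7) the mass at zero -/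
def T_W7 : Prop := Tendsto (fun Y : ℕ =>
  (({a : ℕ | a < QQ (FF Y) ∧ Cov (FF Y) a}.ncard : ℝ)) / QQ (FF Y)) atTop
  (𝓝 (PM {ω | Dd ω = 0}).toReal)

/-- (W8) the density of the exceptions -/
def T_W8 : Prop := Tendsto (fun x : ℕ => ({n : ℕ | n ≤ x ∧ EE n}.ncard : ℝ) / x) atTop
  (𝓝 ((PM {ω | Dd ω = 0}).toReal / 2))

end Pool.Agent.H3.SF
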