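import Pool.Agent.H3.SF.Bnd
import Pool.Agent.H3.SF.Tg1

/-!
# MP_70ba79_ag, THEOREM S: targets, part 2: values at a curve, factors, connections, assembly
-/

set_option autoImplicit false

namespace Pool.Agent.H3.SF

open MvPolynomial SC Pool.Agent.H27.LV
open Pool.Agent.H84.SM (dp cr dt)
open Pool.Agent.H92.SF

/-! ### Values -/

/-- VLA: values are unique, sums, products, inverses -/
def T_VLA : Prop := ∀ (k F K : Type) [Field k] [Field F] [Algebra k F] [Field K] [Algebra k K]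
  (u : Fin 3 → F) (φ : Bb k u →ₐ[k] K),
  (∀ a b b', Vl u φ a b → Vl u φ a b' → b = b') ∧
  (∀ a a' b b', Vl u φ a b → Vl u φ a' b' → Vl u φ (a + a') (b + b') ∧
    Vl u φ (a * a') (b * b')) ∧
  (∀ a b, Vl u φ a b → b ≠ 0 → Vl u φ a⁻¹ b⁻¹) ∧
  (∀ h : Bb k u, Vl u φ (h : F) (φ h)) ∧
  ∀ c : k, Vl u φ (algebraMap k F c) (algebraMap k K c)

/-- VLQ: values of polynomials -/
def T_VLQ : Prop := ∀ (k F K : Type) [Field k] [Field F] [Algebra k F] [Field K] [Algebra k K]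
  (u : Fin 3 → F) (φ : Bb k u →ₐ[k] K),
  (∀ V W W', VQ u φ V W → VQ u φ V W' → W = W') ∧
  (∀ V V' W W', VQ u φ V W → VQ u φ V' W' → VQ u φ (V + V') (W + W') ∧
    VQ u φ (V * V') (W * W')) ∧
  (∀ (r : ℕ) V W, VQ u φ V W → VQ u φ (V ^ r) (W ^ r)) ∧
  (∀ V W, VQ u φ V W → VQ u φ (Polynomial.derivative V) (Polynomial.derivative W)) ∧
  (∀ a b, Vl u φ a b → VQ u φ (cq a) (cq b)) ∧ VQ u φ Polynomial.X Polynomial.X ∧
  ∀ V : Q2 F, (∀ (j : ℕ) (a : Fin 2 →₀ ℕ), ∃ b, Vl u φ ((V.coeff j).coeff a) b) →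
    ∃ W, VQ u φ V W

/-- VLD: values of derivatives -/
def T_VLD : Prop := ∀ (k F K : Type) [Field k] [IsAlgClosed k] [CharZero k] [Field F]
  [Algebra k F] [Field K] [Algebra k K] (u : Fin 3 → F) (dd : Fin 3 → Derivation k F F)
  (δ j0 c0 : ℕ) (J : MvPolynomial (Fin 3) k), Sfc u dd δ j0 c0 J → ∀ (φ : Bb k u →ₐ[k] K)
  (x : Fin 3 → K), (∀ (i : Fin 3) (b : Bb k u), (b : F) = u i → φ b = x i) →
  aeval x J ≠ 0 → Vl u φ (aeval u J) (aeval x J) ∧ ∀ a b, Vl u φ a b → ∃ bl : Fin 3 → K,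
  (∀ l, Vl u φ (dd l a) (bl l)) ∧ ∀ D : Derivation k K K, D b = ∑ l, bl l * D (x l)

/-- VLI: normalised orders of integral homogeneous elements -/
def T_VLI : Prop := ∀ (k F K : Type) [Field k] [IsAlgClosed k] [CharZero k] [Field F]
  [Algebra k F] [Field K] [Algebra k K] (u : Fin 3 → F) (dd : Fin 3 → Derivation k F F)
  (δ j0 c0 : ℕ) (J : MvPolynomial (Fin 3) k), Sfc u dd δ j0 c0 J → ∀ (φ : Bb k u →ₐ[k] K)
  (x : Fin 3 → K), (∀ (i : Fin 3) (b : Bb k u), (b : F) = u i → φ b = x i) →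
  (∃ j, x j = 1) → ∀ (v : DV k K) (e : ℤ) (a : F) (b : K), Itg k u a → Hm k (eu u dd) e a →
  Vl u φ a b → b ≠ 0 → 0 ≤ nv v x e b

/-- VPS: the substitution of the chart commutes with values -/
def T_VPS : Prop := ∀ (k F K : Type) [Field k] [IsAlgClosed k] [CharZero k] [Field F]
  [Algebra k F] [Field K] [Algebra k K] (u : Fin 3 → F) (dd : Fin 3 → Derivation k F F)
  (J : MvPolynomial (Fin 3) k) (φ : Bb k u →ₐ[k] K) (m : ℕ) (G : F) (x g : Fin 3 → K)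
  (g0 s : K) (H : Fin 3 → Fin 3 → K), (∀ i, Vl u φ (u i) (x i)) → Vl u φ G g0 →
  Vl u φ (aeval u J) s → (∀ l, Vl u φ (dd l G) (g l)) →
  (∀ i j, Vl u φ (dd i (dd j G)) (H i j)) → ∀ V W, VQ u φ V W →
  ∀ (j : ℕ) (a : Fin 3 →₀ ℕ), Vl u φ (((Ps u dd J m G V).coeff j).coeff a)
    (((Psi m x g g0 H s W).coeff j).coeff a)

/-- SCD: scaling of the data of the chart -/
def T_SCD : Prop := ∀ (k K : Type) [Field k] [CharZero k] [Field K] [Algebra k K] (m : ℕ)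
  (x g : Fin 3 → K) (G : K) (H : Fin 3 → Fin 3 → K) (θ : Derivation k K K) (c : K), 2 ≤ m →
  c ≠ 0 → Dat m x g G H → θ G = ∑ i, g i * θ (x i) → (∀ i, θ (g i) = ∑ j, H i j * θ (x j)) →
  Dat m (fun i => c * x i) (fun i => c ^ (m - 1) * g i) (c ^ m * G)
    (fun i j => c ^ (m - 2) * H i j) ∧
  θ (c ^ m * G) = ∑ i, (c ^ (m - 1) * g i) * θ (c * x i) ∧
  ∀ i, θ (c ^ (m - 1) * g i) = ∑ j, (c ^ (m - 2) * H i j) * θ (c * x j)

/-- SCV: scaling of the values of homogeneous elements -/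
def T_SCV : Prop := ∀ (k K : Type) [Field k] [CharZero k] [Field K] [Algebra k K]
  (D : Derivation k K K) (x : Fin 3 → K) (c μ : K) (n : ℕ) (τ : ℤ) (V V' : Q2 K), c ≠ 0 →
  WH n V → (∀ (j : ℕ) (a : Fin 2 →₀ ℕ),
    (V'.coeff j).coeff a = c ^ (τ - 2 * n + 3 * j) * (V.coeff j).coeff a) →
  evc (μ • D) (fun i => c * x i) V' = c ^ τ * μ ^ n * evc D x V

/-- EVL: the local inequality in normalised coordinates -/
def T_EVL : Prop := ∀ (k K : Type) [Field k] [CharZero k] [Field K] [Algebra k K] (v : DV k K)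
  (θ : Derivation k K K) (m : ℕ) (x g : Fin 3 → K) (G s : K) (H : Fin 3 → Fin 3 → K), 1 ≤ m →
  Dat m x g G H → G ≠ 0 → s ≠ 0 → (∀ z : K, 0 ≤ v.ord z → ge v 0 (θ z)) →
  (∀ i, ge v 0 (x i)) → (∃ e : Fin 3 → K, (∀ i, ge v 0 (e i)) ∧ dp g e = 1) → ge v 0 s →
  θ G = ∑ i, g i * θ (x i) → (∀ i, θ (g i) = ∑ j, H i j * θ (x j)) → ge v 0 (θ G / G) →
  ∀ (r w n' : ℕ) (P N : Q2 K), WH w P → WH n' N → 1 ≤ P.natDegree → P ^ r * N ≠ 0 →
  (∀ (j : ℕ) (a : Fin 3 →₀ ℕ), ge v 0 (((Psi m x g G H s (P ^ r * N)).coeff j).coeff a)) →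
  ge v 0 (s ^ (2 * (n' + r * (w - 3))) *
    (evc θ x N * (m * G * evc θ x (Polynomial.derivative P)) ^ r))

/-! ### Factors -/

/-- HFA: factors of homogeneous elements are homogeneous up to constants -/
def T_HFA : Prop := ∀ (k F : Type) [Field k] [IsAlgClosed k] [CharZero k] [Field F] [Algebra k F]
  (u : Fin 3 → F) (dd : Fin 3 → Derivation k F F) (δ j0 c0 : ℕ) (J : MvPolynomial (Fin 3) k),
  Sfc u dd δ j0 c0 J → ∀ (n : ℕ) (τ : ℤ) (P N : Q2 F), P * N ≠ 0 → Tw u dd n τ (P * N) →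
  ∃ (c : F) (w n' : ℕ) (τ1 τ2 : ℤ), c ≠ 0 ∧ w + n' = n ∧ τ1 + τ2 = τ ∧
    Tw u dd w τ1 (cq c * P) ∧ Tw u dd n' τ2 (cq c⁻¹ * N)

/-- HFB: quotients of homogeneous elements are homogeneous -/
def T_HFB : Prop := ∀ (k F : Type) [Field k] [IsAlgClosed k] [CharZero k] [Field F] [Algebra k F]
  (u : Fin 3 → F) (dd : Fin 3 → Derivation k F F) (δ j0 c0 : ℕ) (J : MvPolynomial (Fin 3) k),
  Sfc u dd δ j0 c0 J → ∀ (n w : ℕ) (τ τ' : ℤ) (P N : Q2 F), P * N ≠ 0 →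
  Tw u dd n τ (P * N) → Tw u dd w τ' P → w ≤ n ∧ Tw u dd (n - w) (τ - τ') N

/-- TWM: products, powers, derivatives of homogeneous elements -/
def T_TWM : Prop := ∀ (k F : Type) [Field k] [Field F] [Algebra k F]
  (u : Fin 3 → F) (dd : Fin 3 → Derivation k F F),
  (∀ (n n' : ℕ) (τ τ' : ℤ) (V V' : Q2 F), Tw u dd n τ V → Tw u dd n' τ' V' →
    Tw u dd (n + n') (τ + τ') (V * V')) ∧
  (∀ (n r : ℕ) (τ : ℤ) (V : Q2 F), Tw u dd n τ V → Tw u dd (r * n) (r * τ) (V ^ r)) ∧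
  (∀ (n : ℕ) (τ : ℤ) (V : Q2 F), Tw u dd (n + 3) (τ + 3) V →
    Tw u dd n τ (Polynomial.derivative V)) ∧
  (∀ (t : ℤ) (c : F), Hm k (eu u dd) t c → Tw u dd 0 t (cq c)) ∧
  Tw u dd 3 3 (Polynomial.X : Q2 F)

/-- FAC: factorisation in homogeneous irreducible elements -/
def T_FAC : Prop := ∀ (k F : Type) [Field k] [IsAlgClosed k] [CharZero k] [Field F] [Algebra k F]
  (u : Fin 3 → F) (dd : Fin 3 → Derivation k F F) (δ j0 c0 : ℕ) (J : MvPolynomial (Fin 3) k),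
  Sfc u dd δ j0 c0 J → ∀ (n : ℕ) (τ : ℤ) (V : Q2 F), V ≠ 0 → Tw u dd n τ V →
  ∃ (s : List (Q2 F)) (c : F) (t : ℤ), c ≠ 0 ∧ Hm k (eu u dd) t c ∧ V = cq c * s.prod ∧
    ∀ P ∈ s, Irreducible P ∧ ∃ (w : ℕ) (τ' : ℤ), Tw u dd w τ' P

/-- RST: elimination of `w` -/
def T_RST : Prop := ∀ (k F : Type) [Field k] [IsAlgClosed k] [CharZero k] [Field F] [Algebra k F]
  (u : Fin 3 → F) (dd : Fin 3 → Derivation k F F) (δ j0 c0 : ℕ) (J : MvPolynomial (Fin 3) k),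
  Sfc u dd δ j0 c0 J → ∀ (w n : ℕ) (τ τ' : ℤ) (P N : Q2 F), Irreducible P → 1 ≤ P.natDegree →
  Tw u dd w τ P → Tw u dd n τ' N → ¬ P ∣ N → ∃ c : Q2 F, FE u dd c ∧
  ∀ (K : Type) [Field K] [Algebra k K] (φ : Bb k u →ₐ[k] K) (D : Derivation k K K)
  (x : Fin 3 → K) (PK NK cK : Q2 K), VQ u φ P PK → VQ u φ N NK → VQ u φ c cK →
  evc D x PK = 0 → evc D x NK = 0 → evc D x cK = 0

/-- VQE: existence of values -/
def T_VQE : Prop := ∀ (k F : Type) [Field k] [IsAlgClosed k] [CharZero k] [Field F] [Algebra k F]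
  (u : Fin 3 → F) (dd : Fin 3 → Derivation k F F) (δ j0 c0 : ℕ) (J : MvPolynomial (Fin 3) k),
  Sfc u dd δ j0 c0 J → ∀ (n : ℕ) (τ : ℤ) (V : Q2 F), Tw u dd n τ V → ∃ c : Q2 F, FE u dd c ∧
  ∀ (K : Type) [Field K] [Algebra k K] (φ : Bb k u →ₐ[k] K) (D : Derivation k K K)
  (x : Fin 3 → K), Avd u φ D x {c} → ∃ W, VQ u φ V W

/-- SEL: if there is a curve of large degree which satisfies the equation `P` then the sections are
divisible by high powers of `P` -/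
def T_SEL : Prop := ∀ (k F : Type) [Field k] [IsAlgClosed k] [CharZero k] [Field F] [Algebra k F]
  (u : Fin 3 → F) (dd : Fin 3 → Derivation k F F) (δ j0 c0 : ℕ) (J : MvPolynomial (Fin 3) k),
  Sfc u dd δ j0 c0 J → ∀ (m : ℕ) (G : F), 4 ≤ m → Crd u dd m G → ∀ (n w : ℕ) (τ : ℤ) (P : Q2 F),
  Irreducible P → 1 ≤ P.natDegree → Tw u dd w τ P → ∃ cs : Set (Q2 F), cs.Finite ∧
  (∀ c ∈ cs, FE u dd c) ∧
  ∀ (K : Type) [Field K] [Algebra k K] [Algebra.EssFiniteType k K], Algebra.trdeg k K = 1 →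
  ∀ (D : Derivation k K K), D ≠ 0 → ∀ (φ : Bb k u →ₐ[k] K) (x : Fin 3 → K) (g : K)
  (S : Finset (DV k K)), Crf u J m G φ x g S → Avd u φ D x cs → ∀ PK, VQ u φ P PK →
  evc D x PK = 0 → 0 < deg k x → (n : ℤ) * (canDeg D + S.card) < deg k x →
  Mlt u dd J j0 m G n P

/-- PRT: the result on sections -/
def T_PRT : Prop := ∀ δ j0 c0 : ℕ, ∃ m1 : ℕ,
  ∀ (k F : Type) [Field k] [IsAlgClosed k] [CharZero k] [Field F] [Algebra k F]
  (u : Fin 3 → F) (dd : Fin 3 → Derivation k F F) (J : MvPolynomial (Fin 3) k),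
  Sfc u dd δ j0 c0 J → ∀ (m : ℕ) (G : F), m1 ≤ m → Crd u dd m G →
  ∃ (B : ℕ) (cs : Set (Q2 F)) (ps : Set (ℕ × MvPolynomial (Fin 3) k × MvPolynomial (Fin 3) F)),
  cs.Finite ∧ ps.Finite ∧ (∀ c ∈ cs, FE u dd c) ∧
  (∀ p ∈ ps, 2 * p.1 ≤ m ∧ Cnn u dd J m G p.1 p.2.1 p.2.2) ∧
  ∀ (K : Type) [Field K] [Algebra k K] [Algebra.EssFiniteType k K], Algebra.trdeg k K = 1 →
  ∀ (D : Derivation k K K), D ≠ 0 → ∀ (φ : Bb k u →ₐ[k] K) (x : Fin 3 → K) (g : K)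
  (S : Finset (DV k K)), Crf u J m G φ x g S →
  (deg k x ≤ B * max 0 (canDeg D + S.card)) ∨
  (∃ c ∈ cs, ∃ W, VQ u φ c W ∧ evc D x W = 0) ∨
  ∃ p ∈ ps, ∀ b0 : MvPolynomial (Fin 3) (Bb k u),
    map ((Bb k u).val : Bb k u →+* F) b0 = p.2.2 →
    aeval x p.2.1 * dt x (fun i => D (x i)) (fun i => D (D (x i))) +
      eval₂ (φ : Bb k u →+* K) (fun i => D (x i)) b0 = 0

/-! ### Connections -/

section Con

variable {k F : Type} [Field k] [Field F] [Algebra k F]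

/-- the part of the chart expression of `w + b` without `ζ` -/
noncomputable def bet (u : Fin 3 → F) (dd : Fin 3 → Derivation k F F)
    (J : MvPolynomial (Fin 3) k) (G : F) (b : MvPolynomial (Fin 3) F) : MvPolynomial (Fin 3) F :=
  aeval (fun i => C (aeval u J ^ 2) * gx dd G i) b -
    C (aeval u J ^ 6) * hq (fun i j => C (hes dd G i j)) (gx dd G) (gx dd G) *
      dp (fun i => C (u i)) X

/-- cubic form in the derivative, invariant, coefficients of degree 0 -/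
structure Cub (u : Fin 3 → F) (dd : Fin 3 → Derivation k F F) (b : MvPolynomial (Fin 3) F) :
    Prop where
  hb : b.IsHomogeneous 3
  hm : ∀ a, Hm k (eu u dd) 0 (b.coeff a)
  inv : ∑ i, C (u i) * pderiv i b = 0

end Con

/-- CN1: the cubic form of an equation of weight 3 -/
def T_CN1 : Prop := ∀ (k F : Type) [Field k] [IsAlgClosed k] [CharZero k] [Field F] [Algebra k F]
  (u : Fin 3 → F) (dd : Fin 3 → Derivation k F F) (δ j0 c0 : ℕ) (J : MvPolynomial (Fin 3) k),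
  Sfc u dd δ j0 c0 J → ∀ (m : ℕ) (G : F), 1 ≤ m → Crd u dd m G → ∀ P : Q2 F,
  P.coeff 1 = 1 → Tw u dd 3 3 P → ∃ b : MvPolynomial (Fin 3) F, Cub u dd b ∧
  Ps u dd J m G P = cc (m * G) * zv + Polynomial.C (bet u dd J G b) ∧
  ∀ (K : Type) [Field K] [Algebra k K] (φ : Bb k u →ₐ[k] K) (D : Derivation k K K)
    (x : Fin 3 → K) (W : Q2 K) (A : MvPolynomial (Fin 3) k) (b0 : MvPolynomial (Fin 3) (Bb k u)),
    (∀ (i : Fin 3) (b : Bb k u), (b : F) = u i → φ b = x i) → VQ u φ P W →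
    map ((Bb k u).val : Bb k u →+* F) b0 = C (aeval u A) * b →
    aeval x A * evc D x W = aeval x A * dt x (fun i => D (x i)) (fun i => D (D (x i))) +
      eval₂ (φ : Bb k u →+* K) (fun i => D (x i)) b0

/-- CNI: recovering the cubic form from the chart -/
def T_CNI : Prop := ∀ (k F : Type) [Field k] [IsAlgClosed k] [CharZero k] [Field F] [Algebra k F]
  (u : Fin 3 → F) (dd : Fin 3 → Derivation k F F) (δ j0 c0 : ℕ) (J : MvPolynomial (Fin 3) k),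
  Sfc u dd δ j0 c0 J → ∀ (m : ℕ) (G : F), 1 ≤ m → Crd u dd m G →
  ∀ b : MvPolynomial (Fin 3) F, Cub u dd b →
  aeval (fun i => - cr (fun j => C (u j)) X i : Fin 3 → MvPolynomial (Fin 3) F)
    (bet u dd J G b) = C (aeval u J ^ 6 * (m : F) ^ 3 * G ^ 3) * b

/-- CNS: shift of the chart expression, directional derivatives -/
def T_CNS : Prop := ∀ (k F : Type) [Field k] [IsAlgClosed k] [CharZero k] [Field F] [Algebra k F]
  (u : Fin 3 → F) (dd : Fin 3 → Derivation k F F) (δ j0 c0 : ℕ) (J : MvPolynomial (Fin 3) k),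
  Sfc u dd δ j0 c0 J → ∀ (m : ℕ) (G : F), 1 ≤ m → Crd u dd m G →
  ∀ b : MvPolynomial (Fin 3) F, Cub u dd b →
  (∀ (R : Type) [CommRing R] [Algebra F R] (ρ : Fin 3 → R) (c : R),
    aeval (fun i => ρ i + c * algebraMap F R (dd i G)) (bet u dd J G b) =
    aeval ρ (bet u dd J G b) - c * algebraMap F R (m * G * aeval u J ^ 6) *
      hq (fun i j => algebraMap F R (hes dd G i j)) (cr (fun i => algebraMap F R (dd i G)) ρ)
        (cr (fun i => algebraMap F R (dd i G)) ρ)) ∧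
  ∀ e : Fin 3 → F, ∑ i, dd i G * e i = 1 →
    C (m * G * aeval u J ^ 6) * aeval (gx dd G) (∑ i, C (e i) * pderiv i b) =
      - ∑ i, C (cr u e i) * pderiv i (bet u dd J G b) +
        C (2 * m * G * aeval u J ^ 6) * hq (fun i j => C (hes dd G i j)) (gx dd G)
          (fun i => C (e i)) * dp (fun i => C (u i)) X

/-- CN2: first reduction of the denominators -/
def T_CN2 : Prop := ∀ (k F : Type) [Field k] [IsAlgClosed k] [CharZero k] [Field F] [Algebra k F]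
  (u : Fin 3 → F) (dd : Fin 3 → Derivation k F F) (δ j0 c0 : ℕ) (J : MvPolynomial (Fin 3) k),
  Sfc u dd δ j0 c0 J → ∀ (m : ℕ) (G : F), 2 ≤ m → Crd u dd m G →
  ∀ (LL : Type) [Field LL] [Algebra k LL] (π : Bb k u →ₐ[k] LL) (v : Fin 2 → LL)
    (EL : Derivation k LL LL) (d : ℕ), Dcv u dd G π v EL d →
  ∀ (b : MvPolynomial (Fin 3) F) (h : ℕ) (H : MvPolynomial (Fin 3) k), Cub u dd b →
  H.IsHomogeneous h → H ≠ 0 → 6 * j0 + h + 3 < m →
  (∀ a, Itg k u (aeval u H * ((bet u dd J G b).coeff a / G))) →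
  ∀ a, Itg k u (aeval u J ^ 6 * aeval u H * G * b.coeff a)

/-- CN3: second reduction of the denominators -/
def T_CN3 : Prop := ∀ (k F : Type) [Field k] [IsAlgClosed k] [CharZero k] [Field F] [Algebra k F]
  (u : Fin 3 → F) (dd : Fin 3 → Derivation k F F) (δ j0 c0 : ℕ) (J : MvPolynomial (Fin 3) k),
  Sfc u dd δ j0 c0 J → ∀ (m : ℕ) (G : F), 2 ≤ m → Crd u dd m G →
  ∀ (LL : Type) [Field LL] [Algebra k LL] (π : Bb k u →ₐ[k] LL) (v : Fin 2 → LL)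
    (EL : Derivation k LL LL) (d : ℕ), Dcv u dd G π v EL d →
  ∀ (b : MvPolynomial (Fin 3) F) (h : ℕ) (H : MvPolynomial (Fin 3) k), Cub u dd b →
  H.IsHomogeneous h → H ≠ 0 → 6 * j0 + h + 3 < m →
  (∀ a, Itg k u (aeval u H * ((bet u dd J G b).coeff a / G))) →
  (∀ a, Itg k u (aeval u J ^ 6 * aeval u H * G * b.coeff a)) →
  ∀ a, Itg k u (aeval u J ^ 6 * aeval u H * b.coeff a)

/-! ### Assembly -/

/-- PRS: restriction to the field generated by the values -/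
def T_PRS : Prop := ∀ (k F : Type) [Field k] [IsAlgClosed k] [CharZero k] [Field F] [Algebra k F]
  (u : Fin 3 → F) (dd : Fin 3 → Derivation k F F) (δ j0 c0 : ℕ) (J : MvPolynomial (Fin 3) k),
  Sfc u dd δ j0 c0 J → ∀ (m : ℕ) (G : F), Crd u dd m G →
  ∀ (K : Type) [Field K] [Algebra k K] [Algebra.EssFiniteType k K], Algebra.trdeg k K = 1 →
  ∀ (D : Derivation k K K), D ≠ 0 → ∀ (φ : Bb k u →ₐ[k] K) (x : Fin 3 → K) (g : K)
  (S : Finset (DV k K)), Crf u J m G φ x g S →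
  (∀ i, x i ∈ Set.range (algebraMap k K)) ∨
  ∃ (K0 : Type) (_ : Field K0) (_ : Algebra k K0) (_ : Algebra.EssFiniteType k K0)
    (ι : K0 →ₐ[k] K) (φ0 : Bb k u →ₐ[k] K0) (x0 : Fin 3 → K0) (g0 : K0)
    (D0 : Derivation k K0 K0) (μ : K) (S0 : Finset (DV k K0)),
    Algebra.trdeg k K0 = 1 ∧ D0 ≠ 0 ∧ (∀ i, ι (x0 i) = x i) ∧ (∀ b, ι (φ0 b) = φ b) ∧ Prm φ0 ∧
    μ ≠ 0 ∧ (∀ z, D (ι z) = μ * ι (D0 z)) ∧ Crf u J m G φ0 x0 g0 S0 ∧ S0.card ≤ S.card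

/-- DSX: the equations for the smaller field -/
def T_DSX : Prop := ∀ (k F : Type) [Field k] [IsAlgClosed k] [CharZero k] [Field F] [Algebra k F]
  (u : Fin 3 → F) (dd : Fin 3 → Derivation k F F) (K0 K : Type) [Field K0]
  [Algebra k K0] [Field K] [Algebra k K] (ι : K0 →ₐ[k] K) (φ0 : Bb k u →ₐ[k] K0)
  (φ : Bb k u →ₐ[k] K) (D : Derivation k K K) (D0 : Derivation k K0 K0) (μ : K)
  (x0 : Fin 3 → K0), μ ≠ 0 → (∀ z, D (ι z) = μ * ι (D0 z)) → (∀ b, ι (φ0 b) = φ b) →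
  (∀ (c : Q2 F) (W : Q2 K), FE u dd c → VQ u φ c W → evc D (fun i => ι (x0 i)) W = 0 →
    ∃ W0, VQ u φ0 c W0 ∧ evc D0 x0 W0 = 0) ∧
  ∀ (A : MvPolynomial (Fin 3) k) (b0 : MvPolynomial (Fin 3) (Bb k u)), b0.IsHomogeneous 3 →
    aeval (fun i => ι (x0 i)) A * dt (fun i => ι (x0 i)) (fun i => D (ι (x0 i)))
      (fun i => D (D (ι (x0 i)))) + eval₂ (φ : Bb k u →+* K) (fun i => D (ι (x0 i))) b0 = 0 →
    aeval x0 A * dt x0 (fun i => D0 (x0 i)) (fun i => D0 (D0 (x0 i))) +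
      eval₂ (φ0 : Bb k u →+* K0) (fun i => D0 (x0 i)) b0 = 0

end Pool.Agent.H3.SF
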