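import Pool.Agent.H3.SF.Tg2
import Pool.Agent.H84.SF.Geo2
import Pool.Agent.H84.SM.Targets2

/-!
# MP_70ba79_ag, THEOREM S: targets, part 3: assembly
-/

set_option autoImplicit false

namespace Pool.Agent.H3.SF

open MvPolynomial SC Pool.Agent.H27.LV
open Pool.Agent.H84.SM (dp cr dt)
open Pool.Agent.H92.SF
open Pool.Agent.H84.SF (Cor SmG T_LOX)

/-- MAX: the theorem for surfaces with a projection and coordinates -/
def T_MAX : Prop := ∀ δ j0 c0 : ℕ, ∃ m0 : ℕ,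
  ∀ (k F σ : Type) [Field k] [IsAlgClosed k] [CharZero k] [Field F] [Algebra k F] [Fintype σ]
  [DecidableEq σ] (X : σ → F) (u : Fin 3 → F) (dd : Fin 3 → Derivation k F F)
  (J : MvPolynomial (Fin 3) k),
  Sfc u dd δ j0 c0 J → Cor X u dd J → ∀ (m : ℕ) (G : F), m0 ≤ m → Crd u dd m G →
  SmG (k := k) X m G → ∃ B : ℕ,
  ∀ (K : Type) [Field K] [Algebra k K] [Algebra.EssFiniteType k K], Algebra.trdeg k K = 1 →
  ∀ (D : Derivation k K K), D ≠ 0 → ∀ (φ : Bb k u →ₐ[k] K)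
  (x : Fin 3 → K) (g : K) (S : Finset (DV k K)), Crf u J m G φ x g S →
  ∃ (e : ℕ) (Φ : MvPolynomial (Fin 3) k), (e : ℤ) ≤ B * max 1 (canDeg D + S.card) ∧ Φ ≠ 0 ∧
    Φ.IsHomogeneous e ∧ aeval x Φ = 0

end Pool.Agent.H3.SF
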